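import Pool.Agent.Helper6.EE.Wei

/-! Commutative algebraic groups of dimension one as functors on fields, with their invariant
differential. -/

set_option autoImplicit false

open WeierstrassCurve

namespace Pool.Agent.Helper6.EE

/-- a functor from fields to abelian groups, on objects -/
structure AGp0 (C : Type) [Field C] where
  G : ∀ (K : Type) [Field K] [Algebra C K], Type
  grp : ∀ (K : Type) [Field K] [Algebra C K], AddCommGroup (G K)

attribute [instance] AGp0.grp

/-- a functor from fields to abelian groups with coordinates and an invariant differential -/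
structure AGp (C : Type) [Field C] extends AGp0 C where
  map : ∀ {K K' : Type} [Field K] [Algebra C K] [Field K'] [Algebra C K'] (_ : K →ₐ[C] K'),
    G K →+ G K'
  coord : ∀ {K : Type} [Field K] [Algebra C K], G K → List K
  coord_inj : ∀ {K : Type} [Field K] [Algebra C K] {P Q : G K}, coord P = coord Q → P = Q
  coord_map : ∀ {K K' : Type} [Field K] [Algebra C K] [Field K'] [Algebra C K'] (f : K →ₐ[C] K')
    (P : G K), coord (map f P) = (coord P).map f
  descend : ∀ {K : Type} [Field K] [Algebra C K] (F : IntermediateField C K) (P : G K),
    (∀ x ∈ coord P, x ∈ F) → ∃ Q : G F, map F.val Q = P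
  lam : ∀ {K : Type} [Field K] [Algebra C K] (_ : Derivation C K K), G K →+ K
  lam_add : ∀ {K : Type} [Field K] [Algebra C K] (D D' : Derivation C K K) (P : G K),
    lam (D + D') P = lam D P + lam D' P
  lam_smul : ∀ {K : Type} [Field K] [Algebra C K] (c : K) (D : Derivation C K K) (P : G K),
    lam (c • D) P = c * lam D P
  lam_nat : ∀ {K K' : Type} [Field K] [Algebra C K] [Field K'] [Algebra C K'] (f : K →ₐ[C] K')
    (D : Derivation C K K) (D' : Derivation C K' K') (P : G K),
    (∀ x ∈ coord P, D' (f x) = f (D x)) → lam D' (map f P) = f (lam D P)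
  der_nat : ∀ {K K' : Type} [Field K] [Algebra C K] [Field K'] [Algebra C K'] (f : K →ₐ[C] K')
    (D : Derivation C K K) (D' : Derivation C K' K') (P : G K),
    lam D' (map f P) = f (lam D P) → ∀ x ∈ coord P, D' (f x) = f (D x)
  lam_br : ∀ {K : Type} [Field K] [Algebra C K] (D D' : Derivation C K K) (P : G K),
    lam ⁅D, D'⁆ P = D (lam D' P) - D' (lam D P)

variable {C : Type} [Field C]

section inst
variable [CharZero C]

theorem cz (K : Type) [Field K] [Algebra C K] : CharZero K :=
  charZero_of_injective_algebraMap (algebraMap C K).injective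

/-- the additive group -/
noncomputable def Ga : AGp C where
  G K _ _ := K
  grp K _ _ := inferInstance
  map {K K'} _ _ _ _ f := (f : K →+* K').toAddMonoidHom
  coord x := [x]
  coord_inj := by
    intro K _ _ P Q h
    simpa using h
  coord_map := by
    intro K K' _ _ _ _ f P
    rfl
  descend := by
    intro K _ _ F P h
    exact ⟨(⟨P, h P (by simp)⟩ : F), rfl⟩
  lam {K} _ _ D := (D : K →ₗ[C] K).toAddMonoidHom
  lam_add := by
    intro K _ _ D D' P
    rfl
  lam_smul := by
    intro K _ _ c D P
    rfl
  lam_nat := by
    intro K K' _ _ _ _ f D D' P h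
    exact h P (by simp)
  der_nat := by
    intro K K' _ _ _ _ f D D' P h x hx
    rw [List.mem_singleton] at hx
    rw [hx]
    exact h
  lam_br := by
    intro K _ _ D D' P
    change ⁅D, D'⁆ (P : K) = D (D' (P : K)) - D' (D (P : K))
    rw [Derivation.commutator_apply]

/-- the multiplicative group -/
noncomputable def Gm : AGp C where
  G K _ _ := Additive Kˣ
  grp K _ _ := inferInstance
  map {K K'} _ _ _ _ f := MonoidHom.toAdditive (Units.map (f : K →* K'))
  coord x := [((Additive.toMul x : _ˣ) : _)]
  coord_inj := by
    intro K _ _ P Q h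
    rw [List.cons.injEq] at h
    exact Additive.toMul.injective (Units.ext h.1)
  coord_map := by
    intro K K' _ _ _ _ f P
    rfl
  descend := by
    intro K _ _ F P h
    have h0 := h _ (List.mem_singleton_self _)
    refine ⟨Additive.ofMul (Units.mk0 ⟨((Additive.toMul P : Kˣ) : K), h0⟩ ?_), ?_⟩
    · intro h1
      exact (Additive.toMul P : Kˣ).ne_zero (congrArg Subtype.val h1)
    · apply Additive.toMul.injective
      apply Units.ext
      rfl
  lam {K} _ _ D :=
    { toFun := fun u => D ((Additive.toMul u : Kˣ) : K) / ((Additive.toMul u : Kˣ) : K)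
      map_zero' := by simp
      map_add' := by
        intro u v
        have hu := (Additive.toMul u : Kˣ).ne_zero
        have hv := (Additive.toMul v : Kˣ).ne_zero
        rw [toMul_add, Units.val_mul, D.leibniz]
        simp only [smul_eq_mul]
        field_simp
        ring }
  lam_add := by
    intro K _ _ D D' P
    simp [add_div]
  lam_smul := by
    intro K _ _ c D P
    simp [mul_div_assoc]
  lam_nat := by
    intro K K' _ _ _ _ f D D' P h
    have h0 := h _ (List.mem_singleton_self _)
    change D' (f _) / f _ = f (D _ / _)
    rw [map_div₀, h0]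
  der_nat := by
    intro K K' _ _ _ _ f D D' P h x hx
    rw [List.mem_singleton] at hx
    subst hx
    change D' (f _) / f _ = f (D _ / _) at h
    have hu := (Additive.toMul P : Kˣ).ne_zero
    have hfu : f ((Additive.toMul P : Kˣ) : K) ≠ 0 := by
      intro h0
      exact hu ((map_eq_zero f).1 h0)
    rw [map_div₀] at h
    field_simp at h
    exact h
  lam_br := by
    intro K _ _ D D' P
    have hu := (Additive.toMul P : Kˣ).ne_zero
    set u := ((Additive.toMul P : Kˣ) : K) with hu'
    change ⁅D, D'⁆ u / u = D (D' u / u) - D' (D u / u)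
    rw [Derivation.commutator_apply, D.leibniz_div, D'.leibniz_div]
    simp only [smul_eq_mul]
    field_simp
    ring

/-- an elliptic curve -/
noncomputable def Ell (a b : C) : AGp C where
  G K _ _ := (WK a b K).Point
  grp K _ _ := by classical exact inferInstance
  map f := by classical exact Affine.Point.map (W' := sW a b) (S := C) f
  coord P := match P with
    | .zero => []
    | .some x y _ => [x, y]
  coord_inj := by
    intro K _ _ P Q h
    rcases P with _ | ⟨x, y, hP⟩ <;> rcases Q with _ | ⟨x', y', hQ⟩
    · rfl
    · simp at h
    · simp at h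
    · simp only [List.cons.injEq, and_true] at h
      obtain ⟨rfl, rfl⟩ := h
      rfl
  coord_map := by
    intro K K' _ _ _ _ f P
    rcases P with _ | ⟨x, y, hP⟩ <;> rfl
  descend := by
    intro K _ _ F P h
    rcases P with _ | ⟨x, y, hP⟩
    · exact ⟨.zero, rfl⟩
    · have hx : x ∈ F := h x (by simp)
      have hy : y ∈ F := h y (by simp)
      refine ⟨.some ⟨x, hx⟩ ⟨y, hy⟩ ?_, rfl⟩
      exact ((sW a b).baseChange_nonsingular F.val.injective _ _).1 hP
  lam {K} _ _ D := by
    classical
    have := cz (C := C) K
    exact
    { toFun := wlam D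
      map_zero' := rfl
      map_add' := wlam_add D }
  lam_add := by
    intro K _ _ D D' P
    rcases P with _ | ⟨x, y, hP⟩
    · change (0 : K) = 0 + 0
      rw [add_zero]
    · change (D + D') x / (2 * y) = D x / (2 * y) + D' x / (2 * y)
      rw [Derivation.coe_add, Pi.add_apply, add_div]
  lam_smul := by
    intro K _ _ c D P
    rcases P with _ | ⟨x, y, hP⟩
    · change (0 : K) = c * 0
      rw [mul_zero]
    · change (c • D) x / (2 * y) = c * (D x / (2 * y))
      rw [Derivation.coe_smul, Pi.smul_apply, smul_eq_mul, mul_div_assoc]
  lam_nat := by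
    intro K K' _ _ _ _ f D D' P h
    rcases P with _ | ⟨x, y, hP⟩
    · change (0 : K') = f 0
      rw [map_zero]
    · change D' (f x) / (2 * f y) = f (D x / (2 * y))
      rw [h x (by simp), map_div₀, map_mul, map_ofNat]
  der_nat := by
    intro K K' _ _ _ _ f D D' P h z hz
    have := cz (C := C) K
    have := cz (C := C) K'
    rcases P with _ | ⟨x, y, hP⟩
    · simp at hz
    · change D' (f x) / (2 * f y) = f (D x / (2 * y)) at h
      have hP' := ((sW a b).baseChange_nonsingular f.injective _ _).2 hP
      obtain ⟨h1, h2⟩ := der_pt D hP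
      obtain ⟨h3, h4⟩ := der_pt D' hP'
      rw [h] at h3 h4
      simp only [List.mem_cons, List.not_mem_nil, or_false] at hz
      rcases hz with rfl | rfl
      · rw [h3]
        conv_rhs => rw [h1]
        simp only [map_mul, map_ofNat]
      · rw [h4]
        conv_rhs => rw [h2]
        simp only [map_mul, map_add, map_ofNat, map_pow, AlgHom.commutes]
  lam_br := by
    intro K _ _ D D' P
    have := cz (C := C) K
    rcases P with _ | ⟨x, y, hP⟩
    · change (0 : K) = D 0 - D' 0
      simp
    · obtain ⟨h1, h2⟩ := der_pt D hP
      obtain ⟨h3, h4⟩ := der_pt D' hP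
      change ⁅D, D'⁆ x / (2 * y) = D (D' x / (2 * y)) - D' (D x / (2 * y))
      set s := D x / (2 * y) with hs
      set s' := D' x / (2 * y) with hs'
      have h2' : D (2 : K) = 0 := by
        have := D.map_natCast 2
        exact_mod_cast this
      have h3' : D (3 : K) = 0 := by
        have := D.map_natCast 3
        exact_mod_cast this
      have h2'' : D' (2 : K) = 0 := by
        have := D'.map_natCast 2
        exact_mod_cast this
      have h3'' : D' (3 : K) = 0 := by
        have := D'.map_natCast 3
        exact_mod_cast this
      apply der_pt_unique _ hP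
      · rw [Derivation.commutator_apply, h3, h1]
        simp only [D.leibniz, D'.leibniz, smul_eq_mul, h2', h2'', h2, h4]
        ring
      · rw [Derivation.commutator_apply, h4, h2]
        simp only [map_add, D.leibniz, D'.leibniz, D.leibniz_pow, D'.leibniz_pow, smul_eq_mul,
          nsmul_eq_mul, h3', h3'', D.map_algebraMap, D'.map_algebraMap]
        push_cast
        linear_combination (6 * x * s') * h1 - (6 * x * s) * h3

end inst

end Pool.Agent.Helper6.EE
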