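import Pool.Agent.Helper6.EE.Tr

/-! Chains of generic extensions. -/

set_option autoImplicit false

open Polynomial IntermediateField

namespace Pool.Agent.Helper6.EE

variable {C : Type} [Field C] {L : Type} [Field L] [Algebra C L]

section acl

/-- relative algebraic closure -/
noncomputable def acl (M : IntermediateField C L) : IntermediateField C L :=
  (algebraicClosure M L).restrictScalars C

theorem mem_acl {M : IntermediateField C L} {x : L} : x ∈ acl M ↔ IsAlgebraic M x := by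
  unfold acl
  rw [IntermediateField.mem_restrictScalars, mem_algebraicClosure_iff]

theorem le_acl (M : IntermediateField C L) : M ≤ acl M := fun x hx =>
  mem_acl.2 (isAlgebraic_algebraMap (⟨x, hx⟩ : M))

theorem alg_mono {M N : IntermediateField C L} (h : M ≤ N) {x : L} (hx : IsAlgebraic M x) :
    IsAlgebraic N x := by
  obtain ⟨p, hp, hpx⟩ := hx
  refine ⟨p.map (IntermediateField.inclusion h : M →+* N), ?_, ?_⟩
  · exact (Polynomial.map_ne_zero_iff (IntermediateField.inclusion h).injective).2 hp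
  · rw [aeval_def, eval₂_map]
    exact hpx

theorem acl_mono {M N : IntermediateField C L} (h : M ≤ N) : acl M ≤ acl N := fun _ hx =>
  mem_acl.2 (alg_mono h (mem_acl.1 hx))

theorem acl_idem (M : IntermediateField C L) : acl (acl M) ≤ acl M := by
  intro x hx
  rw [mem_acl] at hx ⊢
  have h1 : IsAlgebraic (algebraicClosure M L) x := hx
  exact IsAlgebraic.restrictScalars M h1

theorem gen_of_acl {τ : AGp C} {M N : IntermediateField C L} {P : τ.G L} (hP : τ.Gen M P)
    (h : N ≤ acl M) : τ.Gen N P := by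
  obtain ⟨x, hx, hxt⟩ := hP
  refine ⟨x, hx, fun hN => hxt ?_⟩
  exact mem_acl.1 (acl_idem M (mem_acl.2 (alg_mono h hN)))

theorem gen_mono {τ : AGp C} {M N : IntermediateField C L} {P : τ.G L} (hP : τ.Gen M P)
    (h : N ≤ M) : τ.Gen N P := gen_of_acl hP (h.trans (le_acl M))

theorem alg_of_gen {τ τ' : AGp C} (hτ : Nice τ) {M N : IntermediateField C L} {P : τ.G L}
    {P' : τ'.G L} (hP : τ.Gen M P) (hP' : τ'.Gen M P') (hr : τ'.Rat (τ.adj M P) P')
    (hN : M ≤ N) (hPN : τ'.Rat N P') : τ.adj M P ≤ acl N := by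
  intro z hz
  obtain ⟨x, hx, hxt⟩ := hP'
  let K := τ.adj M P
  let _ : Algebra M K := (IntermediateField.inclusion (τ.le_adj M P)).toRingHom.toAlgebra
  have _ : IsScalarTower C M K := IsScalarTower.of_algebraMap_eq fun x => rfl
  have _ : IsScalarTower M K L := IsScalarTower.of_algebraMap_eq fun x => rfl
  obtain ⟨Q, hQ⟩ := (τ.rat_iff _ _).1 (τ.rat_adj M P)
  have htop := adj_htop τ Q hQ
  have hgenQ : ∃ x ∈ τ.coord Q, Transcendental M x := by
    obtain ⟨x, hx, hxt⟩ := hP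
    rw [← congrArg τ.coord hQ, τ.coord_map, List.mem_map] at hx
    obtain ⟨y, hy, rfl⟩ := hx
    refine ⟨y, hy, fun h => hxt ?_⟩
    exact (isAlgebraic_algebraMap_iff (A := L) (algebraMap K L).injective).2 h
  have hff : FF.IsFF M K := hτ.ff (k := M) (K := K) Q hgenQ htop
  have hxK : Transcendental M (⟨x, hr x hx⟩ : K) := by
    intro h
    apply hxt
    exact (isAlgebraic_algebraMap_iff (A := L) (algebraMap K L).injective).2 h
  have h6 := (FF.IsFF.isAlgebraic hxK).isAlgebraic (⟨z, hz⟩ : K)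
  rw [mem_acl]
  obtain ⟨p, hp0, hp⟩ := h6
  have hle : ∀ w ∈ IntermediateField.adjoin M {(⟨x, hr x hx⟩ : K)}, (w : L) ∈ N := by
    intro w hw
    have h7 : IntermediateField.adjoin M {(⟨x, hr x hx⟩ : K)} ≤
        { carrier := {w : K | (w : L) ∈ N}
          mul_mem' := fun ha hb => N.mul_mem ha hb
          add_mem' := fun ha hb => N.add_mem ha hb
          algebraMap_mem' := fun c => hN c.2
          inv_mem' := fun a ha => N.inv_mem ha } := by
      rw [IntermediateField.adjoin_le_iff]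
      intro w hw
      rw [Set.mem_singleton_iff] at hw
      subst hw
      exact hPN x hx
    exact h7 hw
  let f : IntermediateField.adjoin M {(⟨x, hr x hx⟩ : K)} →+* N :=
    { toFun := fun w => ⟨((w : K) : L), hle w w.2⟩
      map_one' := rfl
      map_mul' := fun _ _ => rfl
      map_zero' := rfl
      map_add' := fun _ _ => rfl }
  refine ⟨p.map f, ?_, ?_⟩
  · exact (Polynomial.map_ne_zero_iff f.injective).2 hp0
  · rw [aeval_def, eval₂_map]
    have h8 := congrArg (algebraMap K L) hp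
    rw [aeval_def, hom_eval₂, map_zero] at h8
    exact h8

end acl

/-- chains of generic extensions with logarithmic derivatives in `U` -/
inductive Ch (A : AGp C → Prop) (D : Derivation C L L) (G : IntermediateField C L)
    (U : Submodule C L) : IntermediateField C L → Prop
  | base : Ch A D G U G
  | step {M : IntermediateField C L} {τ : AGp C} {P : τ.G L} :
      Ch A D G U M → A τ → τ.Gen M P → τ.lam D P ∈ U → Ch A D G U (τ.adj M P)

/-- the field generated by all points with logarithmic derivatives in `U` -/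
noncomputable def nxt (A : AGp C → Prop) (D : Derivation C L L) (G : IntermediateField C L)
    (U : Submodule C L) : IntermediateField C L :=
  IntermediateField.adjoin C ((G : Set L) ∪ {x | ∃ (τ : AGp C) (P : τ.G L), A τ ∧
    τ.lam D P ∈ U ∧ x ∈ τ.coord P})

theorem le_nxt (A : AGp C → Prop) (D : Derivation C L L) (G : IntermediateField C L)
    (U : Submodule C L) : G ≤ nxt A D G U := fun x hx =>
  IntermediateField.subset_adjoin C _ (Or.inl hx)

theorem sat_nxt {A : AGp C → Prop} {D : Derivation C L L} {G : IntermediateField C L}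
    {U : Submodule C L} {τ : AGp C} (hA : A τ) {P : τ.G L} (h : τ.lam D P ∈ U) :
    τ.Rat (nxt A D G U) P := fun x hx =>
  IntermediateField.subset_adjoin C _ (Or.inr ⟨τ, P, hA, h, hx⟩)

/-- standing hypotheses -/
structure Hyp (A : AGp C → Prop) (D : Derivation C L L) (G : IntermediateField C L)
    (U : Submodule C L) : Prop where
  nice : ∀ τ, A τ → Nice τ
  con : ∀ x, D x = 0 → ∃ c : C, algebraMap C L c = x
  stab : Stab D G
  le : ∀ x ∈ U, x ∈ G
  div : ∀ τ, A τ → ∀ (P : τ.G L), τ.lam D P ∈ U → ∀ N : ℕ, 0 < N → ∃ P' : τ.G L, (N : ℤ) • P' = P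
  divG : ∀ τ, A τ → ∀ (P : τ.G L), τ.Rat G P → τ.lam D P ∈ U → ∀ N : ℕ, 0 < N →
    ∃ P' : τ.G L, τ.Rat G P' ∧ (N : ℤ) • P' = P

section chain
variable {A : AGp C → Prop} {D : Derivation C L L} {G : IntermediateField C L}
  {U : Submodule C L}

theorem Ch.le {M : IntermediateField C L} (h : Ch A D G U M) : G ≤ M := by
  induction h with
  | base => exact le_rfl
  | step _ _ _ _ ih => exact ih.trans (AGp.le_adj _ _ _)

theorem Ch.le_nxt {M : IntermediateField C L} (h : Ch A D G U M) : M ≤ nxt A D G U := by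
  induction h with
  | base => exact EE.le_nxt A D G U
  | step _ h1 _ h3 ih => exact AGp.adj_le _ ih (sat_nxt h1 h3)

theorem Ch.stab (hyp : Hyp A D G U) {M : IntermediateField C L} (h : Ch A D G U M) :
    Stab D M := by
  induction h with
  | base => exact hyp.stab
  | step h0 h1 _ h3 ih =>
    exact stab_adj (hyp.nice _ h1) ih (AGp.le_adj _ _ _ (h0.le (hyp.le _ h3)))

theorem lam_nat_smul (τ : AGp C) (D : Derivation C L L) (N : ℤ) (P : τ.G L) :
    τ.lam D (N • P) = (N : L) * τ.lam D P := by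
  rw [map_zsmul, zsmul_eq_mul]

variable [CharZero C]

theorem smul_mem_U {U : Submodule C L} {x : L} (n : ℤ) (hx : x ∈ U) : (n : L) * x ∈ U := by
  have := U.smul_mem (n : C) hx
  rwa [Algebra.smul_def, map_intCast] at this

theorem div_mem_U {U : Submodule C L} {x : L} {n : ℤ} (hn : n ≠ 0) (hx : (n : L) * x ∈ U) :
    x ∈ U := by
  have hL := cz (C := C) L
  have hn' : (n : L) ≠ 0 := by exact_mod_cast hn
  have := U.smul_mem ((n : C)⁻¹) hx
  rw [Algebra.smul_def, map_inv₀, map_intCast] at this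
  rwa [inv_mul_cancel_left₀ hn'] at this

theorem lin_mem_U {U : Submodule C L} {x y : L} (n : ℤ) (b : C) (hx : x ∈ U) (hy : y ∈ U) :
    ((n : L) - 1) * (x - algebraMap C L b * y) ∈ U := by
  have h1 : x - algebraMap C L b * y ∈ U := by
    refine U.sub_mem hx ?_
    rw [← Algebra.smul_def]
    exact U.smul_mem b hy
  have := smul_mem_U (n - 1) h1
  push_cast at this
  exact this

/-- division in chains -/
theorem div_ch (hyp : Hyp A D G U) {M : IntermediateField C L} (h : Ch A D G U M) {τ : AGp C}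
    (hA : A τ) {Q : τ.G L} (hQ : τ.Rat M Q) (hl : τ.lam D Q ∈ U) {N : ℕ} (hN : 0 < N) :
    ∃ M', M ≤ M' ∧ M' ≤ acl M ∧ Ch A D G U M' ∧ ∃ Q' : τ.G L, τ.Rat M' Q' ∧ (N : ℤ) • Q' = Q := by
  have hN0 : (N : ℤ) ≠ 0 := by exact_mod_cast hN.ne'
  induction h generalizing Q with
  | base =>
    obtain ⟨Q', h1, h2⟩ := hyp.divG τ hA Q hQ hl N hN
    exact ⟨G, le_rfl, le_acl G, Ch.base, Q', h1, h2⟩
  | @step M τ₁ P h0 hA₁ hP hlP ih =>
    obtain ⟨P₁, hP₁⟩ := hyp.div τ₁ hA₁ P hlP N hN
    have hst := h0.stab hyp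
    obtain ⟨b, Q', -, hQ'r, hR, hlR⟩ := twist (hyp.nice _ hA₁) hyp.con hst hP hN0 hP₁
      (h0.le (hyp.le _ hlP)) hQ (h0.le (hyp.le _ hl))
    set R := (N : ℤ) • Q' - Q with hRdef
    have hlR' : τ.lam D R ∈ U := by
      rw [hlR]
      exact lin_mem_U _ b hl hlP
    obtain ⟨M'', hM1, hM2, hM3, R', hR'r, hR'⟩ := ih hR hlR'
    have hgen₁ : τ₁.Gen M P₁ := gen_of_zsmul hP hP₁
    have hgen₂ : τ₁.Gen M'' P₁ := gen_of_acl hgen₁ hM2
    have hlP₁ : τ₁.lam D P₁ ∈ U := by
      apply div_mem_U hN0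
      rw [← lam_nat_smul, hP₁]
      exact hlP
    have hle : τ₁.adj M P ≤ τ₁.adj M'' P₁ := by
      apply τ₁.adj_le (hM1.trans (τ₁.le_adj M'' P₁))
      rw [← hP₁]
      exact (τ₁.rat_adj M'' P₁).zsmul N
    refine ⟨τ₁.adj M'' P₁, hle, ?_, Ch.step hM3 hA₁ hgen₂ hlP₁, Q' - R', ?_, ?_⟩
    · apply τ₁.adj_le
      · exact hM2.trans (acl_mono (τ₁.le_adj M P))
      · have h1 : τ₁.Rat (τ₁.adj M P₁) P := by
          rw [← hP₁]
          exact (τ₁.rat_adj M P₁).zsmul N
        exact (τ₁.rat_adj M P₁).mono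
          (alg_of_gen (hyp.nice _ hA₁) hgen₁ hP h1 (τ₁.le_adj M P) (τ₁.rat_adj M P))
    · exact (hQ'r.mono (τ₁.adj_mono hM1)).sub (hR'r.mono (τ₁.le_adj M'' P₁))
    · rw [smul_sub, hR', hRdef]
      abel

theorem rat_const {τ : AGp C} {P : τ.G L} (hcon : ∀ x, D x = 0 → ∃ c : C, algebraMap C L c = x)
    (h : τ.lam D P = 0) (M : IntermediateField C L) : τ.Rat M P := by
  intro x hx
  obtain ⟨c, hc⟩ := hcon x (τ.const_of_lam D P h x hx)
  rw [← hc]
  exact M.algebraMap_mem c

theorem rat_of_tor {τ : AGp C} {P P' : τ.G L}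
    (hcon : ∀ x, D x = 0 → ∃ c : C, algebraMap C L c = x) {n : ℤ} (hn : n ≠ 0)
    (h : n • P' = n • P) {M : IntermediateField C L} (hP' : τ.Rat M P') : τ.Rat M P := by
  have hL := cz (C := C) L
  have h1 : τ.lam D (P - P') = 0 := by
    have h2 : n • (P - P') = 0 := by rw [smul_sub, h, sub_self]
    have h3 := lam_nat_smul τ D n (P - P')
    rw [h2, map_zero] at h3
    have h4 : (n : L) ≠ 0 := by exact_mod_cast hn
    exact (mul_eq_zero.1 h3.symm).resolve_left h4
  have h2 := (rat_const hcon h1 M).add hP'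
  rwa [sub_add_cancel] at h2

/-- adjunction of a point to a chain -/
theorem adj_ch [IsAlgClosed C] (hyp : Hyp A D G U) {M : IntermediateField C L}
    (h : Ch A D G U M) {τ : AGp C} (hA : A τ) {P : τ.G L} (hl : τ.lam D P ∈ U) :
    ∃ M', M ≤ M' ∧ Ch A D G U M' ∧ τ.Rat M' P := by
  by_cases hP : τ.Gen M P
  · exact ⟨τ.adj M P, τ.le_adj M P, Ch.step h hA hP hl, τ.rat_adj M P⟩
  · obtain ⟨n, hn, hr⟩ := descent (hyp.nice _ hA) hyp.con (h.stab hyp) hP (h.le (hyp.le _ hl))
    have hl' : τ.lam D ((n : ℤ) • P) ∈ U := by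
      rw [lam_nat_smul]
      exact smul_mem_U _ hl
    obtain ⟨M', hM1, -, hM3, Q', hQ'r, hQ'⟩ := div_ch hyp h hA hr hl' hn
    exact ⟨M', hM1, hM3, rat_of_tor hyp.con (by exact_mod_cast hn.ne') hQ' hQ'r⟩

/-- chains are directed -/
theorem dir_ch [IsAlgClosed C] (hyp : Hyp A D G U) {M N : IntermediateField C L}
    (h : Ch A D G U M) (h' : Ch A D G U N) : ∃ M', M ≤ M' ∧ N ≤ M' ∧ Ch A D G U M' := by
  induction h' with
  | base => exact ⟨M, le_rfl, h.le, h⟩
  | @step N τ P h0 hA hP hl ih =>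
    obtain ⟨M', h1, h2, h3⟩ := ih
    obtain ⟨M'', h4, h5, h6⟩ := adj_ch hyp h3 hA hl
    exact ⟨M'', h1.trans h4, τ.adj_le (h2.trans h4) h6, h5⟩

/-- every element of the next level lies in a chain -/
theorem mem_ch [IsAlgClosed C] (hyp : Hyp A D G U) {x : L} (hx : x ∈ nxt A D G U) :
    ∃ M, Ch A D G U M ∧ x ∈ M := by
  let F : IntermediateField C L :=
    { carrier := {x | ∃ M, Ch A D G U M ∧ x ∈ M}
      mul_mem' := by
        rintro a b ⟨M, hM, ha⟩ ⟨N, hN, hb⟩
        obtain ⟨M', h1, h2, h3⟩ := dir_ch hyp hM hN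
        exact ⟨M', h3, mul_mem (h1 ha) (h2 hb)⟩
      add_mem' := by
        rintro a b ⟨M, hM, ha⟩ ⟨N, hN, hb⟩
        obtain ⟨M', h1, h2, h3⟩ := dir_ch hyp hM hN
        exact ⟨M', h3, add_mem (h1 ha) (h2 hb)⟩
      algebraMap_mem' := fun c => ⟨G, Ch.base, G.algebraMap_mem c⟩
      inv_mem' := by
        rintro a ⟨M, hM, ha⟩
        exact ⟨M, hM, inv_mem ha⟩ }
  have h1 : nxt A D G U ≤ F := by
    apply IntermediateField.adjoin_le_iff.2
    rintro y (hy | ⟨τ, P, hA, hl, hy⟩)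
    · exact ⟨G, Ch.base, hy⟩
    · obtain ⟨M', -, h2, h3⟩ := adj_ch hyp Ch.base hA hl
      exact ⟨M', h2, h3 y hy⟩
  exact h1 hx

theorem fin_ch [IsAlgClosed C] (hyp : Hyp A D G U) (S : Finset L)
    (hS : ∀ x ∈ S, x ∈ nxt A D G U) : ∃ M, Ch A D G U M ∧ ∀ x ∈ S, x ∈ M := by
  classical
  induction S using Finset.induction_on with
  | empty => exact ⟨G, Ch.base, by simp⟩
  | insert a S ha ih =>
    obtain ⟨M, hM, h1⟩ := ih (fun x hx => hS x (Finset.mem_insert_of_mem hx))
    obtain ⟨N, hN, h2⟩ := mem_ch hyp (hS a (Finset.mem_insert_self a S))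
    obtain ⟨M', h3, h4, h5⟩ := dir_ch hyp hM hN
    refine ⟨M', h5, fun x hx => ?_⟩
    rw [Finset.mem_insert] at hx
    rcases hx with rfl | hx
    · exact h4 h2
    · exact h3 (h1 x hx)

theorem rat_ch [IsAlgClosed C] (hyp : Hyp A D G U) {τ : AGp C} {P : τ.G L}
    (hP : τ.Rat (nxt A D G U) P) (S : Finset L) (hS : ∀ x ∈ S, x ∈ nxt A D G U) :
    ∃ M, Ch A D G U M ∧ τ.Rat M P ∧ ∀ x ∈ S, x ∈ M := by
  classical
  obtain ⟨M, h1, h2⟩ := fin_ch hyp (S ∪ (τ.coord P).toFinset) (by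
    intro x hx
    rw [Finset.mem_union, List.mem_toFinset] at hx
    rcases hx with hx | hx
    · exact hS x hx
    · exact hP x hx)
  refine ⟨M, h1, fun x hx => h2 x ?_, fun x hx => h2 x ?_⟩
  · rw [Finset.mem_union, List.mem_toFinset]; exact Or.inr hx
  · rw [Finset.mem_union]; exact Or.inl hx

end chain

end Pool.Agent.Helper6.EE
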