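import Mathlib

/-! Classes of germs of holomorphic functions built with exponentials and elliptic functions. -/

set_option autoImplicit false

open Filter Topology
open scoped PeriodPair

namespace Pool.Agent.Helper6.EE

/-- The germs at `z0` of the functions which are built from the functions in `A` by addition,
multiplication, division, the exponential function, and the Weierstrass functions `℘` and `℘'` of
arbitrary lattices. -/
inductive ExpEll (A : (ℂ → ℂ) → Prop) (z0 : ℂ) : (ℂ → ℂ) → Prop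
  | base {f : ℂ → ℂ} : A f → ExpEll A z0 f
  | add {f g : ℂ → ℂ} : ExpEll A z0 f → ExpEll A z0 g → ExpEll A z0 fun z => f z + g z
  | mul {f g : ℂ → ℂ} : ExpEll A z0 f → ExpEll A z0 g → ExpEll A z0 fun z => f z * g z
  | div {f g : ℂ → ℂ} : ExpEll A z0 f → ExpEll A z0 g → g z0 ≠ 0 →
      ExpEll A z0 fun z => f z / g z
  | exp {f : ℂ → ℂ} : ExpEll A z0 f → ExpEll A z0 fun z => Complex.exp (f z)
  | wp (Λ : PeriodPair) {f : ℂ → ℂ} : ExpEll A z0 f → f z0 ∉ Λ.lattice →
      ExpEll A z0 fun z => ℘[Λ] (f z)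
  | wp' (Λ : PeriodPair) {f : ℂ → ℂ} : ExpEll A z0 f → f z0 ∉ Λ.lattice →
      ExpEll A z0 fun z => ℘'[Λ] (f z)

/-- The germs at `z0` of the functions which are built from the functions in `A` by addition,
multiplication, division, integration, and the Weierstrass functions `℘` and `℘'` of arbitrary
lattices. -/
inductive IntEll (A : (ℂ → ℂ) → Prop) (z0 : ℂ) : (ℂ → ℂ) → Prop
  | base {f : ℂ → ℂ} : A f → IntEll A z0 f
  | add {f g : ℂ → ℂ} : IntEll A z0 f → IntEll A z0 g → IntEll A z0 fun z => f z + g z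
  | mul {f g : ℂ → ℂ} : IntEll A z0 f → IntEll A z0 g → IntEll A z0 fun z => f z * g z
  | div {f g : ℂ → ℂ} : IntEll A z0 f → IntEll A z0 g → g z0 ≠ 0 →
      IntEll A z0 fun z => f z / g z
  | int {f g : ℂ → ℂ} : IntEll A z0 f → (∀ᶠ z in 𝓝 z0, HasDerivAt g (f z) z) → IntEll A z0 g
  | wp (Λ : PeriodPair) {f : ℂ → ℂ} : IntEll A z0 f → f z0 ∉ Λ.lattice →
      IntEll A z0 fun z => ℘[Λ] (f z)
  | wp' (Λ : PeriodPair) {f : ℂ → ℂ} : IntEll A z0 f → f z0 ∉ Λ.lattice →
      IntEll A z0 fun z => ℘'[Λ] (f z)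

end Pool.Agent.Helper6.EE
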