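import Mathlib

/-! Embeddings of the function field of a product of elliptic curves and a projective space. -/

set_option autoImplicit false

open MvPolynomial
open scoped PeriodPair

namespace Pool.Agent.Helper6.EE

variable {L M : Type} [Field L] [Algebra ℂ L] [Field M] [Algebra ℂ M]

/-- isomorphisms of purely transcendental extensions -/
theorem exists_rat {σ : Type} {s : σ → L} {s' : σ → M} (h : AlgebraicIndependent ℂ s)
    (h' : AlgebraicIndependent ℂ s') : ∃ f : IntermediateField.adjoin ℂ (Set.range s) →ₐ[ℂ] M,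
      ∀ i (hi : s i ∈ IntermediateField.adjoin ℂ (Set.range s)), f ⟨s i, hi⟩ = s' i := by
  refine ⟨(IntermediateField.adjoin ℂ (Set.range s')).val.comp
    (h'.aevalEquivField.toAlgHom.comp h.aevalEquivField.symm.toAlgHom), fun i hi => ?_⟩
  have h1 : h.aevalEquivField (algebraMap (MvPolynomial σ ℂ) _ (X i)) = ⟨s i, hi⟩ := by
    apply Subtype.ext
    rw [h.aevalEquivField_algebraMap_apply_coe, aeval_X]
  have h2 : h.aevalEquivField.symm ⟨s i, hi⟩ = algebraMap (MvPolynomial σ ℂ) _ (X i) := by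
    rw [← h1, AlgEquiv.symm_apply_apply]
  change ((h'.aevalEquivField (h.aevalEquivField.symm ⟨s i, hi⟩) :
    IntermediateField.adjoin ℂ (Set.range s')) : M) = s' i
  rw [h2, h'.aevalEquivField_algebraMap_apply_coe, aeval_X]

theorem exists_psi {ι κ : Type} {t : ι → L} {x y : κ → L} {t' : ι → M} {x' y' : κ → M}
    {Λ : κ → PeriodPair} (h1 : AlgebraicIndependent ℂ (Sum.elim t x))
    (h2 : ∀ j, y j ^ 2 = 4 * x j ^ 3 - algebraMap ℂ L (Λ j).g₂ * x j - algebraMap ℂ L (Λ j).g₃)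
    (h3 : IntermediateField.adjoin ℂ (Set.range t ∪ Set.range x ∪ Set.range y) = ⊤)
    (h1' : AlgebraicIndependent ℂ (Sum.elim t' x'))
    (h2' : ∀ j, y' j ^ 2 =
      4 * x' j ^ 3 - algebraMap ℂ M (Λ j).g₂ * x' j - algebraMap ℂ M (Λ j).g₃) :
    ∃ ψ : L →ₐ[ℂ] M, (∀ i, ψ (t i) = t' i) ∧ (∀ j, ψ (x j) = x' j) ∧
      ∀ j, ψ (y j) = y' j ∨ ψ (y j) = - y' j := by
  let F0 := IntermediateField.adjoin ℂ (Set.range (Sum.elim t x))
  obtain ⟨f, hf⟩ : ∃ f : F0 →ₐ[ℂ] M, ∀ i (hi : Sum.elim t x i ∈ F0),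
    f ⟨Sum.elim t x i, hi⟩ = Sum.elim t' x' i := exists_rat h1 h1'
  have ht : ∀ i, t i ∈ F0 := fun i => IntermediateField.subset_adjoin ℂ _ ⟨Sum.inl i, rfl⟩
  have hx : ∀ i, x i ∈ F0 := fun i => IntermediateField.subset_adjoin ℂ _ ⟨Sum.inr i, rfl⟩
  let c : κ → F0 := fun j => 4 * (⟨x j, hx j⟩ : F0) ^ 3 -
    algebraMap ℂ F0 (Λ j).g₂ * ⟨x j, hx j⟩ - algebraMap ℂ F0 (Λ j).g₃
  have hc : ∀ j, algebraMap F0 L (c j) = y j ^ 2 := by
    intro j
    rw [h2 j]
    rfl
  have hfc : ∀ j, f (c j) = y' j ^ 2 := by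
    intro j
    have h4 : f ⟨x j, hx j⟩ = x' j := hf (Sum.inr j) (hx j)
    rw [h2' j]
    simp only [c, map_sub, map_mul, map_pow, map_ofNat, AlgHom.commutes, h4]
  have hroot : ∀ j, Polynomial.aeval (y j) (Polynomial.X ^ 2 - Polynomial.C (c j)) = 0 := by
    intro j
    rw [map_sub, map_pow, Polynomial.aeval_X, Polynomial.aeval_C, hc, sub_self]
  obtain ⟨ψ, hψ⟩ := IntermediateField.exists_algHom_of_adjoin_splits' (F := ℂ) (L := F0) (E := L)
    (K := M) (S := Set.range y) f (by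
      rintro _ ⟨j, rfl⟩
      refine ⟨⟨Polynomial.X ^ 2 - Polynomial.C (c j), Polynomial.monic_X_pow_sub_C _ two_ne_zero,
        hroot j⟩, ?_⟩
      have h5 : minpoly F0 (y j) ∣ Polynomial.X ^ 2 - Polynomial.C (c j) :=
        minpoly.dvd _ _ (hroot j)
      have h6 : (minpoly F0 (y j)).map f.toRingHom ∣
          (Polynomial.X - Polynomial.C (y' j)) * (Polynomial.X - Polynomial.C (- y' j)) := by
        have h7 := Polynomial.map_dvd f.toRingHom h5
        have h8 : (Polynomial.X ^ 2 - Polynomial.C (c j)).map f.toRingHom =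
            (Polynomial.X - Polynomial.C (y' j)) * (Polynomial.X - Polynomial.C (- y' j)) := by
          rw [Polynomial.map_sub, Polynomial.map_pow, Polynomial.map_X, Polynomial.map_C]
          have h9 : f.toRingHom (c j) = y' j ^ 2 := hfc j
          rw [h9, map_pow, map_neg]
          ring
        rwa [h8] at h7
      refine Polynomial.Splits.of_dvd ?_ ?_ h6
      · exact (Polynomial.Splits.X_sub_C _).mul (Polynomial.Splits.X_sub_C _)
      · exact mul_ne_zero (Polynomial.X_sub_C_ne_zero _) (Polynomial.X_sub_C_ne_zero _)) (by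
      rw [eq_top_iff]
      rintro z -
      have h4 : z ∈ IntermediateField.adjoin ℂ (Set.range t ∪ Set.range x ∪ Set.range y) := by
        rw [h3]; trivial
      have h5 : IntermediateField.adjoin ℂ (Set.range t ∪ Set.range x ∪ Set.range y) ≤
          (IntermediateField.adjoin F0 (Set.range y)).restrictScalars ℂ := by
        rw [IntermediateField.adjoin_le_iff]
        rintro w ((⟨i, rfl⟩ | ⟨i, rfl⟩) | hw)
        · exact IntermediateField.algebraMap_mem _ (⟨t i, ht i⟩ : F0)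
        · exact IntermediateField.algebraMap_mem _ (⟨x i, hx i⟩ : F0)
        · exact IntermediateField.subset_adjoin F0 _ hw
      exact h5 h4)
  have hψ0 : ∀ w : F0, ψ (w : L) = f w := fun w => AlgHom.congr_fun hψ w
  refine ⟨ψ, fun i => ?_, fun j => ?_, fun j => ?_⟩
  · exact (hψ0 ⟨t i, ht i⟩).trans (hf (Sum.inl i) (ht i))
  · exact (hψ0 ⟨x j, hx j⟩).trans (hf (Sum.inr j) (hx j))
  · rw [← sq_eq_sq_iff_eq_or_eq_neg, ← map_pow, ← hc, ← hfc]
    exact hψ0 (c j)

/-- common denominators -/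
theorem exists_den {σ ι : Type} [Finite ι] (g : σ → M) (e : ι → M)
    (he : ∀ j, e j ∈ IntermediateField.adjoin ℂ (Set.range g)) :
    ∃ (B : MvPolynomial σ ℂ) (P : ι → MvPolynomial σ ℂ), aeval g B ≠ 0 ∧
      ∀ j, aeval g (P j) = aeval g B * e j := by
  classical
  have := Fintype.ofFinite ι
  have h1 : ∀ j, ∃ r s : MvPolynomial σ ℂ, aeval g s ≠ 0 ∧ aeval g r = aeval g s * e j := by
    intro j
    obtain ⟨r, s, hrs⟩ := (IntermediateField.mem_adjoin_range_iff ℂ g (e j)).1 (he j)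
    by_cases h0 : aeval g s = 0
    · refine ⟨0, 1, by rw [map_one]; exact one_ne_zero, ?_⟩
      rw [hrs, h0, div_zero, mul_zero, map_zero]
    · refine ⟨r, s, h0, ?_⟩
      rw [hrs, mul_div_cancel₀ _ h0]
  choose r s hs hr using h1
  refine ⟨∏ j, s j, fun j => r j * ∏ i ∈ Finset.univ.erase j, s i, ?_, fun j => ?_⟩
  · rw [map_prod]
    exact Finset.prod_ne_zero_iff.2 fun j _ => hs j
  · rw [map_mul, hr, map_prod, map_prod, ← Finset.mul_prod_erase Finset.univ _ (Finset.mem_univ j)]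
    ring

end Pool.Agent.Helper6.EE
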