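import Pool.Agent.Helper6.EE.Ind
import Pool.Agent.Helper6.EE.Psi

/-! Dense nested elliptic curves in varieties dominated by products. -/

set_option autoImplicit false

namespace Pool.Agent.Helper6.EE

open Filter Topology MvPolynomial Pool.Agent.Y377.IL Pool.Agent.E8helper4.EL
open scoped LinearAlgebra.Projectivization PeriodPair
open Pool.Agent.TH143.GT (FunField Covered)
open Pool.Agent.W602.GT (IsForm coords exists_embedding)
open Pool.Agent.TH143.EL (HolMap Rep InV inV_iff inV_of_punct mero_id freq_of_ev codis_ev mero_eval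
  rep_rep codis_rep codis_nhds codis_of_ev codis_of_ev')
open Pool.Agent.Y564.IL (t_TAY)

theorem iterExp_der (n : ℕ) (z : ℂ) : ∃ d : ℂ, d ≠ 0 ∧ HasDerivAt (iterExp n) d z := by
  induction n with
  | zero => exact ⟨1, one_ne_zero, hasDerivAt_id z⟩
  | succ n ih =>
    obtain ⟨d, hd, h⟩ := ih
    exact ⟨_, mul_ne_zero (Complex.exp_ne_zero _) hd, h.cexp⟩

theorem iter_not (n : ℕ) (Λ : PeriodPair) : ∀ᶠ z in codiscrete ℂ, iterExp n z ∉ Λ.lattice := by
  apply codis_of_ev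
  intro x
  have hc : ContinuousAt (iterExp n) x := (iterExp_an n x).continuousAt
  obtain ⟨d, hd, h⟩ := iterExp_der n x
  have h0 : ∀ᶠ z in 𝓝 x, iterExp n z ∈ ((Λ.lattice : Set ℂ) \ {iterExp n x})ᶜ :=
    hc.preimage_mem_nhds (Λ.compl_lattice_sdiff_singleton_mem_nhds _)
  have h1 : ∀ᶠ z in 𝓝[≠] x, iterExp n z ∈ ((Λ.lattice : Set ℂ) \ {iterExp n x})ᶜ :=
    h0.filter_mono nhdsWithin_le_nhds
  have h2 : ∀ᶠ z in 𝓝[≠] x, iterExp n z ≠ iterExp n x := h.eventually_ne hd
  filter_upwards [h1, h2] with z h3 h4 h5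
  exact h3 ⟨h5, h4⟩

/-- the functions of the parametrization -/
noncomputable def gF (a : ℕ) {b : ℕ} (Λ : Fin b → PeriodPair) : Fin a ⊕ (Fin b ⊕ Fin b) → ℂ → ℂ :=
  Sum.elim (tF a) (Sum.elim (xF a Λ) (yF a Λ))

theorem gF_mero (a : ℕ) {b : ℕ} (Λ : Fin b → PeriodPair) (s : Fin a ⊕ (Fin b ⊕ Fin b)) :
    Meromorphic (gF a Λ s) := by
  rcases s with i | j | j
  · exact fun x => (iterExp_an i x).meromorphicAt
  · exact fun x => ((Λ j).meromorphic_weierstrassP (iterExp (a + j) x)).comp_analyticAt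
      (iterExp_an _ x)
  · exact fun x => ((Λ j).meromorphic_derivWeierstrassP (iterExp (a + j) x)).comp_analyticAt
      (iterExp_an _ x)

theorem gF_elem (a : ℕ) {b : ℕ} (Λ : Fin b → PeriodPair) {z0 : ℂ}
    (hz : ∀ j : Fin b, iterExp (a + j) z0 ∉ (Λ j).lattice) (s : Fin a ⊕ (Fin b ⊕ Fin b)) :
    ExpEll Basic z0 (gF a Λ s) := by
  have hit : ∀ n, ExpEll Basic z0 (iterExp n) := by
    intro n
    induction n with
    | zero => exact ExpEll.base (Or.inr fun z => rfl)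
    | succ n ih => exact ih.exp
  rcases s with i | j | j
  · exact hit i
  · exact (hit _).wp (Λ j) (hz j)
  · exact (hit _).wp' (Λ j) (hz j)

theorem eval_mero {σ : Type} {h : σ → ℂ → ℂ} (hh : ∀ j, Meromorphic (h j))
    (G : MvPolynomial σ ℂ) : Meromorphic (fun z => eval (fun j => h j z) G) := by
  induction G using MvPolynomial.induction_on with
  | C a =>
    simp only [eval_C]
    exact fun x => analyticAt_const.meromorphicAt
  | add p q hp hq =>
    simp only [map_add]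
    exact fun x => (hp x).add (hq x)
  | mul_X p j hp =>
    simp only [map_mul, eval_X]
    exact fun x => (hp x).mul (hh j x)

theorem eval_expEll {z0 : ℂ} {σ : Type} {h : σ → ℂ → ℂ} (hh : ∀ j, ExpEll Basic z0 (h j))
    (G : MvPolynomial σ ℂ) : ExpEll Basic z0 (fun z => eval (fun j => h j z) G) := by
  induction G using MvPolynomial.induction_on with
  | C a =>
    simp only [eval_C]
    exact ExpEll.base (Or.inl ⟨a, fun _ => rfl⟩)
  | add p q hp hq =>
    simp only [map_add]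
    exact hp.add hq
  | mul_X p j hp =>
    simp only [map_mul, eval_X]
    exact hp.mul (hh j)

variable {N : ℕ}

/-- **Dense curves.** -/
theorem exists_curve {p : Ideal (MvPolynomial (Fin (N + 1)) ℂ)} {K : Type} [Field K]
    [Algebra ℂ K] {w : ℕ} {y : Fin (N + 1) → K} (hy : FunField p 1 K w y) (hU : DomProd K) :
    ∃ f : ℂ → ℙ ℂ (Fin (N + 1) → ℂ), HolMap f ∧ (∀ z, InV p (f z)) ∧ ZariskiDense p f ∧
      NestedElliptic f ∧
      ∃ (a b : ℕ) (Λ : Fin b → PeriodPair)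
        (P : Fin (N + 1) → MvPolynomial (Fin a ⊕ (Fin b ⊕ Fin b)) ℂ),
        ∀ᶠ z in codiscrete ℂ, Rep (f z) fun j => eval (fun s => gF a Λ s z) (P j) := by
  classical
  obtain ⟨a, b, L, _, _, t, x, yy, Λ, h1, h2, h3, ⟨φ⟩⟩ := hU
  -- the base point
  obtain ⟨z0, hz0⟩ : ∃ z0 : ℂ, ∀ j : Fin b, iterExp (a + j) z0 ∉ (Λ j).lattice := by
    have hz : ∀ᶠ z in codiscrete ℂ, ∀ j : Fin b, iterExp (a + j) z ∉ (Λ j).lattice :=
      eventually_all.2 fun j => iter_not _ _
    exact hz.exists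
  have hel := gF_elem a Λ hz0
  have han : ∀ s, AnalyticAt ℂ (gF a Λ s) z0 := fun s => (hel s).an fun f hf => hf.an z0
  let g : Fin a ⊕ (Fin b ⊕ Fin b) → LK := fun s => ty z0 (gF a Λ s)
  have h1' : AlgebraicIndependent ℂ (Sum.elim (fun i : Fin a => ty z0 (tF a i))
      (fun j : Fin b => ty z0 (xF a Λ j))) := tx_indep a Λ hz0
  have h2' : ∀ j : Fin b, ty z0 (yF a Λ j) ^ 2 = 4 * ty z0 (xF a Λ j) ^ 3 -
      algebraMap ℂ LK (Λ j).g₂ * ty z0 (xF a Λ j) - algebraMap ℂ LK (Λ j).g₃ := by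
    intro j
    have hx : AnalyticAt ℂ (xF a Λ j) z0 := han (Sum.inr (Sum.inl j))
    have hy : AnalyticAt ℂ (yF a Λ j) z0 := han (Sum.inr (Sum.inr j))
    let G : MvPolynomial (Fin 2) ℂ :=
      X 1 ^ 2 - (C 4 * X 0 ^ 3 - C (Λ j).g₂ * X 0 - C (Λ j).g₃)
    have hxy : ∀ i : Fin 2, AnalyticAt ℂ ((![xF a Λ j, yF a Λ j] : Fin 2 → ℂ → ℂ) i) z0 := by
      intro i
      fin_cases i
      · exact hx
      · exact hy
    obtain ⟨e1, e2⟩ := ty_eval' hxy G
    have e3 : ty z0 (fun z => eval (fun i => (![xF a Λ j, yF a Λ j] : Fin 2 → ℂ → ℂ) i z) G) = 0 := by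
      rw [ty_zero t_TAY e1]
      filter_upwards [ev_not (iterExp_an (a + j) z0) (hz0 j)] with z hz
      have e4 := (Λ j).derivWeierstrassP_sq _ hz
      simp only [G, map_sub, map_mul, map_pow, eval_C, eval_X, Matrix.cons_val_zero,
        Matrix.cons_val_one, xF, yF]
      linear_combination e4
    rw [e2] at e3
    simp only [G, map_sub, map_mul, map_pow, aeval_C, aeval_X, Matrix.cons_val_zero,
      Matrix.cons_val_one, map_ofNat] at e3
    linear_combination e3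
  obtain ⟨ψ, ψ1, ψ2, ψ3⟩ := exists_psi h1 h2 h3 h1' h2'
  -- the image
  have hmem : ∀ e : L, ψ e ∈ IntermediateField.adjoin ℂ (Set.range g) := by
    intro e
    have e1 : e ∈ IntermediateField.adjoin ℂ (Set.range t ∪ Set.range x ∪ Set.range yy) := by
      rw [h3]; trivial
    have hy0 : ∀ j, ty z0 (yF a Λ j) ∈ IntermediateField.adjoin ℂ (Set.range g) := fun j =>
      IntermediateField.subset_adjoin ℂ _ ⟨Sum.inr (Sum.inr j), rfl⟩
    refine IntermediateField.adjoin_induction ℂ (p := fun e _ =>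
      ψ e ∈ IntermediateField.adjoin ℂ (Set.range g)) ?_ ?_ ?_ ?_ ?_ e1
    · rintro w ((⟨i, rfl⟩ | ⟨j, rfl⟩) | ⟨j, rfl⟩)
      · rw [ψ1]
        exact IntermediateField.subset_adjoin ℂ _ ⟨Sum.inl i, rfl⟩
      · rw [ψ2]
        exact IntermediateField.subset_adjoin ℂ _ ⟨Sum.inr (Sum.inl j), rfl⟩
      · rcases ψ3 j with h | h
        · rw [h]; exact hy0 j
        · rw [h]; exact neg_mem (hy0 j)
    · intro c
      rw [AlgHom.commutes]
      exact IntermediateField.algebraMap_mem _ c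
    · intro u v _ _ hu hv
      rw [map_add]
      exact add_mem hu hv
    · intro u _ hu
      rw [map_inv₀]
      exact inv_mem hu
    · intro u v _ _ hu hv
      rw [map_mul]
      exact mul_mem hu hv
  obtain ⟨l, hl⟩ := Function.ne_iff.1 hy.sub.ne
  have hyl : y l ≠ 0 := hl
  let Ψ : K →ₐ[ℂ] LK := ψ.comp φ
  obtain ⟨B, P, hB, hP⟩ := exists_den g (fun j => Ψ (y j / y l)) (fun j => hmem _)
  have hgev : ∀ G : MvPolynomial (Fin a ⊕ (Fin b ⊕ Fin b)) ℂ,
      AnalyticAt ℂ (fun z => eval (fun s => gF a Λ s z) G) z0 ∧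
        ty z0 (fun z => eval (fun s => gF a Λ s z) G) = aeval g G := fun G => ty_eval' han G
  set h : Fin (N + 1) → ℂ → ℂ := fun j z => eval (fun s => gF a Λ s z) (P j) with hh
  have hhan : ∀ j, AnalyticAt ℂ (h j) z0 := fun j => (hgev (P j)).1
  have hhty : ∀ j, ty z0 (h j) = aeval g B * Ψ (y j / y l) := fun j => by
    rw [← hP j]
    exact (hgev (P j)).2
  have hrel : ∀ G : MvPolynomial (Fin (N + 1)) ℂ, IsForm G →
      ((∀ᶠ z in 𝓝 z0, eval (fun j => h j z) G = 0) ↔ G ∈ p) := by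
    intro G hG
    have e1 : W602.GT.val y G = 0 ↔ G ∈ p := ⟨hy.mem G hG, fun h => hy.sub.mem G h⟩
    obtain ⟨e2, e3⟩ := ty_eval t_TAY hhan G
    rw [← ty_zero t_TAY e2, e3, ← e1]
    simp only [hhty]
    obtain ⟨d, hd⟩ := hG
    have e4 : aeval (fun j => Ψ (y j / y l)) G = Ψ (aeval (fun j => y j / y l) G) :=
      (MvPolynomial.comp_aeval_apply (f := fun j => y j / y l) Ψ G).symm
    have e5 : aeval y G = y l ^ d * aeval (fun j => y j / y l) G := by
      rw [← form_scale hd]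
      congr 2
      funext j
      rw [mul_div_cancel₀ _ hyl]
    unfold W602.GT.val
    rw [form_scale hd, mul_eq_zero, or_iff_right (pow_ne_zero _ hB), e4, map_eq_zero, e5,
      mul_eq_zero, or_iff_right (pow_ne_zero _ hyl)]
  have hhm : ∀ j, Meromorphic (h j) := fun j => eval_mero (gF_mero a Λ) (P j)
  have hhl : ¬ ∀ᶠ z in codiscrete ℂ, h l z = 0 := by
    intro e1
    have e2 : ∀ᶠ z in 𝓝 z0, h l z = 0 := near_zero (hhan l) e1
    have e3 := (ty_zero t_TAY (hhan l)).2 e2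
    rw [hhty, div_self hyl, map_one, mul_one] at e3
    exact hB e3
  obtain ⟨f, hf, hr⟩ := codis_rep hhm ⟨l, hhl⟩
  have hcod : ∀ G : MvPolynomial (Fin (N + 1)) ℂ, IsForm G → (∀ z, eval (f z).rep G = 0) → G ∈ p := by
    intro G hG h0
    rw [← hrel G hG]
    have e1 : ∀ᶠ z in codiscrete ℂ, eval (fun j => h j z) G = 0 := by
      filter_upwards [hr] with u hu
      exact (rep_form hu hG).1 (h0 u)
    exact near_zero (ty_eval t_TAY hhan G).1 e1
  refine ⟨f, hf, fun z G hG hGd => ?_, hcod, ?_, a, b, Λ, P, hr⟩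
  · have e1 : ∀ᶠ u in 𝓝 z0, ∀ᶠ v in 𝓝 u, eval (fun j => h j v) G = 0 :=
      eventually_eventually_nhds.2 ((hrel G hGd).2 hG)
    obtain ⟨z1, e2, e3⟩ := ((e1.filter_mono nhdsWithin_le_nhds).and (codis_ev hr z0)).exists
    have e4 : ∀ᶠ v in 𝓝 z1, Rep (f v) fun j => h j v :=
      codis_nhds (U := {v | Rep (f v) fun j => h j v}) hr e3
    refine form_zero hf hGd (z0 := z1) ?_ z
    filter_upwards [e2, e4] with v h5 h6
    exact (rep_form h6 hGd).2 h5
  · have hz : ∀ᶠ z in codiscrete ℂ, ∀ j : Fin b, iterExp (a + j) z ∉ (Λ j).lattice :=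
      eventually_all.2 fun j => iter_not _ _
    obtain ⟨z1, e1, e2⟩ := (hz.and hr).exists
    exact ⟨z1, h, fun j => IntEll.base (eval_expEll (gF_elem a Λ e1) (P j)),
      codis_nhds (U := {v | Rep (f v) fun j => h j v}) hr e2⟩

end Pool.Agent.Helper6.EE
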