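import Pool.Agent.Helper6.EE.Tw2

/-! Galois descent: an algebraic point with logarithmic derivative in the base has a multiple
in the base. -/

set_option autoImplicit false

open Polynomial IntermediateField

namespace Pool.Agent.Helper6.EE

variable {C : Type} [Field C]

section const
open Differential

/-- constants of an algebraic extension are algebraic over constants -/
theorem const_alg {M N : Type} [Field M] [Field N] [CharZero M] [Algebra C M] [Algebra M N]
    [Algebra C N] [IsScalarTower C M N] [Differential M] [Differential N] [DifferentialAlgebra M N]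
    [IsAlgClosed C] (hc : ∀ x : M, x′ = 0 → ∃ c : C, algebraMap C M c = x) {z : N}
    (hz : IsIntegral M z) (h0 : z′ = 0) : ∃ c : C, algebraMap C N c = z := by
  set p := minpoly M z with hp
  have hmon : p.Monic := minpoly.monic hz
  have h1 : aeval z (mapCoeffs p) = 0 := by
    have h2 := deriv_aeval_eq z p
    rw [minpoly.aeval, h0, mul_zero, add_zero, map_zero] at h2
    exact h2.symm
  have h3 : mapCoeffs p = 0 := by
    by_contra hne
    have h4 := minpoly.degree_le_of_ne_zero M z hne h1
    have h5 : (mapCoeffs p).degree < p.degree := by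
      rw [degree_eq_natDegree hmon.ne_zero]
      rw [degree_lt_iff_coeff_zero]
      intro m hm
      rw [coeff_mapCoeffs]
      rcases hm.lt_or_eq with h | h
      · rw [coeff_eq_zero_of_natDegree_lt h]; simp
      · rw [← h, coeff_natDegree, hmon.leadingCoeff]; simp
    exact absurd h4 (not_le.2 h5)
  have h6 : ∀ i, ∃ c : C, algebraMap C M c = p.coeff i := by
    intro i
    apply hc
    rw [← coeff_mapCoeffs, h3, coeff_zero]
  choose f hf using h6
  let q : C[X] := ∑ i ∈ Finset.range (p.natDegree + 1), monomial i (f i)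
  have hq : q.map (algebraMap C M) = p := by
    simp only [q, Polynomial.map_sum, map_monomial, hf]
    exact (p.as_sum_range' _ (Nat.lt_succ_self _)).symm
  have hq0 : q ≠ 0 := by
    intro h
    rw [h, Polynomial.map_zero] at hq
    exact hmon.ne_zero hq.symm
  have hqz : aeval z q = 0 := by
    have : aeval z (q.map (algebraMap C M)) = 0 := by rw [hq]; exact minpoly.aeval _ _
    rwa [aeval_map_algebraMap] at this
  have halg : IsAlgebraic C z := ⟨q, hq0, hqz⟩
  have := minpoly.mem_range_of_degree_eq_one C z
    (IsAlgClosed.degree_eq_one_of_irreducible C (minpoly.irreducible halg.isIntegral))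
  exact this

/-- Galois descent for points -/
theorem descent_aux [IsAlgClosed C] [CharZero C] (τ : AGp C) {M E : Type} [Field M] [Field E]
    [Algebra C M] [Algebra C E] [Algebra M E] [IsScalarTower C M E] [FiniteDimensional M E]
    (DM : Derivation C M M) (DE : Derivation C E E)
    (hcomp : ∀ x : M, DE (algebraMap M E x) = algebraMap M E (DM x))
    (hc : ∀ x : M, DM x = 0 → ∃ c : C, algebraMap C M c = x) (P : τ.G E) (l : M)
    (hl : τ.lam DE P = algebraMap M E l) :
    ∃ n : ℕ, 0 < n ∧ ∀ x ∈ τ.coord ((n : ℤ) • P), ∃ y : M, algebraMap M E y = x := by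
  have hM := cz (C := C) M
  have hE := cz (C := C) E
  let N := IntermediateField.normalClosure M E (AlgebraicClosure E)
  let ι : E →ₐ[M] N := IsScalarTower.toAlgHom M E N
  have hN : Normal M N := inferInstance
  have hfin : FiniteDimensional M N := inferInstance
  have hgal : IsGalois M N := { __ := hN }
  have htow : IsScalarTower C M N := inferInstance
  let dM : Differential M := ⟨DM.restrictScalars ℤ⟩
  let dE : Differential E := ⟨DE.restrictScalars ℤ⟩
  have hdE : DifferentialAlgebra M E := ⟨fun a => hcomp a⟩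
  let dN : Differential N := differentialFiniteDimensional M N
  have hdN : DifferentialAlgebra M N := differentialAlgebraFiniteDimensional
  let DN : Derivation C N N := Derivation.mk'
    { toFun := fun x => Differential.deriv x
      map_add' := fun x y => map_add _ x y
      map_smul' := fun c x => by
        have h1 : (algebraMap C N c)′ = 0 := by
          rw [IsScalarTower.algebraMap_apply C M N, deriv_algebraMap]
          have : (algebraMap C M c)′ = 0 := DM.map_algebraMap c
          rw [this, map_zero]
        rw [Algebra.smul_def, Derivation.leibniz, h1, smul_zero, add_zero, smul_eq_mul,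
          RingHom.id_apply, Algebra.smul_def] }
    (fun x y => Differential.deriv.leibniz x y)
  have hDN : ∀ x : N, DN x = x′ := fun x => rfl
  let ι' : E →ₐ[C] N := ι.restrictScalars C
  set PN := τ.map ι' P with hPN
  have hι : ∀ x : E, DN (ι' x) = ι' (DE x) := by
    intro x
    have h1 : IsSeparable M x := by
      have : Algebra.IsSeparable M E := inferInstance
      exact this.isSeparable' x
    exact (algHom_deriv ι ι.injective x h1).symm
  have hlN : τ.lam DN PN = algebraMap M N l := by
    rw [hPN, τ.lam_nat ι' DE DN P (fun x _ => hι x), hl]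
    exact ι.commutes l
  let s : (N ≃ₐ[M] N) → (N →ₐ[C] N) := fun σ => (σ : N →ₐ[M] N).restrictScalars C
  have hσ : ∀ (σ : N ≃ₐ[M] N) (x : N), DN (s σ x) = s σ (DN x) := by
    intro σ x
    exact (algEquiv_deriv' σ x).symm
  have hconst : ∀ σ : N ≃ₐ[M] N, ∀ x ∈ τ.coord (τ.map (s σ) PN - PN),
      ∃ c : C, algebraMap C N c = x := by
    intro σ x hx
    have h1 : τ.lam DN (τ.map (s σ) PN - PN) = 0 := by
      rw [map_sub, τ.lam_nat (s σ) DN DN PN (fun x _ => hσ σ x), hlN]
      have : s σ (algebraMap M N l) = algebraMap M N l := σ.commutes l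
      rw [this, sub_self]
    have h2 := τ.const_of_lam DN _ h1 x hx
    exact const_alg (M := M) hc (Algebra.IsIntegral.isIntegral x) h2
  -- the trace
  set T := ∑ σ : N ≃ₐ[M] N, τ.map (s σ) PN with hT
  have hTr : ∀ x ∈ τ.coord T, ∃ y : M, algebraMap M N y = x := by
    intro x hx
    apply (IsGalois.mem_range_algebraMap_iff_fixed x).2
    intro ρ
    have h1 : τ.map (s ρ) T = T := by
      rw [hT, map_sum]
      have h2 : ∀ σ : N ≃ₐ[M] N, τ.map (s ρ) (τ.map (s σ) PN) = τ.map (s (ρ * σ)) PN := by
        intro σ
        rw [τ.map_map]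
        rfl
      simp only [h2]
      exact Fintype.sum_equiv (Equiv.mulLeft ρ) _ _ (fun σ => rfl)
    have h3 := congrArg τ.coord h1
    rw [τ.coord_map] at h3
    have h4 : ∀ (l : List N), l.map (s ρ) = l → ∀ z ∈ l, s ρ z = z := by
      intro l
      induction l with
      | nil => intro _ z hz; simp at hz
      | cons a l ih =>
        intro h z hz
        rw [List.map_cons, List.cons.injEq] at h
        rw [List.mem_cons] at hz
        rcases hz with rfl | hz
        · exact h.1
        · exact ih h.2 z hz
    exact h4 _ h3 x hx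
  let F : IntermediateField C N := (IsScalarTower.toAlgHom C M N).fieldRange
  have hF : ∀ x, x ∈ F ↔ ∃ y : M, algebraMap M N y = x := fun x => Iff.rfl
  have hTF : τ.Rat F T := fun x hx => (hF x).2 (hTr x hx)
  have hcF : ∀ σ : N ≃ₐ[M] N, τ.Rat F (τ.map (s σ) PN - PN) := by
    intro σ x hx
    obtain ⟨c, rfl⟩ := hconst σ x hx
    exact F.algebraMap_mem c
  have hsum : ∀ S : Finset (N ≃ₐ[M] N), τ.Rat F (∑ σ ∈ S, (τ.map (s σ) PN - PN)) := by
    classical
    intro S
    induction S using Finset.induction_on with
    | empty => rw [Finset.sum_empty]; exact AGp.Rat.zero τ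
    | insert a S ha ih => rw [Finset.sum_insert ha]; exact (hcF a).add ih
  let n := Fintype.card (N ≃ₐ[M] N)
  have hn : 0 < n := Fintype.card_pos
  have hnP : (n : ℤ) • PN = T - ∑ σ : N ≃ₐ[M] N, (τ.map (s σ) PN - PN) := by
    rw [Finset.sum_sub_distrib, ← hT]
    simp [n]
  have hnF : τ.Rat F ((n : ℤ) • PN) := by
    rw [hnP]
    exact hTF.sub (hsum _)
  refine ⟨n, hn, fun x hx => ?_⟩
  have h5 : ι' x ∈ F := by
    apply hnF
    rw [hPN, ← map_zsmul, τ.coord_map, List.mem_map]
    exact ⟨x, hx, rfl⟩
  obtain ⟨y, hy⟩ := (hF _).1 h5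
  exact ⟨y, ι.injective ((ι.commutes y).trans hy)⟩

end const

variable {L : Type} [Field L] [Algebra C L]

/-- `adj M P` is generated by the coordinates over `M` -/
theorem adj_htop (τ : AGp C) {M : IntermediateField C L} {P : τ.G L} (Q : τ.G (τ.adj M P))
    (hQ : τ.map (τ.adj M P).val Q = P) :
    letI : Algebra M (τ.adj M P) := (IntermediateField.inclusion (τ.le_adj M P)).toRingHom.toAlgebra
    IntermediateField.adjoin M {x : τ.adj M P | x ∈ τ.coord Q} = ⊤ := by
  let _ : Algebra M (τ.adj M P) := (IntermediateField.inclusion (τ.le_adj M P)).toRingHom.toAlgebra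
  have _ : IsScalarTower C M (τ.adj M P) := IsScalarTower.of_algebraMap_eq fun x => rfl
  rw [eq_top_iff]
  intro x _
  refine adj_top τ (P := P)
    ((IntermediateField.adjoin M {x : τ.adj M P | x ∈ τ.coord Q}).restrictScalars C) ?_ ?_ x
  · intro y hy
    rw [IntermediateField.mem_restrictScalars]
    exact (IntermediateField.adjoin M {x : τ.adj M P | x ∈ τ.coord Q}).algebraMap_mem ⟨y, hy⟩
  · intro Q' hQ' y hy
    rw [IntermediateField.mem_restrictScalars]
    obtain rfl : Q' = Q := τ.map_inj _ (hQ'.trans hQ.symm)
    have hy' : y ∈ {x : τ.adj M P | x ∈ τ.coord Q'} := hy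
    exact IntermediateField.subset_adjoin M _ hy'

/-- Galois descent in `L` -/
theorem descent [IsAlgClosed C] [CharZero C] {τ : AGp C} (hτ : Nice τ) {D : Derivation C L L}
    (hD : ∀ x, D x = 0 → ∃ c : C, algebraMap C L c = x) {M : IntermediateField C L}
    (hM : Stab D M) {P : τ.G L} (hP : ¬ τ.Gen M P) (hl : τ.lam D P ∈ M) :
    ∃ n : ℕ, 0 < n ∧ τ.Rat M ((n : ℤ) • P) := by
  let _ : Algebra M (τ.adj M P) := (IntermediateField.inclusion (τ.le_adj M P)).toRingHom.toAlgebra
  have _ : IsScalarTower C M (τ.adj M P) := IsScalarTower.of_algebraMap_eq fun x => rfl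
  have _ : IsScalarTower M (τ.adj M P) L := IsScalarTower.of_algebraMap_eq fun x => rfl
  obtain ⟨Q, hQ⟩ := (τ.rat_iff _ _).1 (τ.rat_adj M P)
  have htop := adj_htop τ Q hQ
  have hst : Stab D (τ.adj M P) := stab_adj hτ hM (τ.le_adj M P hl)
  have hfin : FiniteDimensional M (τ.adj M P) := by
    classical
    have h1 : {x : τ.adj M P | x ∈ τ.coord Q} = ((τ.coord Q).toFinset : Set (τ.adj M P)) := by
      ext x; simp
    have h2 : FiniteDimensional M (IntermediateField.adjoin M
        {x : τ.adj M P | x ∈ τ.coord Q}) := by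
      rw [h1]
      apply IntermediateField.finiteDimensional_adjoin
      intro x hx
      rw [Finset.mem_coe, List.mem_toFinset] at hx
      have h3 : IsAlgebraic M (x : L) := by
        by_contra hc
        apply hP
        refine ⟨x, ?_, hc⟩
        rw [← congrArg τ.coord hQ, τ.coord_map, List.mem_map]
        exact ⟨x, hx, rfl⟩
      have h4 : IsAlgebraic M x :=
        (isAlgebraic_algebraMap_iff (A := L) (algebraMap (τ.adj M P) L).injective).1 h3
      exact h4.isIntegral
    rw [htop] at h2
    exact IntermediateField.topEquiv.toLinearEquiv.finiteDimensional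
  have h5 : τ.lam (rs D _ hst) Q = algebraMap M (τ.adj M P) ⟨τ.lam D P, hl⟩ := by
    have := lam_rs τ D _ hst Q
    rw [hQ] at this
    exact Subtype.ext this.symm
  obtain ⟨n, hn, h⟩ := descent_aux τ (rs D M hM) (rs D _ hst) (fun x => rfl) (by
    intro x hx
    obtain ⟨c, hc⟩ := hD x (congrArg Subtype.val hx)
    exact ⟨c, Subtype.ext hc⟩) Q ⟨τ.lam D P, hl⟩ h5
  refine ⟨n, hn, fun x hx => ?_⟩
  rw [← hQ, ← map_zsmul, τ.coord_map, List.mem_map] at hx
  obtain ⟨y, hy, rfl⟩ := hx
  obtain ⟨z, hz⟩ := h y hy
  rw [← hz]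
  exact z.2

end Pool.Agent.Helper6.EE
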