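import Pool.Agent.Helper6.EE.Set

/-! Fields of germs as function fields of products of projective spaces and elliptic curves. -/

set_option autoImplicit false

open WeierstrassCurve Filter Topology
open scoped PeriodPair

namespace Pool.Agent.Helper6.EE

open Pool.Agent.Y377.IL Pool.Agent.E8helper4.EL
open Pool.Agent.Y564.IL (t_TAY)

/-- The variety with the function field `K` is dominated by a product of the projective space of
dimension `a` and of `b` elliptic curves: `K` embeds in a field `L` which is generated by
algebraically independent elements `t i`, `x j` and by elements `y j` with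
`(y j) ^ 2 = 4 (x j) ^ 3 - g₂ (x j) - g₃`, the equation of the elliptic curve `ℂ / Λ j`. So `L` is
the function field of the product of the projective space of dimension `a` and of the elliptic
curves `ℂ / Λ j`. -/
def DomBy (a b : ℕ) (K : Type) [Field K] [Algebra ℂ K] : Prop :=
  ∃ (L : Type) (_ : Field L) (_ : Algebra ℂ L) (t : Fin a → L) (x y : Fin b → L)
    (Λ : Fin b → PeriodPair), AlgebraicIndependent ℂ (Sum.elim t x) ∧
    (∀ j, y j ^ 2 = 4 * x j ^ 3 - algebraMap ℂ L (Λ j).g₂ * x j - algebraMap ℂ L (Λ j).g₃) ∧
    IntermediateField.adjoin ℂ (Set.range t ∪ Set.range x ∪ Set.range y) = ⊤ ∧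
    Nonempty (K →ₐ[ℂ] L)

/-- The variety with the function field `K` is dominated by a product of a projective space and
elliptic curves. -/
def DomProd (K : Type) [Field K] [Algebra ℂ K] : Prop := ∃ a b : ℕ, DomBy a b K

/-- presentations of a subfield -/
def HasPres {L : Type} [Field L] [Algebra ℂ L] (F : IntermediateField ℂ L) : Prop :=
  ∃ (ι κ : Type) (_ : Finite ι) (_ : Finite κ) (t : ι → L) (x y : κ → L) (Λ : κ → PeriodPair),
    AlgebraicIndependent ℂ (Sum.elim t x) ∧
    (∀ j, y j ^ 2 = 4 * x j ^ 3 - algebraMap ℂ L (Λ j).g₂ * x j - algebraMap ℂ L (Λ j).g₃) ∧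
    F = IntermediateField.adjoin ℂ (Set.range t ∪ Set.range x ∪ Set.range y)

section
variable {L : Type} [Field L] [Algebra ℂ L]

/-- the two forms of a disjoint union with one more element -/
def e1 (ι κ : Type) : Option (ι ⊕ κ) ≃ Option ι ⊕ κ where
  toFun o := o.elim (Sum.inl none) (Sum.elim (fun i => Sum.inl (some i)) Sum.inr)
  invFun := Sum.elim (fun o => o.elim none fun i => some (Sum.inl i)) fun j => some (Sum.inr j)
  left_inv := by rintro (_ | _ | _) <;> rfl
  right_inv := by rintro ((_ | _) | _) <;> rfl

def e2 (ι κ : Type) : Option (ι ⊕ κ) ≃ ι ⊕ Option κ where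
  toFun o := o.elim (Sum.inr none) (Sum.elim Sum.inl fun j => Sum.inr (some j))
  invFun := Sum.elim (fun i => some (Sum.inl i)) fun o => o.elim none fun j => some (Sum.inr j)
  left_inv := by rintro (_ | _ | _) <;> rfl
  right_inv := by rintro (_ | (_ | _)) <;> rfl

theorem indep_option {σ : Type} {s : σ → L} (hs : AlgebraicIndependent ℂ s)
    {F : IntermediateField ℂ L} (hF : ∀ i, s i ∈ F) {p : L} (hp : Transcendental F p) :
    AlgebraicIndependent ℂ (fun o : Option σ => o.elim p s) := by
  rw [hs.option_iff_transcendental]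
  have hle : Algebra.adjoin ℂ (Set.range s) ≤ F.toSubalgebra := by
    rw [Algebra.adjoin_le_iff]
    rintro _ ⟨i, rfl⟩
    exact hF i
  rintro ⟨q, hq, hqp⟩
  apply hp
  refine ⟨q.map (Subalgebra.inclusion hle : _ →+* F.toSubalgebra), ?_, ?_⟩
  · exact (Polynomial.map_ne_zero_iff (Subalgebra.inclusion_injective hle)).2 hq
  · rw [Polynomial.aeval_def, Polynomial.eval₂_map]
    exact hqp

theorem Good.pres {F : IntermediateField ℂ L} (h : Good EL F) : HasPres F := by
  induction h with
  | bot =>
    refine ⟨Empty, Empty, inferInstance, inferInstance, Empty.elim, Empty.elim, Empty.elim,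
      Empty.elim, ?_, fun j => j.elim, ?_⟩
    · have : IsEmpty (Empty ⊕ Empty) := inferInstance
      exact algebraicIndependent_empty_type_iff.2 (algebraMap ℂ L).injective
    · simp only [Set.range_eq_empty, Set.union_empty, IntermediateField.adjoin_empty]
  | @step F τ P h hτ hP ih =>
    obtain ⟨ι, κ, i1, i2, t, x, y, Λ, h1, h2, h3⟩ := ih
    have hgen : ∀ z ∈ Set.range t ∪ Set.range x ∪ Set.range y, z ∈ F := by
      intro z hz
      rw [h3]
      exact IntermediateField.subset_adjoin ℂ _ hz
    have hs : ∀ i, (Sum.elim t x) i ∈ F := by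
      rintro (i | j)
      · exact hgen _ (Or.inl (Or.inl ⟨i, rfl⟩))
      · exact hgen _ (Or.inl (Or.inr ⟨j, rfl⟩))
    have hone : ∀ p : L, Transcendental F p → τ.adj F P =
        IntermediateField.adjoin ℂ ((F : Set L) ∪ {p}) → HasPres (τ.adj F P) := by
      intro p hp hadj
      refine ⟨Option ι, κ, inferInstance, i2, fun o => o.elim p t, x, y, Λ, ?_, h2, ?_⟩
      · have h4 := indep_option h1 hs hp
        refine (algebraicIndependent_equiv' (e1 ι κ) ?_).1 h4
        funext o
        rcases o with _ | (_ | _) <;> rfl
      · rw [hadj, h3]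
        apply le_antisymm
        · rw [IntermediateField.adjoin_le_iff]
          rintro z (hz | hz)
          · have h5 : IntermediateField.adjoin ℂ (Set.range t ∪ Set.range x ∪ Set.range y) ≤
                IntermediateField.adjoin ℂ (Set.range (fun o : Option ι => o.elim p t) ∪
                  Set.range x ∪ Set.range y) := by
              apply IntermediateField.adjoin.mono
              rintro w ((⟨i, rfl⟩ | hw) | hw)
              · exact Or.inl (Or.inl ⟨some i, rfl⟩)
              · exact Or.inl (Or.inr hw)
              · exact Or.inr hw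
            exact h5 hz
          · rw [Set.mem_singleton_iff] at hz
            rw [hz]
            exact IntermediateField.subset_adjoin ℂ _ (Or.inl (Or.inl ⟨none, rfl⟩))
        · rw [IntermediateField.adjoin_le_iff]
          rintro w ((⟨_ | i, rfl⟩ | hw) | hw)
          · exact IntermediateField.subset_adjoin ℂ _ (Or.inr rfl)
          · exact IntermediateField.subset_adjoin ℂ _ (Or.inl
              (IntermediateField.subset_adjoin ℂ _ (Or.inl (Or.inl ⟨i, rfl⟩))))
          · exact IntermediateField.subset_adjoin ℂ _ (Or.inl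
              (IntermediateField.subset_adjoin ℂ _ (Or.inl (Or.inr hw))))
          · exact IntermediateField.subset_adjoin ℂ _ (Or.inl
              (IntermediateField.subset_adjoin ℂ _ (Or.inr hw)))
    have hell : AE EL τ → HasPres (τ.adj F P) := by
      rintro ⟨_, _, ⟨Λ', rfl, rfl⟩, hd, rfl⟩
      obtain ⟨x', y', hc, hx', -, ⟨hns, -⟩, -⟩ := gen_ell hP
      have heq := ((WK_nonsingular _ _ x' y').1 hns).1
      have hF2 : (Ell (aL Λ') (bL Λ')).adj F P =
          IntermediateField.adjoin ℂ ((F : Set L) ∪ {x', y'}) := by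
        rw [adj_eq, hc]
        congr 2
        ext w
        simp
      have h2F : ∀ G : IntermediateField ℂ L, (2 : L) ∈ G := fun G => by
        have := G.algebraMap_mem 2
        rwa [map_ofNat] at this
      refine ⟨ι, Option κ, i1, inferInstance, t, fun o => o.elim x' x,
        fun o => o.elim (2 * y') y, fun o => o.elim Λ' Λ, ?_, ?_, ?_⟩
      · have h4 := indep_option h1 hs hx'
        refine (algebraicIndependent_equiv' (e2 ι κ) ?_).1 h4
        funext o
        rcases o with _ | (_ | _) <;> rfl
      · rintro (_ | j)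
        · change (2 * y') ^ 2 = 4 * x' ^ 3 - algebraMap ℂ L Λ'.g₂ * x' - algebraMap ℂ L Λ'.g₃
          have ha : algebraMap ℂ L (aL Λ') = - algebraMap ℂ L Λ'.g₂ / 4 := by
            unfold aL
            rw [map_div₀, map_neg, map_ofNat]
          have hb : algebraMap ℂ L (bL Λ') = - algebraMap ℂ L Λ'.g₃ / 4 := by
            unfold bL
            rw [map_div₀, map_neg, map_ofNat]
          have hchar := cz (C := ℂ) L
          rw [ha, hb] at heq
          linear_combination 4 * heq
        · exact h2 j
      · rw [hF2]
        apply le_antisymm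
        · rw [IntermediateField.adjoin_le_iff]
          rintro z (hz | hz)
          · have h5 : IntermediateField.adjoin ℂ (Set.range t ∪ Set.range x ∪ Set.range y) ≤
                IntermediateField.adjoin ℂ (Set.range t ∪
                  Set.range (fun o : Option κ => o.elim x' x) ∪
                  Set.range (fun o : Option κ => o.elim (2 * y') y)) := by
              apply IntermediateField.adjoin.mono
              rintro w ((hw | ⟨i, rfl⟩) | ⟨i, rfl⟩)
              · exact Or.inl (Or.inl hw)
              · exact Or.inl (Or.inr ⟨some i, rfl⟩)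
              · exact Or.inr ⟨some i, rfl⟩
            rw [SetLike.mem_coe, h3] at hz
            exact h5 hz
          · rcases hz with rfl | hz
            · exact IntermediateField.subset_adjoin ℂ _ (Or.inl (Or.inr ⟨none, rfl⟩))
            · rw [Set.mem_singleton_iff] at hz
              rw [hz]
              have hchar := cz (C := ℂ) L
              have h7 : 2 * y' ∈ IntermediateField.adjoin ℂ (Set.range t ∪
                  Set.range (fun o : Option κ => o.elim x' x) ∪
                  Set.range (fun o : Option κ => o.elim (2 * y') y)) :=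
                IntermediateField.subset_adjoin ℂ _ (Or.inr ⟨none, rfl⟩)
              have h8 := div_mem h7 (h2F _)
              rwa [mul_div_cancel_left₀ _ two_ne_zero] at h8
        · rw [IntermediateField.adjoin_le_iff]
          rintro w ((hw | ⟨_ | i, rfl⟩) | ⟨_ | i, rfl⟩)
          · exact IntermediateField.subset_adjoin ℂ _ (Or.inl (hgen _ (Or.inl (Or.inl hw))))
          · exact IntermediateField.subset_adjoin ℂ _ (Or.inr (Or.inl rfl))
          · exact IntermediateField.subset_adjoin ℂ _ (Or.inl
              (hgen _ (Or.inl (Or.inr ⟨i, rfl⟩))))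
          · exact mul_mem (h2F _) (IntermediateField.subset_adjoin ℂ _ (Or.inr (Or.inr rfl)))
          · exact IntermediateField.subset_adjoin ℂ _ (Or.inl (hgen _ (Or.inr ⟨i, rfl⟩)))
    rcases hτ with (rfl | hτ) | (rfl | hτ)
    · obtain ⟨p, hp, hpt⟩ := hP
      have hp' : p = ((Additive.toMul P : Lˣ) : L) := List.mem_singleton.1 hp
      refine hone p hpt ?_
      rw [adj_eq]
      congr 2
      ext w
      rw [hp', Set.mem_singleton_iff]
      exact List.mem_singleton
    · exact hell hτ
    · obtain ⟨p, hp, hpt⟩ := hP
      have hp' : p = (P : L) := List.mem_singleton.1 hp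
      refine hone p hpt ?_
      rw [adj_eq]
      congr 2
      ext w
      rw [hp', Set.mem_singleton_iff]
      exact List.mem_singleton
    · exact hell hτ

end

/-- from arbitrary finite index types to `Fin` -/
theorem HasPres.dom {L : Type} [Field L] [Algebra ℂ L] {F : IntermediateField ℂ L}
    (h : HasPres F) {K : Type} [Field K] [Algebra ℂ K] (φ : K →ₐ[ℂ] F) : DomProd K := by
  obtain ⟨ι, κ, i1, i2, t, x, y, Λ, h1, h2, h3⟩ := h
  have hgen : ∀ z ∈ Set.range t ∪ Set.range x ∪ Set.range y, z ∈ F := by
    intro z hz
    rw [h3]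
    exact IntermediateField.subset_adjoin ℂ _ hz
  have ht : ∀ i, t i ∈ F := fun i => hgen _ (Or.inl (Or.inl ⟨i, rfl⟩))
  have hx : ∀ i, x i ∈ F := fun i => hgen _ (Or.inl (Or.inr ⟨i, rfl⟩))
  have hy : ∀ i, y i ∈ F := fun i => hgen _ (Or.inr ⟨i, rfl⟩)
  obtain ⟨a, ⟨ea⟩⟩ := Finite.exists_equiv_fin ι
  obtain ⟨b, ⟨eb⟩⟩ := Finite.exists_equiv_fin κ
  refine ⟨a, b, F, inferInstance, inferInstance, fun i => ⟨t (ea.symm i), ht _⟩,
    fun i => ⟨x (eb.symm i), hx _⟩, fun i => ⟨y (eb.symm i), hy _⟩, fun i => Λ (eb.symm i),
    ?_, ?_, ?_, ⟨φ⟩⟩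
  · have h4 : AlgebraicIndependent ℂ (fun s : Fin a ⊕ Fin b =>
        (Sum.elim t x) (Sum.map ea.symm eb.symm s)) :=
      h1.comp _ (Function.Injective.sumMap ea.symm.injective eb.symm.injective)
    apply AlgebraicIndependent.of_comp F.val
    convert h4 using 1
    funext s
    rcases s with s | s <;> rfl
  · intro j
    apply Subtype.ext
    exact h2 (eb.symm j)
  · apply IntermediateField.map_injective F.val
    rw [IntermediateField.adjoin_map, Set.image_union, Set.image_union, ← Set.range_comp,
      ← Set.range_comp, ← Set.range_comp]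
    have h5 : Set.range (F.val ∘ fun i => (⟨t (ea.symm i), ht _⟩ : F)) = Set.range t := by
      ext z
      constructor
      · rintro ⟨i, rfl⟩; exact ⟨_, rfl⟩
      · rintro ⟨i, rfl⟩; exact ⟨ea i, congrArg t (ea.symm_apply_apply i)⟩
    have h6 : Set.range (F.val ∘ fun i => (⟨x (eb.symm i), hx _⟩ : F)) = Set.range x := by
      ext z
      constructor
      · rintro ⟨i, rfl⟩; exact ⟨_, rfl⟩
      · rintro ⟨i, rfl⟩; exact ⟨eb i, congrArg x (eb.symm_apply_apply i)⟩
    have h7 : Set.range (F.val ∘ fun i => (⟨y (eb.symm i), hy _⟩ : F)) = Set.range y := by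
      ext z
      constructor
      · rintro ⟨i, rfl⟩; exact ⟨_, rfl⟩
      · rintro ⟨i, rfl⟩; exact ⟨eb i, congrArg y (eb.symm_apply_apply i)⟩
    rw [h5, h6, h7, ← h3]
    ext z
    constructor
    · intro hz
      exact ⟨⟨z, hz⟩, trivial, rfl⟩
    · rintro ⟨w, -, rfl⟩
      exact w.2

end Pool.Agent.Helper6.EE
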