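import Pool.Agent.Helper6.EE.Dom
import Pool.Graph.R_pool_sql_team_seeded_b677cdb8.E8helper4.EL.Cov

/-! Nested elliptic entire curves: the variety is dominated by a product of elliptic curves and a
projective space. -/

set_option autoImplicit false

namespace Pool.Agent.Helper6.EE

open Filter Topology MvPolynomial Pool.Agent.Y377.IL Pool.Agent.E8helper4.EL
open scoped LinearAlgebra.Projectivization PeriodPair
open Pool.Agent.TH143.GT (FunField Covered)
open Pool.Agent.W602.GT (IsForm coords exists_embedding)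
open Pool.Agent.TH143.EL (HolMap Rep InV inV_iff inV_of_punct mero_id freq_of_ev codis_ev mero_eval
  rep_rep codis_rep codis_nhds)
open Pool.Agent.Y564.IL (t_TAY)

variable {N : ℕ}

/-- Nested elliptic maps: near some point `z0`, the map `f` is given by homogeneous coordinates
which are built from the constants and `z` by addition, multiplication, division, exponentials and
Weierstrass functions of arbitrary lattices, or which are built from such functions by addition,
multiplication, division, integration and Weierstrass functions of arbitrary lattices. -/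
def NestedElliptic (f : ℂ → ℙ ℂ (Fin (N + 1) → ℂ)) : Prop :=
  ∃ (z0 : ℂ) (h : Fin (N + 1) → ℂ → ℂ), (∀ j, IntEll (ExpEll Basic z0) z0 (h j)) ∧
    ∀ᶠ z in 𝓝 z0, Rep (f z) fun j => h j z

/-- the function field of the closure of a curve -/
theorem emb_of_germ {p : Ideal (MvPolynomial (Fin (N + 1)) ℂ)} {K : Type} [Field K]
    [Algebra ℂ K] {w : ℕ} {y : Fin (N + 1) → K} (hy : FunField p 1 K w y) {z0 : ℂ}
    {h : Fin (N + 1) → ℂ → ℂ} (han : ∀ j, AnalyticAt ℂ (h j) z0)
    (hne : ∃ j, ¬ ∀ᶠ z in 𝓝 z0, h j z = 0)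
    (hd : ∀ G : MvPolynomial (Fin (N + 1)) ℂ, IsForm G →
      (G ∈ p ↔ ∀ᶠ z in 𝓝 z0, eval (fun j => h j z) G = 0)) {F : IntermediateField ℂ LK}
    (hF : ∀ j, ty z0 (h j) ∈ F) : Nonempty (K →ₐ[ℂ] F) := by
  obtain ⟨l, hl⟩ := hne
  have hval : ∀ G : MvPolynomial (Fin (N + 1)) ℂ, aeval (fun j => ty z0 (h j)) G = 0 ↔
      ∀ᶠ z in 𝓝 z0, eval (fun j => h j z) G = 0 := by
    intro G
    obtain ⟨h3, h4⟩ := ty_eval t_TAY han G
    rw [← h4, ty_zero t_TAY h3]
  let v : Fin (N + 1) → F := fun j => ⟨ty z0 (h j), hF j⟩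
  have h5 : ∀ G : MvPolynomial (Fin (N + 1)) ℂ,
      aeval (fun j => ty z0 (h j)) G = ((aeval v G : F) : LK) := fun G =>
    (MvPolynomial.comp_aeval_apply (f := v) F.val G).symm
  have hrel : ∀ G : MvPolynomial (Fin (N + 1)) ℂ, IsForm G →
      (W602.GT.val y G = 0 ↔ W602.GT.val v G = 0) := by
    intro G hG
    have h1 : W602.GT.val y G = 0 ↔ G ∈ p := ⟨hy.mem G hG, fun h => hy.sub.mem G h⟩
    rw [h1, hd G hG, ← hval, h5]
    unfold W602.GT.val
    exact ⟨fun h => Subtype.ext h, fun h => by rw [h]; rfl⟩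
  have hl' : v l ≠ 0 := by
    intro h0
    have h1 := congrArg Subtype.val h0
    exact hl ((ty_zero t_TAY (han l)).1 h1)
  have hyl : y l ≠ 0 := by
    intro h0
    apply hl'
    have h1 : W602.GT.val y (X l : MvPolynomial (Fin (N + 1)) ℂ) = 0 := by
      unfold W602.GT.val
      rw [aeval_X, h0]
    rw [hrel _ ⟨1, isHomogeneous_X _ _⟩] at h1
    unfold W602.GT.val at h1
    rwa [aeval_X] at h1
  obtain ⟨ψ, -⟩ := exists_embedding (k := ℂ) (y := y) (i0 := l) (y' := v) hyl hl' hy.sub.gen hrel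
  exact ⟨ψ⟩

/-- the function field of the closure of a nested elliptic curve lies in a good field -/
theorem good_of_curve {p : Ideal (MvPolynomial (Fin (N + 1)) ℂ)} {K : Type} [Field K]
    [Algebra ℂ K] {w : ℕ} {y : Fin (N + 1) → K} (hy : FunField p 1 K w y)
    {f : ℂ → ℙ ℂ (Fin (N + 1) → ℂ)} (hf : HolMap f) (hX : ∀ z, InV p (f z))
    (hd : ZariskiDense p f) (hel : NestedElliptic f) :
    ∃ F : IntermediateField ℂ LK, Good EL F ∧ Nonempty (K →ₐ[ℂ] F) := by
  obtain ⟨z0, h, h1, h2⟩ := hel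
  obtain ⟨l, hl⟩ := Function.ne_iff.1 h2.self_of_nhds.1
  obtain ⟨F, hF, hmem⟩ := good_germs h1
  have han : ∀ j, AnalyticAt ℂ (h j) z0 := fun j =>
    (h1 j).an fun f hf => hf.an fun g hg => hg.an z0
  refine ⟨F, hF, emb_of_germ hy han ⟨l, fun h0 => hl h0.self_of_nhds⟩ (fun G hG => ?_) hmem⟩
  constructor
  · intro h3
    filter_upwards [h2] with z h7
    exact (rep_form h7 hG).1 (hX z G h3 hG)
  · intro h5
    apply hd G hG
    apply form_zero hf hG (z0 := z0)
    filter_upwards [h5, h2] with z h6 h7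
    exact (rep_form h7 hG).2 h6

theorem dom_of_curve {p : Ideal (MvPolynomial (Fin (N + 1)) ℂ)} {K : Type} [Field K]
    [Algebra ℂ K] {w : ℕ} {y : Fin (N + 1) → K} (hy : FunField p 1 K w y)
    {f : ℂ → ℙ ℂ (Fin (N + 1) → ℂ)} (hf : HolMap f) (hX : ∀ z, InV p (f z))
    (hd : ZariskiDense p f) (hel : NestedElliptic f) : DomProd K := by
  obtain ⟨F, hF, ⟨φ⟩⟩ := good_of_curve hy hf hX hd hel
  exact hF.pres.dom φ

end Pool.Agent.Helper6.EE
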