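import Mathlib

/-! Generic extensions: rational function fields and function fields of elliptic curves. -/

set_option autoImplicit false

open Polynomial IntermediateField

namespace Pool.Agent.Helper6.EE

section lift
variable {M L R : Type} [Field M] [Field L] [Algebra M L] [CommRing R] [Algebra M R]

open scoped algebraAdjoinAdjoin in
/-- two specialisations with the same kernel are conjugate -/
theorem lift_of_ring (e e' : R →ₐ[M] L) (h : ∀ r, e r = 0 ↔ e' r = 0) (S : Set L)
    (hS : Algebra.adjoin M S = e.range) :
    ∃ φ : IntermediateField.adjoin M S →ₐ[M] L,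
      ∀ r (hr : e r ∈ IntermediateField.adjoin M S), φ ⟨e r, hr⟩ = e' r := by
  classical
  have hex : ∀ a : Algebra.adjoin M S, ∃ r : R, e r = a := by
    rintro ⟨a, ha⟩
    rw [hS] at ha
    exact ha
  choose f hf using hex
  have hwd : ∀ r r' : R, e r = e r' → e' r = e' r' := by
    intro r r' hr
    have h1 : e (r - r') = 0 := by rw [map_sub, hr, sub_self]
    rw [h, map_sub] at h1
    exact sub_eq_zero.1 h1
  let g : Algebra.adjoin M S →ₐ[M] L :=
    { toFun := fun a => e' (f a)
      map_one' := by
        rw [← map_one e']
        apply hwd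
        rw [hf, map_one]; rfl
      map_mul' := by
        intro a b
        rw [← map_mul e']
        apply hwd
        rw [hf, map_mul, hf, hf]; rfl
      map_zero' := by
        rw [← map_zero e']
        apply hwd
        rw [hf, map_zero]; rfl
      map_add' := by
        intro a b
        rw [← map_add e']
        apply hwd
        rw [hf, map_add, hf, hf]; rfl
      commutes' := by
        intro c
        rw [← e'.commutes]
        apply hwd
        rw [hf, e.commutes]; rfl }
  have hg : Function.Injective g := by
    rw [injective_iff_map_eq_zero]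
    intro a ha
    have h1 : e (f a) = 0 := (h _).2 ha
    rw [hf] at h1
    exact Subtype.ext h1
  refine ⟨IsFractionRing.liftAlgHom (K := IntermediateField.adjoin M S) (g := g) hg, ?_⟩
  intro r hr
  have hr' : e r ∈ Algebra.adjoin M S := by rw [hS]; exact ⟨r, rfl⟩
  have h1 : (⟨e r, hr⟩ : IntermediateField.adjoin M S) =
      algebraMap (Algebra.adjoin M S) (IntermediateField.adjoin M S) ⟨e r, hr'⟩ := rfl
  rw [h1, IsFractionRing.liftAlgHom_apply, IsFractionRing.lift_algebraMap]
  exact hwd _ _ (hf _)

end lift

section rat
variable {M L : Type} [Field M] [Field L] [Algebra M L]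

theorem lift_rat {T T' : L} (hT : Transcendental M T) (hT' : Transcendental M T') :
    ∃ φ : IntermediateField.adjoin M {T} →ₐ[M] L,
      ∀ h : T ∈ IntermediateField.adjoin M {T}, φ ⟨T, h⟩ = T' := by
  obtain ⟨φ, hφ⟩ := lift_of_ring (R := M[X]) (aeval T) (aeval T') (by
    intro r
    rw [(injective_iff_map_eq_zero' _).1 (transcendental_iff_injective.1 hT) r,
      (injective_iff_map_eq_zero' _).1 (transcendental_iff_injective.1 hT') r]) {T}
      (Algebra.adjoin_singleton_eq_range_aeval M T)
  refine ⟨φ, fun h => ?_⟩
  have := hφ X (by rw [aeval_X]; exact h)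
  simpa using this

/-- the base field is algebraically closed in a simple transcendental extension -/
theorem alg_rat {T : L} (hT : Transcendental M T) {z : L}
    (hz : z ∈ IntermediateField.adjoin M {T}) (ha : IsAlgebraic M z) :
    ∃ c : M, algebraMap M L c = z := by
  let e := RatFunc.algEquivOfTranscendental T hT
  have h1 : IsAlgebraic M (e.symm ⟨z, hz⟩) := by
    have : IsAlgebraic M (⟨z, hz⟩ : IntermediateField.adjoin M {T}) :=
      (isAlgebraic_algebraMap_iff (A := L) (algebraMap (IntermediateField.adjoin M {T}) L).injective).1 ha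
    exact this.algHom (e.symm : _ →ₐ[M] RatFunc M)
  by_contra hc
  push Not at hc
  refine RatFunc.transcendental_of_ne_C (e.symm ⟨z, hz⟩) ?_ h1
  rintro ⟨c, hcc⟩
  apply hc c
  have h2 := congrArg e hcc
  rw [AlgEquiv.apply_symm_apply] at h2
  have h3 : e (RatFunc.C c) = algebraMap M _ c := by
    rw [← RatFunc.algebraMap_eq_C]
    exact e.commutes c
  rw [h3] at h2
  exact (congrArg Subtype.val h2).symm

end rat

end Pool.Agent.Helper6.EE
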