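import Pool.Agent.Helper6.EE.Ext

/-! Function fields of short Weierstrass curves over a field. -/

set_option autoImplicit false

open Polynomial IntermediateField

namespace Pool.Agent.Helper6.EE

variable {M : Type} [Field M]

/-- the cubic -/
noncomputable def cub (a b : M) : M[X] := X ^ 3 + C a * X + C b

theorem cub_natDegree (a b : M) : (cub a b).natDegree = 3 := by
  unfold cub; compute_degree!

theorem cub_ne_zero (a b : M) : cub a b ≠ 0 := by
  intro h
  have := cub_natDegree a b
  rw [h] at this
  simp at this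

/-- a cubic is not a square, up to constants -/
theorem parity {a b c : M} {p q : M[X]} (hq : q ≠ 0) (hc : c ≠ 0)
    (h : p ^ 2 * cub a b = C c * q ^ 2) : False := by
  have hr : C c * q ^ 2 ≠ 0 := mul_ne_zero (C_ne_zero.2 hc) (pow_ne_zero _ hq)
  have hp : p ≠ 0 := by
    rintro rfl
    apply hr
    rw [← h]; simp
  have h1 := congrArg natDegree h
  rw [natDegree_mul (pow_ne_zero _ hp) (cub_ne_zero a b), natDegree_pow, cub_natDegree,
    natDegree_mul (C_ne_zero.2 hc) (pow_ne_zero _ hq), natDegree_pow, natDegree_C] at h1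
  omega

variable {L : Type} [Field L] [Algebra M L]

theorem aeval_cub (a b : M) (x : L) : aeval x (cub a b) = x ^ 3 + algebraMap M L a * x +
    algebraMap M L b := by
  simp [cub]

theorem lin_indep {a b : M} {x y : L} (hx : Transcendental M x)
    (hy : y ^ 2 = x ^ 3 + algebraMap M L a * x + algebraMap M L b) {p q : M[X]}
    (h : aeval x p + aeval x q * y = 0) : p = 0 ∧ q = 0 := by
  have hinj := transcendental_iff_injective.1 hx
  have h1 : aeval x (q ^ 2 * cub a b) = aeval x (C 1 * p ^ 2) := by
    simp only [map_mul, map_pow, aeval_cub, map_one, one_mul]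
    rw [← hy]
    linear_combination (aeval x q * y - aeval x p) * h
  have h2 := hinj h1
  by_cases hp : p = 0
  · rw [hp] at h2
    have h3 : q ^ 2 * cub a b = 0 := by rw [h2]; simp
    have h4 := (mul_eq_zero.1 h3).resolve_right (cub_ne_zero a b)
    exact ⟨hp, pow_eq_zero_iff (two_ne_zero) |>.1 h4⟩
  · exact (parity hp one_ne_zero h2).elim

/-- the equation of the curve -/
noncomputable def weq (a b : M) : M[X][X] := X ^ 2 - C (cub a b)

theorem weq_monic (a b : M) : (weq a b).Monic := by
  unfold weq
  exact monic_X_pow_sub_C _ two_ne_zero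

theorem weq_degree (a b : M) : (weq a b).degree = 2 := by
  unfold weq
  exact degree_X_pow_sub_C (by norm_num) _

theorem eval_curve {a b : M} {x y : L} (hx : Transcendental M x)
    (hy : y ^ 2 = x ^ 3 + algebraMap M L a * x + algebraMap M L b) (r : M[X][X]) :
    aevalAeval x y r = 0 ↔ r %ₘ weq a b = 0 := by
  have hw : aevalAeval x y (weq a b) = 0 := by
    unfold weq
    rw [map_sub, map_pow, aevalAeval_Y, aevalAeval_C, aeval_cub, hy, sub_self]
  have h1 : aevalAeval x y r = aevalAeval x y (r %ₘ weq a b) := by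
    conv_lhs => rw [← modByMonic_add_div r (weq a b)]
    rw [map_add, map_mul, hw, zero_mul, add_zero]
  rw [h1]
  constructor
  · intro h
    have hd : (r %ₘ weq a b).degree < 2 := by
      rw [← weq_degree a b]
      exact degree_modByMonic_lt _ (weq_monic a b)
    have he : r %ₘ weq a b = C ((r %ₘ weq a b).coeff 1) * X + C ((r %ₘ weq a b).coeff 0) := by
      apply eq_X_add_C_of_degree_le_one
      exact Order.le_of_lt_succ hd
    rw [he] at h
    rw [map_add, map_mul, aevalAeval_Y, aevalAeval_C, aevalAeval_C, add_comm] at h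
    obtain ⟨h2, h3⟩ := lin_indep hx hy h
    rw [he, h2, h3]; simp
  · intro h
    rw [h, map_zero]

theorem lift_ell {a b : M} {x y x' y' : L} (hx : Transcendental M x)
    (hy : y ^ 2 = x ^ 3 + algebraMap M L a * x + algebraMap M L b)
    (hx' : Transcendental M x')
    (hy' : y' ^ 2 = x' ^ 3 + algebraMap M L a * x' + algebraMap M L b) :
    ∃ φ : IntermediateField.adjoin M {x, y} →ₐ[M] L,
      (∀ h : x ∈ IntermediateField.adjoin M {x, y}, φ ⟨x, h⟩ = x') ∧
      (∀ h : y ∈ IntermediateField.adjoin M {x, y}, φ ⟨y, h⟩ = y') := by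
  have hS : Algebra.adjoin M {x, y} = (aevalAeval x y : M[X][X] →ₐ[M] L).range := by
    apply le_antisymm
    · rw [Algebra.adjoin_le_iff]
      intro z hz
      rcases hz with rfl | hz
      · exact ⟨C X, aevalAeval_X _ _⟩
      · rw [Set.mem_singleton_iff] at hz
        subst hz
        exact ⟨X, aevalAeval_Y _ _⟩
    · rintro _ ⟨r, rfl⟩
      change aevalAeval x y r ∈ _
      induction r using Polynomial.induction_on with
      | C p =>
        rw [aevalAeval_C]
        exact Algebra.adjoin_mono (by simp) (by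
          rw [Algebra.adjoin_singleton_eq_range_aeval]
          exact ⟨p, rfl⟩ : aeval x p ∈ Algebra.adjoin M {x})
      | add p q hp hq => rw [map_add]; exact add_mem hp hq
      | monomial n p hp =>
        rw [pow_succ, ← mul_assoc, map_mul, aevalAeval_Y]
        exact mul_mem hp (Algebra.subset_adjoin (by simp))
  obtain ⟨φ, hφ⟩ := lift_of_ring (R := M[X][X]) (aevalAeval x y) (aevalAeval x' y') (by
    intro r
    rw [eval_curve hx hy, eval_curve hx' hy']) {x, y} hS
  refine ⟨φ, fun h => ?_, fun h => ?_⟩
  · have := hφ (C X) (by rw [aevalAeval_X]; exact h)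
    simp only [aevalAeval_X] at this
    exact this
  · have := hφ X (by rw [aevalAeval_Y]; exact h)
    simp only [aevalAeval_Y] at this
    exact this

/-- elements of the function field are `A + B y` -/
theorem mem_ell {a b : M} {x y : L} (hx : Transcendental M x)
    (hy : y ^ 2 = x ^ 3 + algebraMap M L a * x + algebraMap M L b) {z : L}
    (hz : z ∈ IntermediateField.adjoin M {x, y}) :
    ∃ A ∈ IntermediateField.adjoin M {x}, ∃ B ∈ IntermediateField.adjoin M {x},
      z = A + B * y := by
  have hxm : x ∈ IntermediateField.adjoin M {x} := mem_adjoin_simple_self M x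
  have hf : y ^ 2 ∈ IntermediateField.adjoin M {x} := by
    rw [hy]
    exact add_mem (add_mem (pow_mem hxm 3) (mul_mem (IntermediateField.algebraMap_mem _ a) hxm))
      (IntermediateField.algebraMap_mem _ b)
  have key : ∀ A ∈ IntermediateField.adjoin M {x}, ∀ B ∈ IntermediateField.adjoin M {x},
      A ^ 2 = B ^ 2 * y ^ 2 → A = 0 ∧ B = 0 := by
    intro A hA B hB h
    rw [mem_adjoin_simple_iff] at hA hB
    obtain ⟨p, q, rfl⟩ := hA
    obtain ⟨p', q', rfl⟩ := hB
    by_cases hq : aeval x q = 0
    · rw [hq, div_zero] at h ⊢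
      have hy0 : y ^ 2 ≠ 0 := by
        rw [hy, ← aeval_cub]
        intro h0
        exact cub_ne_zero a b (transcendental_iff.1 hx _ h0)
      have h1 : aeval x p' / aeval x q' = 0 := by
        have : (aeval x p' / aeval x q') ^ 2 * y ^ 2 = 0 := by rw [← h]; simp
        exact pow_eq_zero_iff two_ne_zero |>.1 ((mul_eq_zero.1 this).resolve_right hy0)
      exact ⟨rfl, h1⟩
    by_cases hq' : aeval x q' = 0
    · rw [hq', div_zero] at h ⊢
      refine ⟨?_, rfl⟩
      have : (aeval x p / aeval x q) ^ 2 = 0 := by rw [h]; simp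
      exact pow_eq_zero_iff two_ne_zero |>.1 this
    have h1 : aeval x (p * q') + aeval x (p' * q) * y = 0 ∨
        aeval x (p * q') + aeval x (-(p' * q)) * y = 0 := by
      have h2 : (aeval x (p * q') + aeval x (p' * q) * y) *
          (aeval x (p * q') + aeval x (-(p' * q)) * y) = 0 := by
        simp only [map_mul, map_neg]
        field_simp at h
        linear_combination h
      exact mul_eq_zero.1 h2
    have h3 : p * q' = 0 ∧ p' * q = 0 := by
      rcases h1 with h1 | h1
      · exact lin_indep hx hy h1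
      · obtain ⟨h4, h5⟩ := lin_indep hx hy h1
        exact ⟨h4, neg_eq_zero.1 h5⟩
    have hq0 : q ≠ 0 := by rintro rfl; exact hq (map_zero _)
    have hq0' : q' ≠ 0 := by rintro rfl; exact hq' (map_zero _)
    have h6 := (mul_eq_zero.1 h3.1).resolve_right hq0'
    have h7 := (mul_eq_zero.1 h3.2).resolve_right hq0
    rw [h6, h7]; simp
  let F : IntermediateField M L :=
    { carrier := {z | ∃ A ∈ IntermediateField.adjoin M {x}, ∃ B ∈ IntermediateField.adjoin M {x},
        z = A + B * y}
      mul_mem' := by
        rintro _ _ ⟨A, hA, B, hB, rfl⟩ ⟨A', hA', B', hB', rfl⟩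
        exact ⟨A * A' + B * B' * y ^ 2, add_mem (mul_mem hA hA') (mul_mem (mul_mem hB hB') hf),
          A * B' + B * A', add_mem (mul_mem hA hB') (mul_mem hB hA'), by ring⟩
      add_mem' := by
        rintro _ _ ⟨A, hA, B, hB, rfl⟩ ⟨A', hA', B', hB', rfl⟩
        exact ⟨A + A', add_mem hA hA', B + B', add_mem hB hB', by ring⟩
      algebraMap_mem' := fun c => ⟨algebraMap M L c, IntermediateField.algebraMap_mem _ c, 0,
        zero_mem _, by simp⟩
      inv_mem' := by
        rintro _ ⟨A, hA, B, hB, rfl⟩
        by_cases h0 : A + B * y = 0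
        · exact ⟨0, zero_mem _, 0, zero_mem _, by simp [h0]⟩
        have hn : A ^ 2 - B ^ 2 * y ^ 2 ≠ 0 := by
          intro h
          obtain ⟨h1, h2⟩ := key A hA B hB (sub_eq_zero.1 h)
          apply h0; rw [h1, h2]; simp
        refine ⟨A / (A ^ 2 - B ^ 2 * y ^ 2), div_mem hA (sub_mem (pow_mem hA 2)
          (mul_mem (pow_mem hB 2) hf)), -B / (A ^ 2 - B ^ 2 * y ^ 2), div_mem (neg_mem hB)
          (sub_mem (pow_mem hA 2) (mul_mem (pow_mem hB 2) hf)), ?_⟩
        field_simp
        ring }
  have hle : IntermediateField.adjoin M {x, y} ≤ F := by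
    rw [adjoin_le_iff]
    rintro z hz
    rcases hz with rfl | hz
    · exact ⟨z, hxm, 0, zero_mem _, by simp⟩
    · rw [Set.mem_singleton_iff] at hz
      subst hz
      exact ⟨0, zero_mem _, 1, one_mem _, by simp⟩
  exact hle hz

/-- the base field is algebraically closed in the function field -/
theorem alg_ell [CharZero M] {a b : M} {x y : L} (hx : Transcendental M x)
    (hy : y ^ 2 = x ^ 3 + algebraMap M L a * x + algebraMap M L b) {z : L}
    (hz : z ∈ IntermediateField.adjoin M {x, y}) (ha : IsAlgebraic M z) :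
    ∃ c : M, algebraMap M L c = z := by
  have hL : CharZero L := charZero_of_injective_algebraMap (algebraMap M L).injective
  obtain ⟨A, hA, B, hB, rfl⟩ := mem_ell hx hy hz
  have hle : IntermediateField.adjoin M {x} ≤ IntermediateField.adjoin M {x, y} :=
    adjoin.mono _ _ _ (by simp)
  have hyy : y ∈ IntermediateField.adjoin M {x, y} := subset_adjoin _ _ (by simp)
  have hxx : x ∈ IntermediateField.adjoin M {x, y} := subset_adjoin _ _ (by simp)
  obtain ⟨φ, h1, h2⟩ := lift_ell (a := a) (b := b) (y' := -y) hx hy hx (by rw [neg_sq, hy])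
  have hφ : ∀ w (hw : w ∈ IntermediateField.adjoin M {x}), φ ⟨w, hle hw⟩ = w := by
    intro w hw
    have h3 : φ.comp (IntermediateField.inclusion hle) =
        (IntermediateField.val (IntermediateField.adjoin M {x})) := by
      apply IntermediateField.algHom_ext_of_eq_adjoin _ rfl
      intro s hs
      rw [Set.mem_singleton_iff] at hs
      subst hs
      exact h1 hxx
    exact congrArg (fun f => f ⟨w, hw⟩) h3
  have h4 : IsAlgebraic M (φ ⟨A + B * y, hz⟩) := by
    have : IsAlgebraic M (⟨A + B * y, hz⟩ : IntermediateField.adjoin M {x, y}) :=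
      (isAlgebraic_algebraMap_iff (A := L)
        (algebraMap (IntermediateField.adjoin M {x, y}) L).injective).1 ha
    exact this.algHom φ
  have h5 : φ ⟨A + B * y, hz⟩ = A - B * y := by
    have h6 : (⟨A + B * y, hz⟩ : IntermediateField.adjoin M {x, y}) =
        ⟨A, hle hA⟩ + ⟨B, hle hB⟩ * ⟨y, hyy⟩ := rfl
    rw [h6, map_add, map_mul, hφ A hA, hφ B hB, h2]
    ring
  rw [h5] at h4
  have h7 : IsAlgebraic M A := by
    have h8 := (ha.add h4)
    have h9 : A = (A + B * y + (A - B * y)) * (algebraMap M L 2)⁻¹ := by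
      rw [map_ofNat]; field_simp; ring
    rw [h9]
    exact h8.mul (isAlgebraic_algebraMap (2 : M)).inv
  obtain ⟨c, hc⟩ := alg_rat hx hA h7
  have h10 : IsAlgebraic M (B ^ 2 * y ^ 2) := by
    have h8 := (ha.sub h7)
    have h9 : B ^ 2 * y ^ 2 = (A + B * y - A) ^ 2 := by ring
    rw [h9]
    exact h8.pow 2
  have hf : B ^ 2 * y ^ 2 ∈ IntermediateField.adjoin M {x} := by
    have hxm : x ∈ IntermediateField.adjoin M {x} := mem_adjoin_simple_self M x
    rw [hy]
    exact mul_mem (pow_mem hB 2) (add_mem (add_mem (pow_mem hxm 3)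
      (mul_mem (IntermediateField.algebraMap_mem _ a) hxm)) (IntermediateField.algebraMap_mem _ b))
  obtain ⟨d, hd⟩ := alg_rat hx hf h10
  have hB0 : B = 0 := by
    by_contra hB0
    rw [mem_adjoin_simple_iff] at hB
    obtain ⟨p, q, rfl⟩ := hB
    have hq : aeval x q ≠ 0 := by
      intro h; apply hB0; rw [h, div_zero]
    have hp : aeval x p ≠ 0 := by
      intro h; apply hB0; rw [h, zero_div]
    have hq0 : q ≠ 0 := by rintro rfl; exact hq (map_zero _)
    have hp0 : p ≠ 0 := by rintro rfl; exact hp (map_zero _)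
    have h11 : aeval x (p ^ 2 * cub a b) = aeval x (C d * q ^ 2) := by
      simp only [map_mul, map_pow, aeval_cub, aeval_C, hd]
      rw [← hy]
      field_simp
    have h12 := transcendental_iff_injective.1 hx h11
    by_cases hd0 : d = 0
    · rw [hd0] at h12
      simp only [map_zero, zero_mul, mul_eq_zero, pow_eq_zero_iff (two_ne_zero)] at h12
      rcases h12 with h12 | h12
      · exact hp0 h12
      · exact cub_ne_zero a b h12
    · exact parity hq0 hd0 h12
  exact ⟨c, by rw [hc, hB0]; simp⟩

end Pool.Agent.Helper6.EE
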