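import Pool.Agent.Helper6.EE.Kod2
import Pool.Graph.R_pool_sql_team_seeded_b677cdb8.E8helper4.EL.Cov

/-! Varieties dominated by products of a projective space and elliptic curves: they are covered by
rational curves or dominated by a product of elliptic curves. -/

set_option autoImplicit false

open IntermediateField
open Pool.Agent.TH143.GT (FunField Covered Pluricanonical)
open Pool.Agent.W602.GT (GeneralType)

namespace Pool.Agent.Helper6.EE

section
variable {L : Type} [Field L] [Algebra ℂ L] {a b : ℕ} {t : Fin a → L} {x y : Fin b → L}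
  {Λ : Fin b → PeriodPair}

/-- the function field of the product of the elliptic curves -/
noncomputable def A0 (x y : Fin b → L) : IntermediateField ℂ L :=
  IntermediateField.adjoin ℂ (Set.range x ∪ Set.range y)

theorem mem_A0_x (j : Fin b) : x j ∈ (A0 x y : IntermediateField ℂ L) :=
  subset_adjoin ℂ _ (Or.inl ⟨j, rfl⟩)

theorem mem_A0_y (j : Fin b) : y j ∈ (A0 x y : IntermediateField ℂ L) :=
  subset_adjoin ℂ _ (Or.inr ⟨j, rfl⟩)

theorem mem_A0_y2 (j : Fin b) : y j / 2 ∈ (A0 x y : IntermediateField ℂ L) := by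
  refine div_mem (mem_A0_y j) ?_
  have := (A0 x y : IntermediateField ℂ L).algebraMap_mem 2
  rwa [map_ofNat] at this

theorem epr_A0 (h1 : AlgebraicIndependent ℂ (Sum.elim t x))
    (h2 : ∀ j, y j ^ 2 =
      4 * x j ^ 3 - algebraMap ℂ L (Λ j).g₂ * x j - algebraMap ℂ L (Λ j).g₃) :
    EPr (C := ℂ) (A := (A0 x y : IntermediateField ℂ L)) (fun j => ⟨x j, mem_A0_x j⟩)
      (fun j => ⟨y j / 2, mem_A0_y2 j⟩) (fun j => aL (Λ j)) (fun j => bL (Λ j)) := by
  have hL := cz (C := ℂ) L
  constructor
  · have h3 : AlgebraicIndependent ℂ x := h1.comp Sum.inr Sum.inr_injective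
    exact AlgebraicIndependent.of_comp (A0 x y : IntermediateField ℂ L).val h3
  · exact fun j => disc_L (Λ j)
  · intro j
    apply Subtype.ext
    change (y j / 2) ^ 2 = x j ^ 3 + algebraMap ℂ L (aL (Λ j)) * x j + algebraMap ℂ L (bL (Λ j))
    have ha : algebraMap ℂ L (aL (Λ j)) = - algebraMap ℂ L (Λ j).g₂ / 4 := by
      unfold aL
      rw [map_div₀, map_neg, map_ofNat]
    have hb : algebraMap ℂ L (bL (Λ j)) = - algebraMap ℂ L (Λ j).g₃ / 4 := by
      unfold bL
      rw [map_div₀, map_neg, map_ofNat]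
    rw [ha, hb]
    linear_combination (1 / 4 : L) * h2 j
  · apply IntermediateField.map_injective (A0 x y : IntermediateField ℂ L).val
    rw [IntermediateField.adjoin_map, Set.image_union, ← Set.range_comp, ← Set.range_comp]
    have e1 : IntermediateField.map (A0 x y : IntermediateField ℂ L).val ⊤ = A0 x y := by
      ext z
      constructor
      · rintro ⟨w, -, rfl⟩
        exact w.2
      · intro hz
        exact ⟨⟨z, hz⟩, trivial, rfl⟩
    rw [e1]
    apply le_antisymm
    · rw [IntermediateField.adjoin_le_iff]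
      rintro z (⟨j, rfl⟩ | ⟨j, rfl⟩)
      · exact mem_A0_x j
      · exact mem_A0_y2 j
    · conv_lhs => unfold A0
      rw [IntermediateField.adjoin_le_iff]
      rintro z (⟨j, rfl⟩ | ⟨j, rfl⟩)
      · exact subset_adjoin ℂ _ (Or.inl ⟨j, rfl⟩)
      · have e2 : y j / 2 ∈ IntermediateField.adjoin ℂ
            (Set.range ((A0 x y : IntermediateField ℂ L).val ∘ fun j =>
              (⟨x j, mem_A0_x j⟩ : (A0 x y : IntermediateField ℂ L))) ∪
            Set.range ((A0 x y : IntermediateField ℂ L).val ∘ fun j =>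
              (⟨y j / 2, mem_A0_y2 j⟩ : (A0 x y : IntermediateField ℂ L)))) :=
          subset_adjoin ℂ _ (Or.inr ⟨j, rfl⟩)
        have e3 := (IntermediateField.adjoin ℂ
            (Set.range ((A0 x y : IntermediateField ℂ L).val ∘ fun j =>
              (⟨x j, mem_A0_x j⟩ : (A0 x y : IntermediateField ℂ L))) ∪
            Set.range ((A0 x y : IntermediateField ℂ L).val ∘ fun j =>
              (⟨y j / 2, mem_A0_y2 j⟩ : (A0 x y : IntermediateField ℂ L))))).algebraMap_mem 2
        rw [map_ofNat] at e3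
        have e4 := mul_mem e3 e2
        rwa [mul_div_cancel₀ _ two_ne_zero] at e4

/-- adjunction of the first coordinates -/
noncomputable def Mi (t : Fin a → L) (x y : Fin b → L) (i : ℕ) : IntermediateField ℂ L :=
  IntermediateField.adjoin ℂ ((A0 x y : IntermediateField ℂ L) ∪ {z | ∃ k : Fin a, (k : ℕ) < i ∧ z = t k})

theorem Mi_trans (h1 : AlgebraicIndependent ℂ (Sum.elim t x))
    (h2 : ∀ j, y j ^ 2 =
      4 * x j ^ 3 - algebraMap ℂ L (Λ j).g₂ * x j - algebraMap ℂ L (Λ j).g₃) (i : Fin a) :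
    Transcendental (Mi t x y i) (t i) := by
  intro halg
  let S : Set (Fin a ⊕ Fin b) := {s | ∀ k : Fin a, s = Sum.inl k → (k : ℕ) < i}
  have hS : (Sum.inl i : Fin a ⊕ Fin b) ∉ S := fun h => lt_irrefl _ (h i rfl)
  have h3 := h1.transcendental_adjoin hS
  apply h3
  set T : Set L := (Sum.elim t x) '' S with hT
  open scoped algebraAdjoinAdjoin in
  rw [IsFractionRing.isAlgebraic_iff (Algebra.adjoin ℂ T) (IntermediateField.adjoin ℂ T) L]
  change IsAlgebraic (IntermediateField.adjoin ℂ T) (t i)
  rw [← mem_acl]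
  apply acl_idem
  rw [mem_acl]
  refine alg_mono ?_ halg
  unfold Mi
  rw [IntermediateField.adjoin_le_iff]
  have hx : ∀ j, x j ∈ IntermediateField.adjoin ℂ T := fun j =>
    subset_adjoin ℂ _ ⟨Sum.inr j, fun k hk => by simp at hk, rfl⟩
  rintro z (hz | ⟨k, hk, rfl⟩)
  · have h4 : (A0 x y : IntermediateField ℂ L) ≤ acl (IntermediateField.adjoin ℂ T) := by
      unfold A0
      rw [IntermediateField.adjoin_le_iff]
      rintro w (⟨j, rfl⟩ | ⟨j, rfl⟩)
      · exact le_acl _ (hx j)
      · rw [SetLike.mem_coe, mem_acl]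
        have h5 : y j ^ 2 ∈ IntermediateField.adjoin ℂ T := by
          rw [h2]
          have h4' := (IntermediateField.adjoin ℂ T).algebraMap_mem 4
          rw [map_ofNat] at h4'
          exact sub_mem (sub_mem (mul_mem h4' (pow_mem (hx j) 3))
            (mul_mem (IntermediateField.algebraMap_mem _ _) (hx j)))
            (IntermediateField.algebraMap_mem _ _)
        exact IsAlgebraic.of_pow two_pos
          (isAlgebraic_algebraMap (⟨_, h5⟩ : IntermediateField.adjoin ℂ T))
    exact h4 hz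
  · apply le_acl
    exact subset_adjoin ℂ _ ⟨Sum.inl k, fun k' hk' => by
      have := Sum.inl_injective hk'
      rw [← this]
      exact hk, rfl⟩

theorem Mi_chain (h1 : AlgebraicIndependent ℂ (Sum.elim t x))
    (h2 : ∀ j, y j ^ 2 =
      4 * x j ^ 3 - algebraMap ℂ L (Λ j).g₂ * x j - algebraMap ℂ L (Λ j).g₃) (i : ℕ)
    (hi : i ≤ a) : E8helper4.EL.Ch (A0 x y) (Mi t x y i) := by
  induction i with
  | zero =>
    have e : Mi t x y 0 = A0 x y := by
      unfold Mi
      apply le_antisymm
      · rw [IntermediateField.adjoin_le_iff]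
        rintro z (hz | ⟨k, hk, -⟩)
        · exact hz
        · exact absurd hk (Nat.not_lt_zero _)
      · exact fun z hz => subset_adjoin ℂ _ (Or.inl hz)
    rw [e]
    exact E8helper4.EL.Ch.base
  | succ i ih =>
    have e : Mi t x y (i + 1) = E8helper4.EL.adj (Mi t x y i) (t ⟨i, hi⟩) := by
      unfold E8helper4.EL.adj
      apply le_antisymm
      · conv_lhs => unfold Mi
        rw [IntermediateField.adjoin_le_iff]
        rintro z (hz | ⟨k, hk, rfl⟩)
        · exact subset_adjoin ℂ _ (Or.inl (subset_adjoin ℂ _ (Or.inl hz)))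
        · by_cases h : (k : ℕ) = i
          · have hk' : k = ⟨i, hi⟩ := Fin.ext h
            rw [hk']
            exact subset_adjoin ℂ _ (Or.inr rfl)
          · exact subset_adjoin ℂ _ (Or.inl (subset_adjoin ℂ _ (Or.inr ⟨k, by omega, rfl⟩)))
      · rw [IntermediateField.adjoin_le_iff]
        rintro z (hz | hz)
        · have h3 : Mi t x y i ≤ Mi t x y (i + 1) := by
            unfold Mi
            apply IntermediateField.adjoin.mono
            rintro w (hw | ⟨k, hk, rfl⟩)
            · exact Or.inl hw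
            · exact Or.inr ⟨k, by omega, rfl⟩
          exact h3 hz
        · rw [Set.mem_singleton_iff] at hz
          rw [hz]
          exact subset_adjoin ℂ _ (Or.inr ⟨⟨i, hi⟩, Nat.lt_succ_self i, rfl⟩)
    rw [e]
    exact (ih (by omega)).step (Mi_trans h1 h2 ⟨i, hi⟩)

theorem Mi_top (h3 : IntermediateField.adjoin ℂ (Set.range t ∪ Set.range x ∪ Set.range y) = ⊤) :
    Mi t x y a = ⊤ := by
  rw [eq_top_iff, ← h3, IntermediateField.adjoin_le_iff]
  rintro z ((⟨k, rfl⟩ | ⟨j, rfl⟩) | ⟨j, rfl⟩)
  · exact subset_adjoin ℂ _ (Or.inr ⟨k, k.2, rfl⟩)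
  · exact subset_adjoin ℂ _ (Or.inl (mem_A0_x j))
  · exact subset_adjoin ℂ _ (Or.inl (mem_A0_y j))

end

/-- **The dichotomy.** -/
theorem DomProd.dich {K : Type} [Field K] [Algebra ℂ K] (h : DomProd K) :
    Covered K ∨ ∃ b, DomBy 0 b K := by
  obtain ⟨a, b, L, _, _, t, x, y, Λ, h1, h2, h3, ⟨φ⟩⟩ := h
  have h4 := Mi_chain h1 h2 a le_rfl
  rw [Mi_top h3] at h4
  rcases h4.dich φ (fun _ => trivial) with h5 | h5
  · right
    let φ' : K →ₐ[ℂ] (A0 x y : IntermediateField ℂ L) :=
      φ.codRestrict (A0 x y : IntermediateField ℂ L).toSubalgebra h5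
    refine ⟨b, A0 x y, inferInstance, inferInstance, Fin.elim0, fun j => ⟨x j, mem_A0_x j⟩,
      fun j => ⟨y j, mem_A0_y j⟩, Λ, ?_, ?_, ?_, ⟨φ'⟩⟩
    · have h6 : AlgebraicIndependent ℂ x := h1.comp Sum.inr Sum.inr_injective
      have h7 : AlgebraicIndependent ℂ
          (fun j => (⟨x j, mem_A0_x j⟩ : (A0 x y : IntermediateField ℂ L))) :=
        AlgebraicIndependent.of_comp (A0 x y : IntermediateField ℂ L).val h6
      have h8 := (algebraicIndependent_equiv (Equiv.emptySum (Fin 0) (Fin b))
        (f := fun j => (⟨x j, mem_A0_x j⟩ : (A0 x y : IntermediateField ℂ L)))).2 h7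
      convert h8 using 1
      funext s
      rcases s with s | s
      · exact s.elim0
      · rfl
    · intro j
      exact Subtype.ext (h2 j)
    · apply IntermediateField.map_injective (A0 x y : IntermediateField ℂ L).val
      rw [IntermediateField.adjoin_map, Set.image_union, Set.image_union, ← Set.range_comp,
        ← Set.range_comp, ← Set.range_comp]
      have e1 : IntermediateField.map (A0 x y : IntermediateField ℂ L).val ⊤ = A0 x y := by
        ext z
        constructor
        · rintro ⟨w, -, rfl⟩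
          exact w.2
        · intro hz
          exact ⟨⟨z, hz⟩, trivial, rfl⟩
      rw [e1, Set.range_eq_empty, Set.empty_union]
      rfl
  · exact Or.inl h5

/-- varieties dominated by a product of elliptic curves have Kodaira dimension at most zero -/
theorem DomBy.kod {K : Type} [Field K] [Algebra ℂ K] [Algebra.EssFiniteType ℂ K] {w b : ℕ}
    (hw : Algebra.trdeg ℂ K = w) (h : DomBy 0 b K) : KodairaLeZero K w := by
  obtain ⟨L, _, _, t, x, y, Λ, h1, h2, h3, ⟨φ⟩⟩ := h
  have h4 := epr_A0 h1 h2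
  have h5 : ∀ e, φ e ∈ (A0 x y : IntermediateField ℂ L).toSubalgebra := by
    intro e
    have h6 : φ e ∈ IntermediateField.adjoin ℂ (Set.range t ∪ Set.range x ∪ Set.range y) := by
      rw [h3]; trivial
    rw [Set.range_eq_empty t, Set.empty_union] at h6
    exact h6
  let φ' : K →ₐ[ℂ] (A0 x y : IntermediateField ℂ L) := φ.codRestrict _ h5
  let _ : Algebra K (A0 x y : IntermediateField ℂ L) := φ'.toRingHom.toAlgebra
  have _ : IsScalarTower ℂ K (A0 x y : IntermediateField ℂ L) :=
    IsScalarTower.of_algebraMap_eq fun c => by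
      change _ = φ' (algebraMap ℂ K c)
      rw [φ'.commutes]
  intro N hN ω₁ ω₂ hω₁ hω₂
  exact h4.forms hw hN hω₁ hω₂

variable {N : ℕ}

theorem DomProd.kod {p : Ideal (MvPolynomial (Fin (N + 1)) ℂ)} {K : Type} [Field K]
    [Algebra ℂ K] {w : ℕ} {y : Fin (N + 1) → K} (hy : FunField p 1 K w y) (hw : 0 < w)
    (h : DomProd K) : KodairaLeZero K w := by
  have hess : Algebra.EssFiniteType ℂ K := Pool.Agent.TH143.GT.ess_of_coords hy.sub.gen
  rcases h.dich with h1 | ⟨b, h1⟩
  · intro n hn ω₁ ω₂ hω₁ hω₂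
    have h2 := Pool.Agent.Y288.IL.t_PL N p K w y hy hw h1 n hn ω₁ hω₁
    refine ⟨1, 0, Or.inl one_ne_zero, fun D => ?_⟩
    rw [h2]
    simp
  · exact h1.kod hy.sub.dim

end Pool.Agent.Helper6.EE
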