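import Pool.Agent.Helper6.EE.AGp
import Pool.Agent.Helper6.EE.ExtE
import Pool.Graph.R_seed8.W602.GT.Der
import Pool.Graph.R_seed8.W603.LV.Can

/-! Generic points of one dimensional groups. -/

set_option autoImplicit false

open Polynomial IntermediateField

namespace Pool.Agent.Helper6.EE

variable {C : Type} [Field C]

namespace AGp

variable (τ : AGp C)

section basic
variable {K K' K'' : Type} [Field K] [Algebra C K] [Field K'] [Algebra C K'] [Field K'']
  [Algebra C K'']

theorem map_inj (f : K →ₐ[C] K') : Function.Injective (τ.map f) := by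
  intro P Q h
  apply τ.coord_inj
  have := congrArg τ.coord h
  rw [τ.coord_map, τ.coord_map] at this
  exact List.map_injective_iff.2 f.injective this

theorem map_map (g : K' →ₐ[C] K'') (f : K →ₐ[C] K') (P : τ.G K) :
    τ.map g (τ.map f P) = τ.map (g.comp f) P := by
  apply τ.coord_inj
  rw [τ.coord_map, τ.coord_map, τ.coord_map, List.map_map]
  rfl

theorem map_congr (f g : K →ₐ[C] K') (P : τ.G K) (h : ∀ x ∈ τ.coord P, f x = g x) :
    τ.map f P = τ.map g P := by
  apply τ.coord_inj
  rw [τ.coord_map, τ.coord_map]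
  exact List.map_congr_left h

theorem map_id (f : K →ₐ[C] K) (P : τ.G K) (h : ∀ x ∈ τ.coord P, f x = x) :
    τ.map f P = P := by
  apply τ.coord_inj
  rw [τ.coord_map]
  conv_rhs => rw [← List.map_id (τ.coord P)]
  exact List.map_congr_left h

theorem lam_zero_der (P : τ.G K) : τ.lam (0 : Derivation C K K) P = 0 := by
  have := τ.lam_smul (0 : K) (0 : Derivation C K K) P
  rwa [zero_smul, zero_mul] at this

theorem lam_congr (D D' : Derivation C K K) (P : τ.G K) (h : ∀ x ∈ τ.coord P, D x = D' x) :
    τ.lam D P = τ.lam D' P := by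
  have h1 := τ.lam_nat (AlgHom.id C K) D' D P (fun x hx => h x hx)
  rw [τ.map_id _ P (fun _ _ => rfl)] at h1
  exact h1

theorem der_congr (D D' : Derivation C K K) (P : τ.G K) (h : τ.lam D P = τ.lam D' P) :
    ∀ x ∈ τ.coord P, D x = D' x := by
  have h1 := τ.der_nat (AlgHom.id C K) D' D P
  rw [τ.map_id _ P (fun _ _ => rfl)] at h1
  exact h1 h

/-- points with vanishing logarithmic derivative are constant -/
theorem const_of_lam (D : Derivation C K K) (P : τ.G K) (h : τ.lam D P = 0) :
    ∀ x ∈ τ.coord P, D x = 0 := by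
  intro x hx
  have := τ.der_congr D 0 P (by rw [h, τ.lam_zero_der]) x hx
  rw [this]; rfl

theorem lam_of_const (D : Derivation C K K) (P : τ.G K) (h : ∀ x ∈ τ.coord P, D x = 0) :
    τ.lam D P = 0 := by
  rw [← τ.lam_zero_der P]
  exact τ.lam_congr _ _ _ (fun x hx => by rw [h x hx]; rfl)

/-- rational points -/
def Rat (F : IntermediateField C K) (P : τ.G K) : Prop := ∀ x ∈ τ.coord P, x ∈ F

theorem rat_iff (F : IntermediateField C K) (P : τ.G K) :
    τ.Rat F P ↔ ∃ Q : τ.G F, τ.map F.val Q = P := by
  constructor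
  · exact τ.descend F P
  · rintro ⟨Q, rfl⟩ x hx
    rw [τ.coord_map, List.mem_map] at hx
    obtain ⟨y, -, rfl⟩ := hx
    exact y.2

theorem rat_map {F : IntermediateField C K} (Q : τ.G F) : τ.Rat F (τ.map F.val Q) :=
  (τ.rat_iff F _).2 ⟨Q, rfl⟩

theorem Rat.mono {τ : AGp C} {F F' : IntermediateField C K} (h : F ≤ F') {P : τ.G K}
    (hP : τ.Rat F P) : τ.Rat F' P := fun x hx => h (hP x hx)

theorem Rat.zero {F : IntermediateField C K} : τ.Rat F (0 : τ.G K) :=
  (τ.rat_iff F _).2 ⟨0, map_zero _⟩

theorem Rat.add {τ : AGp C} {F : IntermediateField C K} {P Q : τ.G K} (hP : τ.Rat F P)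
    (hQ : τ.Rat F Q) : τ.Rat F (P + Q) := by
  obtain ⟨P', rfl⟩ := (τ.rat_iff F _).1 hP
  obtain ⟨Q', rfl⟩ := (τ.rat_iff F _).1 hQ
  exact (τ.rat_iff F _).2 ⟨P' + Q', map_add _ _ _⟩

theorem Rat.neg {τ : AGp C} {F : IntermediateField C K} {P : τ.G K} (hP : τ.Rat F P) :
    τ.Rat F (-P) := by
  obtain ⟨P', rfl⟩ := (τ.rat_iff F _).1 hP
  exact (τ.rat_iff F _).2 ⟨-P', map_neg _ _⟩

theorem Rat.sub {τ : AGp C} {F : IntermediateField C K} {P Q : τ.G K} (hP : τ.Rat F P)
    (hQ : τ.Rat F Q) : τ.Rat F (P - Q) := by
  rw [sub_eq_add_neg]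
  exact hP.add hQ.neg

theorem Rat.zsmul {τ : AGp C} {F : IntermediateField C K} {P : τ.G K} (hP : τ.Rat F P)
    (n : ℤ) : τ.Rat F (n • P) := by
  obtain ⟨P', rfl⟩ := (τ.rat_iff F _).1 hP
  exact (τ.rat_iff F _).2 ⟨n • P', map_zsmul _ _ _⟩

/-- the extension generated by a point -/
def adj (M : IntermediateField C K) (P : τ.G K) : IntermediateField C K :=
  (IntermediateField.adjoin M {x | x ∈ τ.coord P}).restrictScalars C

theorem le_adj (M : IntermediateField C K) (P : τ.G K) : M ≤ τ.adj M P := by
  intro x hx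
  exact (IntermediateField.adjoin M {x | x ∈ τ.coord P}).algebraMap_mem ⟨x, hx⟩

theorem rat_adj (M : IntermediateField C K) (P : τ.G K) : τ.Rat (τ.adj M P) P := by
  intro x hx
  exact IntermediateField.subset_adjoin M _ hx

theorem adj_le {M N : IntermediateField C K} {P : τ.G K} (h : M ≤ N) (hP : τ.Rat N P) :
    τ.adj M P ≤ N := by
  have h1 : IntermediateField.adjoin M {x | x ∈ τ.coord P} ≤ IntermediateField.extendScalars h := by
    rw [IntermediateField.adjoin_le_iff]
    intro x hx
    exact hP x hx
  intro x hx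
  exact h1 hx

theorem adj_mono {M N : IntermediateField C K} {P : τ.G K} (h : M ≤ N) :
    τ.adj M P ≤ τ.adj N P :=
  τ.adj_le (h.trans (τ.le_adj N P)) (τ.rat_adj N P)

/-- generic points over a subfield -/
def Gen (M : IntermediateField C K) (P : τ.G K) : Prop :=
  ∃ x ∈ τ.coord P, Transcendental M x

end basic

end AGp

/-- the properties of one dimensional groups which we use -/
structure Nice (τ : AGp C) : Prop where
  lift : ∀ {L : Type} [Field L] [Algebra C L] (M : IntermediateField C L) (P P' : τ.G L),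
    τ.Gen M P → τ.Gen M P' → ∃ φ : τ.adj M P →ₐ[C] L,
      (∀ x (_ : x ∈ M) (h : x ∈ τ.adj M P), φ ⟨x, h⟩ = x) ∧
      ∀ Q : τ.G (τ.adj M P), τ.map (τ.adj M P).val Q = P → τ.map φ Q = P'
  alg : ∀ {L : Type} [Field L] [Algebra C L] (M : IntermediateField C L) (P : τ.G L),
    τ.Gen M P → ∀ z ∈ τ.adj M P, IsAlgebraic M z → z ∈ M
  exd : ∀ {L : Type} [Field L] [Algebra C L] (M : IntermediateField C L) (P : τ.G L),
    τ.Gen M P → ∃ δ : Derivation M L L, τ.lam (δ.restrictScalars C) P = 1
  stab : ∀ {L : Type} [Field L] [Algebra C L] (F : IntermediateField C L) (D : Derivation C L L)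
    (P : τ.G L), τ.Rat F P → τ.lam D P ∈ F → ∀ x ∈ τ.coord P, D x ∈ F
  ff : ∀ {k K : Type} [Field k] [Field K] [Algebra C k] [Algebra C K] [Algebra k K]
    [IsScalarTower C k K] (P : τ.G K), (∃ x ∈ τ.coord P, Transcendental k x) →
    IntermediateField.adjoin k {x | x ∈ τ.coord P} = ⊤ → FF.IsFF k K

section inst
variable [CharZero C]

theorem exists_der_one {L : Type} [Field L] [Algebra C L] (M : IntermediateField C L) {T : L}
    (hT : Transcendental M T) (c : L) : ∃ δ : Derivation M L L, δ T = c := by
  have := cz (C := C) M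
  obtain ⟨t, ht, hb⟩ := exists_isTranscendenceBasis_superset (R := M) (s := {T})
    (algebraicIndependent_unique_type_iff.2 hT)
  obtain ⟨D, hD⟩ := Pool.Agent.W602.GT.exists_der (fun i : t => (i : L)) hb (fun _ => c)
  exact ⟨D, hD ⟨T, ht rfl⟩⟩

theorem nice_one {τ : AGp C} (hc : ∀ {L : Type} [Field L] [Algebra C L] (P : τ.G L), ∃ x,
    τ.coord P = [x]) (hd : ∀ {L : Type} [Field L] [Algebra C L] (P : τ.G L), ∃ c : L,
    ∀ D : Derivation C L L, ∀ x ∈ τ.coord P, D x = c → τ.lam D P = 1)
    (hs : ∀ {L : Type} [Field L] [Algebra C L] (F : IntermediateField C L) (D : Derivation C L L)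
      (P : τ.G L), τ.Rat F P → τ.lam D P ∈ F → ∀ x ∈ τ.coord P, D x ∈ F) : Nice τ := by
  have hset : ∀ {L : Type} [Field L] [Algebra C L] (P : τ.G L) (x : L), τ.coord P = [x] →
      {y | y ∈ τ.coord P} = {x} := by
    intro L _ _ P x hx
    ext y
    rw [hx]
    simp
  constructor
  · intro L _ _ M P P' hP hP'
    obtain ⟨x, hx⟩ := hc P
    obtain ⟨x', hx'⟩ := hc P'
    have h1 : Transcendental M x := by
      obtain ⟨y, hy, h⟩ := hP
      rw [hx, List.mem_singleton] at hy
      rwa [hy] at h
    have h2 : Transcendental M x' := by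
      obtain ⟨y, hy, h⟩ := hP'
      rw [hx', List.mem_singleton] at hy
      rwa [hy] at h
    obtain ⟨φ, hφ⟩ := lift_rat h1 h2
    have he := hset P x hx
    have h3 : (IntermediateField.adjoin M {y | y ∈ τ.coord P}) =
        IntermediateField.adjoin M {x} := by rw [he]
    let ψ : IntermediateField.adjoin M {y | y ∈ τ.coord P} →ₐ[M] L :=
      φ.comp (IntermediateField.equivOfEq h3).toAlgHom
    refine ⟨ψ.restrictScalars C, ?_, ?_⟩
    · intro z hz h
      exact ψ.commutes ⟨z, hz⟩
    · intro Q hQ
      apply τ.coord_inj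
      obtain ⟨q, hq⟩ := hc Q
      rw [τ.coord_map, hq, hx']
      have h4 := congrArg τ.coord hQ
      rw [τ.coord_map, hq, hx] at h4
      simp only [List.map_cons, List.map_nil, List.cons.injEq, and_true] at h4 ⊢
      have h5 : x ∈ IntermediateField.adjoin M {x} := mem_adjoin_simple_self M x
      have h6 := hφ h5
      rw [← h6]
      change φ _ = φ _
      congr 1
      exact Subtype.ext h4
  · intro L _ _ M P hP z hz ha
    obtain ⟨x, hx⟩ := hc P
    have h1 : Transcendental M x := by
      obtain ⟨y, hy, h⟩ := hP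
      rw [hx, List.mem_singleton] at hy
      rwa [hy] at h
    have hz' : z ∈ IntermediateField.adjoin M {x} := by
      rw [← hset P x hx]; exact hz
    obtain ⟨c, hc⟩ := alg_rat h1 hz' ha
    rw [← hc]
    exact c.2
  · intro L _ _ M P hP
    obtain ⟨x, hx⟩ := hc P
    have h1 : Transcendental M x := by
      obtain ⟨y, hy, h⟩ := hP
      rw [hx, List.mem_singleton] at hy
      rwa [hy] at h
    obtain ⟨c, hcc⟩ := hd P
    obtain ⟨δ, hδ⟩ := exists_der_one M h1 c
    refine ⟨δ, hcc _ x (by rw [hx]; simp) hδ⟩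
  · intro L _ _ F D P
    exact hs F D P
  · intro k K _ _ _ _ _ _ P hP htop
    obtain ⟨x, hx⟩ := hc P
    have h1 : Transcendental k x := by
      obtain ⟨y, hy, h⟩ := hP
      rw [hx, List.mem_singleton] at hy
      rwa [hy] at h
    have h2 : IntermediateField.adjoin k {x} = ⊤ := by
      rw [← htop]; congr 1; ext y; rw [hx]; simp
    apply FF.IsFF.of_finite h1
    rw [h2]
    have h3 : Module.Finite (⊤ : IntermediateField k K) K := by
      refine Module.Finite.of_surjective
        (Algebra.linearMap (⊤ : IntermediateField k K) K) ?_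
      intro y
      exact ⟨⟨y, trivial⟩, rfl⟩
    exact h3

theorem nice_Ga : Nice (Ga : AGp C) := by
  apply nice_one
  · intro L _ _ P
    exact ⟨P, rfl⟩
  · intro L _ _ P
    refine ⟨1, fun D x hx h => ?_⟩
    let p : L := P
    have hx' : x ∈ [p] := hx
    rw [List.mem_singleton] at hx'
    rw [hx'] at h
    exact h
  · intro L _ _ F D P hP h x hx
    let p : L := P
    have hx' : x ∈ [p] := hx
    rw [List.mem_singleton] at hx'
    rw [hx']
    exact h

theorem nice_Gm : Nice (Gm : AGp C) := by
  apply nice_one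
  · intro L _ _ P
    exact ⟨_, rfl⟩
  · intro L _ _ P
    refine ⟨((Additive.toMul P : Lˣ) : L), fun D x hx h => ?_⟩
    rw [show (Gm : AGp C).coord P = [((Additive.toMul P : Lˣ) : L)] from rfl,
      List.mem_singleton] at hx
    rw [hx] at h
    change D _ / _ = (1 : L)
    rw [h]
    exact div_self (Additive.toMul P : Lˣ).ne_zero
  · intro L _ _ F D P hP h x hx
    have h0 := (Additive.toMul P : Lˣ).ne_zero
    have hm : ((Additive.toMul P : Lˣ) : L) ∈ F := hP _ (List.mem_singleton_self _)
    rw [show (Gm : AGp C).coord P = [((Additive.toMul P : Lˣ) : L)] from rfl,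
      List.mem_singleton] at hx
    rw [hx]
    change D ((Additive.toMul P : Lˣ) : L) / ((Additive.toMul P : Lˣ) : L) ∈ F at h
    have := mul_mem h hm
    rwa [div_mul_cancel₀ _ h0] at this

/-- generic points of an elliptic curve -/
theorem gen_ell {a b : C} {L : Type} [Field L] [Algebra C L] {M : IntermediateField C L}
    {P : (Ell a b).G L} (hP : (Ell a b).Gen M P) :
    ∃ x y, (Ell a b).coord P = [x, y] ∧ Transcendental M x ∧ y ≠ 0 ∧
      (∃ h : (WK a b L).Nonsingular x y, P = WeierstrassCurve.Affine.Point.some x y h) ∧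
      y ^ 2 = x ^ 3 + algebraMap M L (algebraMap C M a) * x + algebraMap M L (algebraMap C M b) := by
  rcases P with _ | ⟨x, y, h⟩
  · obtain ⟨z, hz, -⟩ := hP
    exact absurd hz (by change z ∉ ([] : List L); simp)
  · obtain ⟨h1, h2⟩ := (WK_nonsingular a b x y).1 h
    have h3 : y ^ 2 = x ^ 3 + algebraMap M L (algebraMap C M a) * x +
        algebraMap M L (algebraMap C M b) := by
      rw [h1]; rfl
    have hx : Transcendental M x := by
      obtain ⟨z, hz, hzt⟩ := hP
      replace hz : z ∈ [x, y] := hz
      simp only [List.mem_cons, List.not_mem_nil, or_false] at hz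
      rcases hz with rfl | rfl
      · exact hzt
      · intro hx
        apply hzt
        have h4 : IsAlgebraic M (z ^ 2) := by
          rw [h3]
          exact ((hx.pow 3).add ((isAlgebraic_algebraMap _).mul hx)).add (isAlgebraic_algebraMap _)
        exact IsAlgebraic.of_pow two_pos h4
    refine ⟨x, y, rfl, hx, ?_, ⟨h, rfl⟩, h3⟩
    rintro rfl
    have h5 : x ^ 3 + algebraMap M L (algebraMap C M a) * x +
        algebraMap M L (algebraMap C M b) = 0 := by rw [← h3]; simp
    rw [← aeval_cub] at h5
    exact cub_ne_zero _ _ (transcendental_iff.1 hx _ h5)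

theorem nice_Ell (a b : C) : Nice (Ell a b) := by
  have hset : ∀ {L : Type} [Field L] [Algebra C L] (P : (Ell a b).G L) (x y : L),
      (Ell a b).coord P = [x, y] → {z | z ∈ (Ell a b).coord P} = {x, y} := by
    intro L _ _ P x y hx
    ext z
    rw [hx]
    simp
  constructor
  · intro L _ _ M P P' hP hP'
    obtain ⟨x, y, hc, hx, -, -, hy⟩ := gen_ell hP
    obtain ⟨x', y', hc', hx', -, -, hy'⟩ := gen_ell hP'
    obtain ⟨φ, h1, h2⟩ := lift_ell hx hy hx' hy'
    have he := hset P x y hc
    have h3 : (IntermediateField.adjoin M {y | y ∈ (Ell a b).coord P}) =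
        IntermediateField.adjoin M {x, y} := by rw [he]
    let ψ : IntermediateField.adjoin M {y | y ∈ (Ell a b).coord P} →ₐ[M] L :=
      φ.comp (IntermediateField.equivOfEq h3).toAlgHom
    refine ⟨ψ.restrictScalars C, ?_, ?_⟩
    · intro z hz h
      exact ψ.commutes ⟨z, hz⟩
    · intro Q hQ
      apply (Ell a b).coord_inj
      rcases Q with _ | ⟨q, r, hq⟩
      · exfalso
        have h4 := congrArg (Ell a b).coord hQ
        rw [hc] at h4
        exact absurd h4 (by
          change ([] : List L) ≠ [x, y]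
          simp)
      · have h4 := congrArg (Ell a b).coord hQ
        rw [(Ell a b).coord_map, hc] at h4
        rw [(Ell a b).coord_map, hc']
        change [_, _] = [x, y] at h4
        change [ψ q, ψ r] = [x', y']
        simp only [List.cons.injEq, and_true] at h4 ⊢
        have h5 : x ∈ IntermediateField.adjoin M {x, y} := subset_adjoin _ _ (by simp)
        have h6 : y ∈ IntermediateField.adjoin M {x, y} := subset_adjoin _ _ (by simp)
        have h7 := h1 h5
        have h8 := h2 h6
        rw [← h7, ← h8]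
        constructor
        · change φ _ = φ _
          congr 1
          exact Subtype.ext h4.1
        · change φ _ = φ _
          congr 1
          exact Subtype.ext h4.2
  · intro L _ _ M P hP z hz ha
    obtain ⟨x, y, hc, hx, -, -, hy⟩ := gen_ell hP
    have hz' : z ∈ IntermediateField.adjoin M {x, y} := by
      rw [← hset P x y hc]; exact hz
    have := cz (C := C) M
    obtain ⟨c, hc⟩ := alg_ell hx hy hz' ha
    rw [← hc]
    exact c.2
  · intro L _ _ M P hP
    obtain ⟨x, y, hc, hx, hy0, ⟨h, rfl⟩, hy⟩ := gen_ell hP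
    obtain ⟨δ, hδ⟩ := exists_der_one M hx (2 * y)
    refine ⟨δ, ?_⟩
    have := cz (C := C) L
    have h2 : (2 : L) ≠ 0 := two_ne_zero
    change δ x / (2 * y) = 1
    rw [hδ]
    field_simp
  · intro L _ _ F D P hP h z hz
    have := cz (C := C) L
    rcases P with _ | ⟨x, y, hxy⟩
    · exact absurd hz (by change z ∉ ([] : List L); simp)
    · obtain ⟨h1, h2⟩ := der_pt D hxy
      have hx : x ∈ F := hP x (by change x ∈ [x, y]; simp)
      have hy : y ∈ F := hP y (by change y ∈ [x, y]; simp)
      replace hz : z ∈ [x, y] := hz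
      replace h : D x / (2 * y) ∈ F := h
      simp only [List.mem_cons, List.not_mem_nil, or_false] at hz
      rcases hz with rfl | rfl
      · rw [h1]
        exact mul_mem (mul_mem (ofNat_mem F 2) hy) h
      · rw [h2]
        exact mul_mem (add_mem (mul_mem (ofNat_mem F 3) (pow_mem hx 2))
          (IntermediateField.algebraMap_mem F a)) h
  · intro k K _ _ _ _ _ _ P hP htop
    rcases P with _ | ⟨x, y, hxy⟩
    · obtain ⟨z, hz, -⟩ := hP
      exact absurd hz (by change z ∉ ([] : List K); simp)
    · have h1 := ((WK_nonsingular a b x y).1 hxy).1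
      have hx : Transcendental k x := by
        obtain ⟨z, hz, hzt⟩ := hP
        replace hz : z ∈ [x, y] := hz
        simp only [List.mem_cons, List.not_mem_nil, or_false] at hz
        rcases hz with rfl | rfl
        · exact hzt
        · intro hx
          apply hzt
          have h4 : IsAlgebraic k (z ^ 2) := by
            rw [h1, IsScalarTower.algebraMap_apply C k K, IsScalarTower.algebraMap_apply C k K]
            exact ((hx.pow 3).add ((isAlgebraic_algebraMap _).mul hx)).add
              (isAlgebraic_algebraMap _)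
          exact IsAlgebraic.of_pow two_pos h4
      apply FF.IsFF.of_finite hx
      have hyi : IsIntegral k⟮x⟯ y := by
        have h5 : x ^ 3 + algebraMap C K a * x + algebraMap C K b ∈ k⟮x⟯ := by
          rw [IsScalarTower.algebraMap_apply C k K, IsScalarTower.algebraMap_apply C k K]
          have hxm : x ∈ k⟮x⟯ := mem_adjoin_simple_self k x
          exact add_mem (add_mem (pow_mem hxm 3)
            (mul_mem (IntermediateField.algebraMap_mem _ _) hxm))
            (IntermediateField.algebraMap_mem _ _)
        refine ⟨X ^ 2 - Polynomial.C (⟨_, h5⟩ : k⟮x⟯), monic_X_pow_sub_C _ two_ne_zero, ?_⟩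
        simp [h1]
      have h6 : IntermediateField.adjoin k⟮x⟯ {y} = ⊤ := by
        rw [← IntermediateField.restrictScalars_eq_top_iff (K := k),
          IntermediateField.restrictScalars_adjoin, eq_top_iff, ← htop]
        apply IntermediateField.adjoin_le_iff.2
        intro z hz
        replace hz : z ∈ [x, y] := hz
        simp only [List.mem_cons, List.not_mem_nil, or_false] at hz
        apply IntermediateField.subset_adjoin
        rcases hz with rfl | rfl
        · left; exact mem_adjoin_simple_self k z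
        · right; rfl
      have h7 : FiniteDimensional k⟮x⟯ (IntermediateField.adjoin k⟮x⟯ {y}) :=
        IntermediateField.adjoin.finiteDimensional hyi
      rw [h6] at h7
      exact IntermediateField.topEquiv.toLinearEquiv.finiteDimensional

end inst

end Pool.Agent.Helper6.EE
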