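import Pool.Agent.Helper6.EE.Lev

/-! The two phases of the tower of iterated exponentials, elliptic functions and integrals. -/

set_option autoImplicit false

open Polynomial IntermediateField

namespace Pool.Agent.Helper6.EE

variable {C : Type} [Field C] [CharZero C] [IsAlgClosed C] {L : Type} [Field L] [Algebra C L]

/-- groups which occur -/
def A3 (E : C → C → Prop) (τ : AGp C) : Prop := A1 E τ ∨ A2 E τ

variable {E : C → C → Prop}

omit [CharZero C] [IsAlgClosed C] in
theorem le_nxt' (A : AGp C → Prop) (D : Derivation C L L) (G : IntermediateField C L)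
    (U : Submodule C L) : G ≤ nxt A D G U := le_nxt A D G U

/-- the ambient differential field with the space of holomorphic elements -/
structure Setup (E : C → C → Prop) (D : Derivation C L L) (H : Submodule C L) (z : L) : Prop where
  con : ∀ x, D x = 0 → ∃ c : C, algebraMap C L c = x
  dz : D z = 1
  div : ∀ τ, A3 E τ → ∀ (P : τ.G L), (∃ g ∈ H, τ.lam D P = D g) → ∀ N : ℕ, 0 < N →
    ∃ P' : τ.G L, (N : ℤ) • P' = P

/-- derivatives of holomorphic elements of `G` -/
def U1 (D : Derivation C L L) (H : Submodule C L) (G : IntermediateField C L) :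
    Submodule C L where
  carrier := {x | ∃ g ∈ G, g ∈ H ∧ x = D g}
  add_mem' := by
    rintro _ _ ⟨g, h1, h2, rfl⟩ ⟨g', h3, h4, rfl⟩
    exact ⟨g + g', add_mem h1 h3, H.add_mem h2 h4, (map_add D g g').symm⟩
  zero_mem' := ⟨0, zero_mem _, H.zero_mem, (map_zero D).symm⟩
  smul_mem' := by
    rintro c _ ⟨g, h1, h2, rfl⟩
    exact ⟨c • g, IntermediateField.smul_mem _ h1, H.smul_mem c h2, (D.map_smul c g).symm⟩

/-- elements of `G` with a holomorphic primitive -/
def U2 (D : Derivation C L L) (H : Submodule C L) (G : IntermediateField C L) :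
    Submodule C L where
  carrier := {x | x ∈ G ∧ ∃ g ∈ H, x = D g}
  add_mem' := by
    rintro _ _ ⟨h1, g, h2, rfl⟩ ⟨h3, g', h4, rfl⟩
    exact ⟨add_mem h1 h3, g + g', H.add_mem h2 h4, (map_add D g g').symm⟩
  zero_mem' := ⟨zero_mem _, 0, H.zero_mem, (map_zero D).symm⟩
  smul_mem' := by
    rintro c _ ⟨h1, g, h2, rfl⟩
    exact ⟨IntermediateField.smul_mem _ h1, c • g, H.smul_mem c h2, (D.map_smul c g).symm⟩

variable {D : Derivation C L L} {H : Submodule C L} {z : L}

/-- invariants of the first phase -/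
structure Inv (E : C → C → Prop) (D : Derivation C L L) (H : Submodule C L) (G : IntermediateField C L)
    (U : Submodule C L) : Prop where
  stab : Stab D G
  a : ∀ τ, A1 E τ → ∀ Q : τ.G L, τ.Rat G Q → ∀ g ∈ G, g ∈ H → τ.lam D Q = D g → τ.lam D Q ∈ U
  b : ∀ τ, AE E τ → ∀ Q : τ.G L, τ.Rat G Q → τ.lam D Q ∈ U
  sat : ∀ τ, A1 E τ → ∀ P : τ.G L, τ.lam D P ∈ U → τ.Rat G P
  le : U ≤ U1 D H G

omit [IsAlgClosed C] in
theorem Inv.hyp (st : Setup E D H z) {G : IntermediateField C L} {U : Submodule C L}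
    (h : Inv E D H G U) : Hyp (A1 E) D G (U1 D H G) where
  nice := fun τ hτ => hτ.nice
  con := st.con
  stab := h.stab
  le := by
    rintro _ ⟨g, h1, h2, rfl⟩
    exact h.stab g h1
  div := by
    rintro τ hτ P ⟨g, h1, h2, h3⟩ N hN
    exact st.div τ (Or.inl hτ) P ⟨g, h2, h3⟩ N hN
  divG := by
    rintro τ hτ P hP ⟨g, h1, h2, h3⟩ N hN
    obtain ⟨P', hP'⟩ := st.div τ (Or.inl hτ) P ⟨g, h2, h3⟩ N hN
    refine ⟨P', ?_, hP'⟩
    apply h.sat τ hτ
    apply div_mem_U (n := N) (by exact_mod_cast hN.ne')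
    rw [← lam_nat_smul, hP']
    exact h.a τ hτ P hP g h1 h2 h3

theorem stab_nxt {A : AGp C → Prop} {G : IntermediateField C L} {U : Submodule C L}
    (hyp : Hyp A D G U) : Stab D (nxt A D G U) := by
  intro x hx
  obtain ⟨M, hM, hxM⟩ := mem_ch hyp hx
  exact hM.le_nxt (hM.stab hyp x hxM)

theorem Inv.next (st : Setup E D H z) {G : IntermediateField C L} {U : Submodule C L}
    (h : Inv E D H G U) : Inv E D H (nxt (A1 E) D G (U1 D H G)) (U1 D H G) where
  stab := stab_nxt (h.hyp st)
  a := by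
    intro τ hτ Q hQ g hg hgH hl
    obtain ⟨M, hM, hQM, hgM⟩ := rat_ch (h.hyp st) hQ {g} (by simpa using hg)
    exact lev_a (h.hyp st) (fun _ h => h) (H := H) (fun x => Iff.rfl) hM hτ.tgt hQM
      (hgM g (by simp)) hgH hl
  b := by
    intro τ hτ Q hQ
    obtain ⟨M, hM, hQM, -⟩ := rat_ch (h.hyp st) hQ ∅ (by simp)
    exact lev_b (h.hyp st) (fun τ hτ => Or.inl hτ.src) (U1 D H G) le_rfl hτ.tgtE
      (fun Q hQ => h.le (h.b τ hτ Q hQ)) hM hQM
  sat := fun τ hτ P hl => sat_nxt hτ hl
  le := by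
    rintro _ ⟨g, h1, h2, rfl⟩
    exact ⟨g, le_nxt _ _ _ _ h1, h2, rfl⟩

omit [CharZero C] in
theorem z_trans (con : ∀ x, D x = 0 → ∃ c : C, algebraMap C L c = x) (dz : D z = 1) :
    Transcendental (⊥ : IntermediateField C L) z := by
  intro h
  have hb : Algebra.IsAlgebraic C (⊥ : IntermediateField C L) := ⟨fun x => by
    obtain ⟨c, hc⟩ := IntermediateField.mem_bot.1 x.2
    have : x = algebraMap C (⊥ : IntermediateField C L) c := Subtype.ext hc.symm
    rw [this]
    exact isAlgebraic_algebraMap c⟩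
  have h1 : IsAlgebraic C z := IsAlgebraic.restrictScalars C h
  have := minpoly.mem_range_of_degree_eq_one C z
    (IsAlgClosed.degree_eq_one_of_irreducible C (minpoly.irreducible h1.isIntegral))
  obtain ⟨c, hc⟩ := this
  rw [← hc, D.map_algebraMap] at dz
  exact zero_ne_one dz

/-- the field of rational functions -/
noncomputable def Gz (z : L) : IntermediateField C L := (Ga : AGp C).adj ⊥ (z : L)

theorem Inv.zero (st : Setup E D H z) : Inv E D H (Gz z) ⊥ := by
  have hgen : (Ga : AGp C).Gen (⊥ : IntermediateField C L) (z : L) :=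
    ⟨z, List.mem_singleton_self z, z_trans st.con st.dz⟩
  have hM : ∀ x ∈ (⊥ : IntermediateField C L), D x = 0 := by
    intro x hx
    obtain ⟨c, rfl⟩ := IntermediateField.mem_bot.1 hx
    exact D.map_algebraMap c
  have hP : (Ga : AGp C).lam D (z : L) = 1 := st.dz
  constructor
  · exact stab_adj nice_Ga (fun x hx => by rw [hM x hx]; exact zero_mem _)
      (by rw [hP]; exact one_mem _)
  · intro τ hτ Q hQ g hg hgH hl
    have h1 := trD nice_Ga hgen hM hP hτ.tgt hQ hg hl
    rw [Submodule.mem_bot, hl]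
    exact hM g h1
  · intro τ hτ Q hQ
    rw [Submodule.mem_bot]
    exact trA' nice_Ga hgen hM hP srcA_Ga hτ.tgtE hQ
  · intro τ hτ P hl
    rw [Submodule.mem_bot] at hl
    exact rat_const st.con hl _
  · exact bot_le

/-- the levels of the first phase -/
noncomputable def G1 (E : C → C → Prop) (D : Derivation C L L) (H : Submodule C L) (z : L) :
    ℕ → IntermediateField C L
  | 0 => Gz z
  | n + 1 => nxt (A1 E) D (G1 E D H z n) (U1 D H (G1 E D H z n))

theorem inv_G1 (st : Setup E D H z) (n : ℕ) : ∃ U, Inv E D H (G1 E D H z n) U := by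
  induction n with
  | zero => exact ⟨⊥, Inv.zero st⟩
  | succ n ih =>
    obtain ⟨U, hU⟩ := ih
    exact ⟨_, hU.next st⟩

/-- union of an increasing sequence of intermediate fields -/
def unionF (F : ℕ → IntermediateField C L) (h : ∀ n, F n ≤ F (n + 1)) :
    IntermediateField C L where
  carrier := {x | ∃ n, x ∈ F n}
  mul_mem' := by
    rintro a b ⟨n, hn⟩ ⟨m, hm⟩
    have hmono := monotone_nat_of_le_succ h
    exact ⟨max n m, mul_mem (hmono (le_max_left n m) hn) (hmono (le_max_right n m) hm)⟩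
  add_mem' := by
    rintro a b ⟨n, hn⟩ ⟨m, hm⟩
    have hmono := monotone_nat_of_le_succ h
    exact ⟨max n m, add_mem (hmono (le_max_left n m) hn) (hmono (le_max_right n m) hm)⟩
  algebraMap_mem' := fun c => ⟨0, IntermediateField.algebraMap_mem _ c⟩
  inv_mem' := by
    rintro a ⟨n, hn⟩
    exact ⟨n, inv_mem hn⟩

omit [CharZero C] [IsAlgClosed C] in
theorem mem_unionF {F : ℕ → IntermediateField C L} {h : ∀ n, F n ≤ F (n + 1)} {x : L} :
    x ∈ unionF F h ↔ ∃ n, x ∈ F n := Iff.rfl

omit [CharZero C] [IsAlgClosed C] in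
theorem fin_unionF {F : ℕ → IntermediateField C L} {h : ∀ n, F n ≤ F (n + 1)} (S : List L)
    (hS : ∀ x ∈ S, x ∈ unionF F h) : ∃ n, ∀ x ∈ S, x ∈ F n := by
  have hmono := monotone_nat_of_le_succ h
  induction S with
  | nil => exact ⟨0, by simp⟩
  | cons a S ih =>
    obtain ⟨n, hn⟩ := ih (fun x hx => hS x (List.mem_cons_of_mem a hx))
    obtain ⟨m, hm⟩ := hS a List.mem_cons_self
    refine ⟨max n m, fun x hx => ?_⟩
    rw [List.mem_cons] at hx
    rcases hx with rfl | hx
    · exact hmono (le_max_right n m) hm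
    · exact hmono (le_max_left n m) (hn x hx)

/-- the union of the first phase -/
noncomputable def G1inf (E : C → C → Prop) (D : Derivation C L L) (H : Submodule C L) (z : L) :
    IntermediateField C L := unionF (G1 E D H z) (fun _ => le_nxt _ _ _ _)

/-- invariants of the second phase -/
structure Inv2 (E : C → C → Prop) (D : Derivation C L L) (H : Submodule C L) (G : IntermediateField C L) : Prop where
  stab : Stab D G
  divE : ∀ τ, AE E τ → ∀ Q : τ.G L, τ.Rat G Q → τ.lam D Q ∈ U2 D H G → ∀ N : ℕ, 0 < N →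
    ∃ Q' : τ.G L, τ.Rat G Q' ∧ (N : ℤ) • Q' = Q

theorem Inv2.zero (st : Setup E D H z) : Inv2 E D H (G1inf E D H z) := by
  constructor
  · rintro x ⟨n, hn⟩
    obtain ⟨U, hU⟩ := inv_G1 st n
    exact ⟨n, hU.stab x hn⟩
  · rintro τ hτ Q hQ ⟨-, g, hg, hl⟩ N hN
    obtain ⟨n, hn⟩ := fin_unionF (τ.coord Q) hQ
    obtain ⟨U, hU⟩ := inv_G1 st n
    obtain ⟨Q', hQ'⟩ := st.div τ (Or.inl hτ.a1) Q ⟨g, hg, hl⟩ N hN
    refine ⟨Q', ?_, hQ'⟩
    intro x hx
    refine ⟨n, hU.sat τ hτ.a1 Q' ?_ x hx⟩
    apply div_mem_U (n := N) (by exact_mod_cast hN.ne')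
    rw [← lam_nat_smul, hQ']
    exact hU.b τ hτ Q hn

omit [IsAlgClosed C] in
theorem Inv2.hyp (st : Setup E D H z) {G : IntermediateField C L} (h : Inv2 E D H G) :
    Hyp (A2 E) D G (U2 D H G) where
  nice := fun τ hτ => hτ.nice
  con := st.con
  stab := h.stab
  le := fun x hx => hx.1
  div := by
    rintro τ hτ P ⟨-, hg⟩ N hN
    exact st.div τ (Or.inr hτ) P hg N hN
  divG := by
    intro τ hτ P hP hl N hN
    rcases hτ with rfl | hτ
    · have hL := cz (C := C) L
      let p : L := P
      have hp : p ∈ G := hP p (List.mem_singleton_self p)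
      have hN0 : (N : L) ≠ 0 := by exact_mod_cast hN.ne'
      refine ⟨(p / N : L), ?_, ?_⟩
      · intro x hx
        have hx' : x ∈ [p / N] := hx
        rw [List.mem_singleton] at hx'
        rw [hx']
        exact div_mem hp (_root_.natCast_mem G N)
      · change (N : ℤ) • (p / N : L) = p
        rw [zsmul_eq_mul]
        push_cast
        field_simp
    · exact h.divE τ hτ P hP hl N hN

omit [IsAlgClosed C] [CharZero C] in
theorem lam_stab {τ : AGp C} {G : IntermediateField C L} (hst : Stab D G) {Q : τ.G L}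
    (hQ : τ.Rat G Q) : τ.lam D Q ∈ G := by
  obtain ⟨Q₀, hQ₀⟩ := (τ.rat_iff _ _).1 hQ
  rw [← hQ₀, lam_rs τ D _ hst]
  exact Subtype.prop _

theorem Inv2.next (st : Setup E D H z) {G : IntermediateField C L} (h : Inv2 E D H G) :
    Inv2 E D H (nxt (A2 E) D G (U2 D H G)) := by
  constructor
  · exact stab_nxt (h.hyp st)
  · intro τ hτ Q hQ hl N hN
    obtain ⟨M, hM, hQM, -⟩ := rat_ch (h.hyp st) hQ ∅ (by simp)
    have h1 : τ.lam D Q ∈ (Subalgebra.toSubmodule G.toSubalgebra) := by
      refine lev_b (h.hyp st) (fun τ hτ => ?_) (Subalgebra.toSubmodule G.toSubalgebra)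
        (fun x hx => hx.1) hτ.tgtE (fun Q hQ => lam_stab h.stab hQ) hM hQM
      rcases hτ with rfl | hτ
      · exact Or.inr srcA_Ga
      · exact Or.inl (AE.src hτ)
    have h2 : τ.lam D Q ∈ U2 D H G := ⟨h1, hl.2⟩
    obtain ⟨Q', hQ'⟩ := st.div τ (Or.inl hτ.a1) Q hl.2 N hN
    refine ⟨Q', ?_, hQ'⟩
    apply sat_nxt hτ.a2
    apply div_mem_U (n := N) (by exact_mod_cast hN.ne')
    rw [← lam_nat_smul, hQ']
    exact h2

/-- the levels of the second phase -/
noncomputable def G2 (E : C → C → Prop) (D : Derivation C L L) (H : Submodule C L) (z : L) :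
    ℕ → IntermediateField C L
  | 0 => G1inf E D H z
  | n + 1 => nxt (A2 E) D (G2 E D H z n) (U2 D H (G2 E D H z n))

theorem inv_G2 (st : Setup E D H z) (n : ℕ) : Inv2 E D H (G2 E D H z n) := by
  induction n with
  | zero => exact Inv2.zero st
  | succ n ih => exact ih.next st

/-- the union of the second phase -/
noncomputable def G2inf (E : C → C → Prop) (D : Derivation C L L) (H : Submodule C L) (z : L) :
    IntermediateField C L := unionF (G2 E D H z) (fun _ => le_nxt _ _ _ _)

/-- fields generated by successive generic points -/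
inductive Good (E : C → C → Prop) : IntermediateField C L → Prop
  | bot : Good E ⊥
  | step {F : IntermediateField C L} {τ : AGp C} {P : τ.G L} :
      Good E F → A3 E τ → τ.Gen F P → Good E (τ.adj F P)

/-- finite subsets lie in good subfields -/
def FinGood (E : C → C → Prop) (G : IntermediateField C L) : Prop :=
  ∀ S : Finset L, (∀ x ∈ S, x ∈ G) → ∃ F, Good E F ∧ F ≤ G ∧ ∀ x ∈ S, x ∈ F

omit [IsAlgClosed C] [CharZero C] in
theorem adj_eq (τ : AGp C) (M : IntermediateField C L) (P : τ.G L) :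
    τ.adj M P = IntermediateField.adjoin C ((M : Set L) ∪ {x | x ∈ τ.coord P}) := by
  apply le_antisymm
  · apply τ.adj_le
    · exact fun x hx => IntermediateField.subset_adjoin C _ (Or.inl hx)
    · exact fun x hx => IntermediateField.subset_adjoin C _ (Or.inr hx)
  · apply IntermediateField.adjoin_le_iff.2
    rintro x (hx | hx)
    · exact τ.le_adj M P hx
    · exact τ.rat_adj M P x hx

omit [IsAlgClosed C] in
theorem good_ch {A : AGp C → Prop} (hA : ∀ τ, A τ → A3 E τ) {G : IntermediateField C L}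
    {U : Submodule C L} (hG : FinGood E G) {M : IntermediateField C L} (h : Ch A D G U M) :
    FinGood E M := by
  classical
  induction h with
  | base => exact hG
  | @step M τ P h0 hAτ hP hl ih =>
    intro S hS
    have h1 : ∀ x ∈ S, ∃ T : Finset L, (T : Set L) ⊆ (M : Set L) ∪ {x | x ∈ τ.coord P} ∧
        x ∈ IntermediateField.adjoin C (T : Set L) := by
      intro x hx
      have h2 := hS x hx
      rw [adj_eq] at h2
      exact IntermediateField.exists_finset_of_mem_adjoin h2
    choose! T hT1 hT2 using h1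
    let S₀ := (S.biUnion T).filter (fun x => x ∈ M)
    obtain ⟨F, hF1, hF2, hF3⟩ := ih S₀ (fun x hx => (Finset.mem_filter.1 hx).2)
    refine ⟨τ.adj F P, Good.step hF1 (hA τ hAτ) (gen_mono hP hF2), τ.adj_mono hF2, ?_⟩
    intro x hx
    have h3 : IntermediateField.adjoin C (T x : Set L) ≤ τ.adj F P := by
      apply IntermediateField.adjoin_le_iff.2
      intro y hy
      by_cases hyM : y ∈ M
      · apply τ.le_adj
        apply hF3
        apply Finset.mem_filter.2
        exact ⟨Finset.mem_biUnion.2 ⟨x, hx, hy⟩, hyM⟩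
      · rcases hT1 x hx hy with h4 | h4
        · exact absurd h4 hyM
        · exact τ.rat_adj F P y h4
    exact h3 (hT2 x hx)

theorem good_nxt {A : AGp C → Prop} (hA : ∀ τ, A τ → A3 E τ) {G : IntermediateField C L}
    {U : Submodule C L} (hyp : Hyp A D G U) (hG : FinGood E G) : FinGood E (nxt A D G U) := by
  intro S hS
  obtain ⟨M, hM, h1⟩ := fin_ch hyp S hS
  obtain ⟨F, h2, h3, h4⟩ := good_ch hA hG hM S h1
  exact ⟨F, h2, h3.trans hM.le_nxt, h4⟩

theorem good_G1 (st : Setup E D H z) (n : ℕ) : FinGood E (G1 E D H z n) := by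
  induction n with
  | zero =>
    intro S hS
    refine ⟨Gz z, ?_, le_rfl, hS⟩
    exact Good.step Good.bot (Or.inr (Or.inl rfl))
      ⟨z, List.mem_singleton_self z, z_trans st.con st.dz⟩
  | succ n ih =>
    obtain ⟨U, hU⟩ := inv_G1 st n
    exact good_nxt (fun τ h => Or.inl h) (hU.hyp st) ih

omit [IsAlgClosed C] in
theorem good_union {F : ℕ → IntermediateField C L} {h : ∀ n, F n ≤ F (n + 1)} :
    (∀ n, FinGood E (F n)) → FinGood E (unionF F h) := by
  intro hF S hS
  obtain ⟨n, hn⟩ := fin_unionF S.toList (fun x hx => hS x (Finset.mem_toList.1 hx))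
  obtain ⟨E, h1, h2, h3⟩ := hF n S (fun x hx => hn x (Finset.mem_toList.2 hx))
  exact ⟨E, h1, h2.trans (fun x hx => ⟨n, hx⟩), h3⟩

theorem good_G2 (st : Setup E D H z) (n : ℕ) : FinGood E (G2 E D H z n) := by
  induction n with
  | zero => exact good_union (h := fun _ => le_nxt _ _ _ _) (good_G1 st)
  | succ n ih => exact good_nxt (fun τ h => Or.inr h) ((inv_G2 st n).hyp st) ih

/-- the main theorem on towers -/
theorem good_G2inf (st : Setup E D H z) : FinGood E (G2inf E D H z) :=
  good_union (h := fun _ => le_nxt _ _ _ _) (good_G2 st)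

end Pool.Agent.Helper6.EE
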