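import Pool.Agent.Helper6.EE.Lat
import Pool.Agent.Helper6.EE.Tow
import Pool.Agent.Helper6.EE.Cls
import Pool.Graph.R_pool_sql_team_seeded_b677cdb8.E8helper4.EL.Germ

/-! Germs of nested exponential and elliptic functions. -/

set_option autoImplicit false

open WeierstrassCurve Filter Topology
open scoped PeriodPair

namespace Pool.Agent.Helper6.EE

open Pool.Agent.Y377.IL Pool.Agent.E8helper4.EL
open Pool.Agent.Y564.IL (t_TAY)

/-- curves of lattices -/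
def EL (a b : ℂ) : Prop := ∃ Λ : PeriodPair, a = aL Λ ∧ b = bL Λ

/-- the derivation of the field of germs -/
structure GD (D : Derivation ℂ LK LK) : Prop where
  hD : ∀ f : PowerSeries ℂ, D (algebraMap _ _ f) = algebraMap _ _ (PowerSeries.derivative ℂ f)
  con : ∀ x, D x = 0 → ∃ c, algebraMap ℂ LK c = x

theorem exists_GD : ∃ D : Derivation ℂ LK LK, GD D := by
  obtain ⟨D, hD, hC⟩ := Pool.Agent.Y884.IL.t_FRC
  refine ⟨D, hD, fun x hx => ?_⟩
  obtain ⟨c, hc⟩ := hC x hx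
  exact ⟨c, hc.symm⟩

variable {D : Derivation ℂ LK LK} {z0 : ℂ}

theorem GD.dz (h : GD D) (z0 : ℂ) : D (ty z0 (fun z => z)) = 1 := by
  have hid : AnalyticAt ℂ (fun z : ℂ => z) z0 := analyticAt_id
  rw [ty_deriv t_TAY h.hD hid, ← map_one (algebraMap ℂ LK), ← ty_const t_TAY (1 : ℂ)]
  apply ty_congr t_TAY
  refine Eventually.of_forall fun z => ?_
  exact deriv_id z

theorem wp_an {Λ : PeriodPair} {f : ℂ → ℂ} (hf : AnalyticAt ℂ f z0) (h : f z0 ∉ Λ.lattice) :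
    AnalyticAt ℂ (fun z => ℘[Λ] (f z)) z0 :=
  (Λ.analyticOnNhd_weierstrassP (f z0) h).comp hf

theorem wp'_an {Λ : PeriodPair} {f : ℂ → ℂ} (hf : AnalyticAt ℂ f z0) (h : f z0 ∉ Λ.lattice) :
    AnalyticAt ℂ (fun z => ℘'[Λ] (f z)) z0 :=
  (Λ.analyticOnNhd_derivWeierstrassP (f z0) h).comp hf

theorem ev_not {Λ : PeriodPair} {f : ℂ → ℂ} (hf : AnalyticAt ℂ f z0) (h : f z0 ∉ Λ.lattice) :
    ∀ᶠ z in 𝓝 z0, f z ∉ Λ.lattice :=
  hf.continuousAt.preimage_mem_nhds (Λ.isClosed_lattice.isOpen_compl.mem_nhds h)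

/-- the point with a given logarithm -/
theorem exists_pt (h : GD D) (Λ : PeriodPair) {f : ℂ → ℂ} (hf : AnalyticAt ℂ f z0)
    (h0 : f z0 ∉ Λ.lattice) : ∃ R : (Ell (aL Λ) (bL Λ)).G LK,
      (Ell (aL Λ) (bL Λ)).coord R = [ty z0 (fun z => ℘[Λ] (f z)), ty z0 (fun z => ℘'[Λ] (f z) / 2)] ∧
      (Ell (aL Λ) (bL Λ)).lam D R = D (ty z0 f) := by
  have hx := wp_an (Λ := Λ) hf h0
  have hy' := wp'_an (Λ := Λ) hf h0
  have hy : AnalyticAt ℂ (fun z => ℘'[Λ] (f z) / 2) z0 := hy'.div analyticAt_const two_ne_zero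
  have hev := ev_not hf h0
  have hX2 : AnalyticAt ℂ (fun z => ℘[Λ] (f z) * ℘[Λ] (f z)) z0 := hx.mul hx
  have hX3 : AnalyticAt ℂ (fun z => ℘[Λ] (f z) * (℘[Λ] (f z) * ℘[Λ] (f z))) z0 :=
    hx.mul hX2
  have haX : AnalyticAt ℂ (fun z => aL Λ * ℘[Λ] (f z)) z0 := analyticAt_const.mul hx
  have hs1 : AnalyticAt ℂ (fun z => ℘[Λ] (f z) * (℘[Λ] (f z) * ℘[Λ] (f z)) + aL Λ * ℘[Λ] (f z)) z0 :=
    hX3.add haX
  have heq : ty z0 (fun z => ℘'[Λ] (f z) / 2) ^ 2 = ty z0 (fun z => ℘[Λ] (f z)) ^ 3 +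
      algebraMap ℂ LK (aL Λ) * ty z0 (fun z => ℘[Λ] (f z)) + algebraMap ℂ LK (bL Λ) := by
    have e1 : ty z0 (fun z => ℘'[Λ] (f z) / 2) ^ 2 =
        ty z0 (fun z => ℘'[Λ] (f z) / 2 * (℘'[Λ] (f z) / 2)) := by
      rw [ty_mul t_TAY hy hy, sq]
    have e2 : ty z0 (fun z => ℘[Λ] (f z)) ^ 3 + algebraMap ℂ LK (aL Λ) *
        ty z0 (fun z => ℘[Λ] (f z)) + algebraMap ℂ LK (bL Λ) = ty z0 (fun z =>
          (℘[Λ] (f z) * (℘[Λ] (f z) * ℘[Λ] (f z)) + aL Λ * ℘[Λ] (f z)) + bL Λ) := by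
      rw [ty_add t_TAY hs1 analyticAt_const, ty_add t_TAY hX3 haX, ty_mul t_TAY hx hX2,
        ty_mul t_TAY hx hx, ty_mul t_TAY analyticAt_const hx, ty_const t_TAY, ty_const t_TAY]
      ring
    rw [e1, e2]
    apply ty_congr t_TAY
    filter_upwards [hev] with z hz
    have := eqL hz
    linear_combination this
  have hns := wL_nonsing Λ heq
  have hK := cz (C := ℂ) LK
  refine ⟨Affine.Point.some _ _ hns, rfl, ?_⟩
  change D (ty z0 fun z => ℘[Λ] (f z)) / (2 * ty z0 fun z => ℘'[Λ] (f z) / 2) = D (ty z0 f)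
  apply der_pt_unique D hns
  · rw [ty_deriv t_TAY h.hD hx, ty_deriv t_TAY h.hD hf]
    have e3 : (2 : LK) * ty z0 (fun z => ℘'[Λ] (f z) / 2) * ty z0 (deriv f) =
        ty z0 (fun z => ℘'[Λ] (f z) * deriv f z) := by
      have e4 : ty z0 (fun z => ℘'[Λ] (f z)) = 2 * ty z0 (fun z => ℘'[Λ] (f z) / 2) := by
        have e5 : (2 : LK) = ty z0 (fun _ => (2 : ℂ)) := by
          rw [ty_const t_TAY, map_ofNat]
        rw [e5, ← ty_mul t_TAY analyticAt_const hy]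
        congr 1
        funext z
        ring
      rw [ty_mul t_TAY hy' hf.deriv, e4]
    rw [e3]
    apply ty_congr t_TAY
    filter_upwards [hev, hf.eventually_analyticAt] with z hz hz'
    have h1 := (Helper487.ECM.hasDerivAt_wp Λ 0 (z := f z) hz)
    rw [Helper487.ECM.wp_zero_eq] at h1
    have h2 := (h1.comp z hz'.differentiableAt.hasDerivAt).deriv
    rw [zero_add, Helper487.ECM.wp_one_eq] at h2
    exact h2
  · rw [ty_deriv t_TAY h.hD hy, ty_deriv t_TAY h.hD hf]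
    have hq1 : AnalyticAt ℂ (fun z => 3 * (℘[Λ] (f z) * ℘[Λ] (f z))) z0 :=
      analyticAt_const.mul hX2
    have hq : AnalyticAt ℂ (fun z => 3 * (℘[Λ] (f z) * ℘[Λ] (f z)) + aL Λ) z0 :=
      hq1.add analyticAt_const
    have e3 : ((3 : LK) * ty z0 (fun z => ℘[Λ] (f z)) ^ 2 + algebraMap ℂ LK (aL Λ)) *
        ty z0 (deriv f) =
        ty z0 (fun z => (3 * (℘[Λ] (f z) * ℘[Λ] (f z)) + aL Λ) * deriv f z) := by
      have e5 : (3 : LK) = ty z0 (fun _ => (3 : ℂ)) := by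
        rw [ty_const t_TAY, map_ofNat]
      rw [ty_mul t_TAY hq hf.deriv, ty_add t_TAY hq1 analyticAt_const,
        ty_mul t_TAY analyticAt_const hX2, ty_mul t_TAY hx hx, ty_const t_TAY (aL Λ), e5]
      ring
    rw [e3]
    apply ty_congr t_TAY
    filter_upwards [hev, hf.eventually_analyticAt] with z hz hz'
    have h1 := (Helper487.ECM.hasDerivAt_wp Λ 1 (z := f z) hz)
    rw [Helper487.ECM.wp_one_eq] at h1
    have h2 := ((h1.comp z hz'.differentiableAt.hasDerivAt).div_const 2).deriv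
    rw [show 1 + 1 = 2 from rfl, Helper487.ECM.wp_two Λ hz, Helper487.ECM.wp_zero_eq] at h2
    have h3 : deriv (fun z => ℘'[Λ] (f z) / 2) z =
      (6 * ℘[Λ] (f z) ^ 2 - Λ.g₂ / 2) * deriv f z / 2 := h2
    rw [h3]
    unfold aL
    ring

/-- the unit with a given logarithm -/
theorem exists_unit (h : GD D) {f : ℂ → ℂ} (hf : AnalyticAt ℂ f z0) :
    ∃ R : (Gm : AGp ℂ).G LK, (Gm : AGp ℂ).coord R = [ty z0 (fun z => Complex.exp (f z))] ∧
      (Gm : AGp ℂ).lam D R = D (ty z0 f) := by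
  have h0 : ty z0 (fun z => Complex.exp (f z)) ≠ 0 := by
    rw [Ne, ty_zero t_TAY (an_exp hf)]
    intro h
    exact Complex.exp_ne_zero _ h.self_of_nhds
  refine ⟨Additive.ofMul (Units.mk0 _ h0), rfl, ?_⟩
  change D (ty z0 fun z => Complex.exp (f z)) / ty z0 (fun z => Complex.exp (f z)) = D (ty z0 f)
  rw [div_eq_iff h0, ty_deriv t_TAY h.hD (an_exp hf), ty_deriv t_TAY h.hD hf,
    ← ty_mul t_TAY hf.deriv (an_exp hf)]
  apply ty_congr t_TAY
  filter_upwards [hf.eventually_analyticAt] with z hz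
  have h1 := (hz.differentiableAt.hasDerivAt.cexp).deriv
  rw [h1]
  ring

end Pool.Agent.Helper6.EE
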