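import Pool.Agent.Helper6.EE.Ent

/-! Independence of iterated exponentials and of Weierstrass functions of them. -/

set_option autoImplicit false

open WeierstrassCurve Filter Topology
open scoped PeriodPair

namespace Pool.Agent.Helper6.EE

open Pool.Agent.Y377.IL Pool.Agent.E8helper4.EL
open Pool.Agent.Y564.IL (t_TAY)

section
variable {C : Type} [Field C] [CharZero C] [IsAlgClosed C] {L : Type} [Field L] [Algebra C L]
variable {E : C → C → Prop} {D : Derivation C L L} {H : Submodule C L} {z : L}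

/-- points with a new logarithmic derivative are generic -/
theorem Inv.gen (st : Setup E D H z) {G : IntermediateField C L} {U : Submodule C L}
    (h : Inv E D H G U) {g : L} (hg : g ∈ G) (hgH : g ∈ H) (hne : D g ∉ U) {τ : AGp C}
    (hτ : A1 E τ) {P : τ.G L} (hl : τ.lam D P = D g) : τ.Gen G P := by
  by_contra hP
  apply hne
  obtain ⟨n, hn, hr⟩ := descent hτ.nice st.con h.stab hP (by rw [hl]; exact h.stab g hg)
  have h1 : τ.lam D ((n : ℤ) • P) = D ((n : C) • g) := by
    rw [lam_nat_smul, hl, D.map_smul, Algebra.smul_def, map_natCast]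
    push_cast
    rfl
  have h2 := h.a τ hτ _ hr ((n : C) • g) (IntermediateField.smul_mem _ hg) (H.smul_mem _ hgH) h1
  apply div_mem_U (n := n) (by exact_mod_cast hn.ne')
  rw [lam_nat_smul, hl] at h2
  exact h2

theorem gen_zero (st : Setup E D H z) {g : L} (hg : g ∈ G1 E D H z 0) (hgH : g ∈ H)
    (hne : D g ≠ 0) {τ : AGp C} (hτ : A1 E τ) {P : τ.G L} (hl : τ.lam D P = D g) :
    τ.Gen (G1 E D H z 0) P :=
  (Inv.zero st).gen st hg hgH (by rw [Submodule.mem_bot]; exact hne) hτ hl

theorem gen_succ (st : Setup E D H z) {n : ℕ} {g : L} (hg : g ∈ G1 E D H z (n + 1)) (hgH : g ∈ H)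
    (hne : g ∉ G1 E D H z n) {τ : AGp C} (hτ : A1 E τ) {P : τ.G L} (hl : τ.lam D P = D g) :
    τ.Gen (G1 E D H z (n + 1)) P := by
  obtain ⟨U, hU⟩ := inv_G1 st n
  refine (hU.next st).gen st hg hgH ?_ hτ hl
  rintro ⟨g', h1, -, h2⟩
  apply hne
  obtain ⟨c, hc⟩ := st.con (g - g') (by rw [map_sub, h2, sub_self])
  have h3 : g = algebraMap C L c + g' := by rw [hc]; ring
  rw [h3]
  exact add_mem (IntermediateField.algebraMap_mem _ c) h1

end

section
variable {D : Derivation ℂ LK LK} {z0 : ℂ}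

/-- the levels of the first phase for the germs at `z0` -/
noncomputable abbrev GG1 (D : Derivation ℂ LK LK) (z0 : ℂ) (n : ℕ) : IntermediateField ℂ LK :=
  G1 EL D (germH z0) (ty z0 fun z => z) n

theorem GG1_mono {m n : ℕ} (h : m ≤ n) : GG1 D z0 m ≤ GG1 D z0 n :=
  monotone_nat_of_le_succ (f := GG1 D z0) (fun _ => le_nxt _ _ _ _) h

theorem iterH (n : ℕ) : ty z0 (iterExp n) ∈ germH z0 := ⟨_, iterExp_an n z0, rfl⟩

/-- generic points over the iterated exponentials -/
theorem iter_gen (h : GD D) (n : ℕ) : ty z0 (iterExp n) ∈ GG1 D z0 n ∧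
    ∀ (τ : AGp ℂ), A1 EL τ → ∀ P : τ.G LK, τ.lam D P = D (ty z0 (iterExp n)) →
      τ.Gen (GG1 D z0 n) P := by
  have st := setup h z0
  induction n with
  | zero =>
    have h1 : ty z0 (iterExp 0) ∈ GG1 D z0 0 :=
      (Ga : AGp ℂ).rat_adj ⊥ _ _ (List.mem_singleton_self _)
    refine ⟨h1, fun τ hτ P hl => gen_zero st h1 (iterH 0) ?_ hτ hl⟩
    have h2 : D (ty z0 (iterExp 0)) = 1 := h.dz z0
    rw [h2]
    exact one_ne_zero
  | succ n ih =>
    obtain ⟨i1, i2⟩ := ih
    obtain ⟨R, hc, hl⟩ := exists_unit h (iterExp_an n z0)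
    have hg := i2 Gm (Or.inl rfl) R hl
    have h1 : ty z0 (iterExp (n + 1)) ∈ GG1 D z0 (n + 1) := by
      have hU : (Gm : AGp ℂ).lam D R ∈ U1 D (germH z0) (GG1 D z0 n) := ⟨_, i1, iterH n, hl⟩
      exact sat_nxt (A := A1 EL) (Or.inl rfl) hU _ (by rw [hc]; exact List.mem_singleton_self _)
    refine ⟨h1, fun τ hτ P hl' => gen_succ st h1 (iterH _) ?_ hτ hl'⟩
    obtain ⟨x, hx, hxt⟩ := hg
    rw [hc, List.mem_singleton] at hx
    intro hmem
    apply hxt
    rw [hx]
    exact isAlgebraic_algebraMap (⟨_, hmem⟩ : GG1 D z0 n)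

/-- the choice of the functions: `z`, and then iterated exponentials or Weierstrass functions of
them -/
noncomputable def seqF (c : ℕ → Option PeriodPair) : ℕ → ℂ → ℂ
  | 0 => fun z => z
  | n + 1 => (c n).elim (iterExp (n + 1)) (fun Λ z => ℘[Λ] (iterExp n z))

theorem seq_step (h : GD D) (c : ℕ → Option PeriodPair)
    (hz : ∀ n Λ, c n = some Λ → iterExp n z0 ∉ Λ.lattice) (n : ℕ) :
    ty z0 (seqF c n) ∈ GG1 D z0 n ∧ Transcendental (GG1 D z0 n) (ty z0 (seqF c (n + 1))) := by
  have st := setup h z0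
  have hEL : ∀ Λ : PeriodPair, AE EL (Ell (aL Λ) (bL Λ)) := fun Λ =>
    ⟨_, _, ⟨Λ, rfl, rfl⟩, disc_L Λ, rfl⟩
  have key : ∀ n, ty z0 (seqF c (n + 1)) ∈ GG1 D z0 (n + 1) ∧
      Transcendental (GG1 D z0 n) (ty z0 (seqF c (n + 1))) := by
    intro n
    obtain ⟨i1, i2⟩ := iter_gen (z0 := z0) h n
    rcases hc : c n with _ | Λ
    · have e : seqF c (n + 1) = iterExp (n + 1) := by
        simp only [seqF, hc, Option.elim]
      rw [e]
      refine ⟨(iter_gen h (n + 1)).1, ?_⟩
      obtain ⟨R, hR, hl⟩ := exists_unit h (iterExp_an n z0)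
      obtain ⟨x, hx, hxt⟩ := i2 Gm (Or.inl rfl) R hl
      rw [hR, List.mem_singleton] at hx
      rw [hx] at hxt
      exact hxt
    · have e : seqF c (n + 1) = fun z => ℘[Λ] (iterExp n z) := by
        simp only [seqF, hc, Option.elim]
      rw [e]
      obtain ⟨R, hR, hl⟩ := exists_pt h Λ (iterExp_an n z0) (hz n Λ hc)
      have hg := i2 _ (Or.inr (hEL Λ)) R hl
      constructor
      · have hU : (Ell (aL Λ) (bL Λ)).lam D R ∈ U1 D (germH z0) (GG1 D z0 n) :=
          ⟨_, i1, iterH n, hl⟩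
        exact sat_nxt (A := A1 EL) (Or.inr (hEL Λ)) hU _ (by rw [hR]; exact List.mem_cons_self)
      · obtain ⟨x, y, hxy, hx, -⟩ := gen_ell hg
        rw [hR, List.cons.injEq] at hxy
        rw [hxy.1]
        exact hx
  refine ⟨?_, (key n).2⟩
  cases n with
  | zero => exact (iter_gen h 0).1
  | succ n => exact (key n).1

theorem seq_indep (h : GD D) (c : ℕ → Option PeriodPair)
    (hz : ∀ n Λ, c n = some Λ → iterExp n z0 ∉ Λ.lattice) (n : ℕ) :
    AlgebraicIndependent ℂ (fun i : Fin (n + 1) => ty z0 (seqF c i)) := by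
  induction n with
  | zero =>
    have : Subsingleton (Fin (0 + 1)) := inferInstanceAs (Subsingleton (Fin 1))
    rw [algebraicIndependent_singleton_iff (0 : Fin (0 + 1))]
    exact trans_of_der (h.dz z0)
  | succ n ih =>
    have h4 := indep_option ih (F := GG1 D z0 n)
      (fun i => GG1_mono (Nat.lt_succ_iff.1 i.2) (seq_step h c hz i).1) (seq_step h c hz n).2
    refine (algebraicIndependent_equiv' (finSuccEquivLast (n := n + 1)) ?_).2 h4
    funext i
    refine Fin.lastCases ?_ (fun j => ?_) i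
    · simp
    · simp

end

/-- the functions `t i` -/
noncomputable def tF (a : ℕ) (i : Fin a) : ℂ → ℂ := iterExp i

/-- the functions `x j` -/
noncomputable def xF (a : ℕ) {b : ℕ} (Λ : Fin b → PeriodPair) (j : Fin b) : ℂ → ℂ :=
  fun z => ℘[Λ j] (iterExp (a + j) z)

/-- the functions `y j` -/
noncomputable def yF (a : ℕ) {b : ℕ} (Λ : Fin b → PeriodPair) (j : Fin b) : ℂ → ℂ :=
  fun z => ℘'[Λ j] (iterExp (a + j) z)

theorem tx_indep {z0 : ℂ} (a : ℕ) {b : ℕ} (Λ : Fin b → PeriodPair)
    (hz : ∀ j : Fin b, iterExp (a + j) z0 ∉ (Λ j).lattice) :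
    AlgebraicIndependent ℂ (Sum.elim (fun i : Fin a => ty z0 (tF a i))
      (fun j : Fin b => ty z0 (xF a Λ j))) := by
  obtain ⟨D, hD⟩ := exists_GD
  let c : ℕ → Option PeriodPair := fun n =>
    if h : a ≤ n ∧ n - a < b then some (Λ ⟨n - a, h.2⟩) else none
  have hc : ∀ n Λ', c n = some Λ' → iterExp n z0 ∉ Λ'.lattice := by
    intro n Λ' h
    by_cases h1 : a ≤ n ∧ n - a < b
    · have h2 : c n = some (Λ ⟨n - a, h1.2⟩) := dif_pos h1
      rw [h2, Option.some.injEq] at h
      subst h
      have h3 := hz ⟨n - a, h1.2⟩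
      have h4 : a + (n - a) = n := by omega
      simpa only [h4] using h3
    · have h2 : c n = none := dif_neg h1
      rw [h2] at h
      exact absurd h (by simp)
  have h1 := seq_indep hD c hc (a + b)
  let r : Fin a ⊕ Fin b → Fin (a + b + 1) :=
    Sum.elim (fun i => ⟨i, by omega⟩) (fun j => ⟨a + j + 1, by omega⟩)
  have hr : Function.Injective r := by
    rintro (i | i) (j | j) h
    · have := congrArg Fin.val h
      simp only [r, Sum.elim_inl] at this
      exact congrArg Sum.inl (Fin.ext this)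
    · have := congrArg Fin.val h
      simp only [r, Sum.elim_inl, Sum.elim_inr] at this
      omega
    · have := congrArg Fin.val h
      simp only [r, Sum.elim_inl, Sum.elim_inr] at this
      omega
    · have := congrArg Fin.val h
      simp only [r, Sum.elim_inr] at this
      exact congrArg Sum.inr (Fin.ext (by omega))
  have h2 := h1.comp r hr
  convert h2 using 1
  funext s
  rcases s with i | j
  · change ty z0 (iterExp i) = ty z0 (seqF c i)
    congr 1
    rcases hi : (i : ℕ) with _ | m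
    · rfl
    · have h3 : c m = none := dif_neg (by omega)
      simp only [seqF, h3, Option.elim]
  · change ty z0 (xF a Λ j) = ty z0 (seqF c (a + j + 1))
    have h3 : c (a + j) = some (Λ j) := by
      have h4 : a ≤ a + (j : ℕ) ∧ a + (j : ℕ) - a < b := ⟨by omega, by omega⟩
      have h5 : c (a + j) = some (Λ ⟨a + j - a, h4.2⟩) := dif_pos h4
      rw [h5]
      congr 2
      apply Fin.ext
      change a + (j : ℕ) - a = j
      omega
    simp only [seqF, h3, Option.elim]
    rfl

end Pool.Agent.Helper6.EE
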