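import Pool.Agent.Helper6.EE.Conv
import Pool.Graph.R_seed8.W619.TW.Frame
import Pool.Graph.R_seed8.W619.TW.Loc
import Pool.Graph.R_seed8.TH143.GT.Pull

/-! Pluricanonical forms on varieties dominated by products of elliptic curves. -/

set_option autoImplicit false
set_option linter.unusedSectionVars false

open FF IntermediateField Pool.Agent.W619.PQ Pool.Agent.W603.LV Pool.Agent.W619.TW
open Pool.Agent.W602.GT (Divisorial DerReg)

namespace Pool.Agent.Helper6.EE

section
variable {C A : Type} [Field C] [CharZero C] [IsAlgClosed C] [Field A] [Algebra C A] {n : ℕ}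

/-- the function field of a product of elliptic curves -/
structure EPr (x y : Fin n → A) (a b : Fin n → C) : Prop where
  ind : AlgebraicIndependent C x
  disc : ∀ i, 4 * a i ^ 3 + 27 * b i ^ 2 ≠ 0
  eq : ∀ i, y i ^ 2 = x i ^ 3 + algebraMap C A (a i) * x i + algebraMap C A (b i)
  top : IntermediateField.adjoin C (Set.range x ∪ Set.range y) = ⊤

/-- the factors -/
def Fc (x y : Fin n → A) (i : Fin n) : IntermediateField C A := IntermediateField.adjoin C {x i, y i}

theorem ns_of_disc {K : Type} [Field K] [Algebra C K] {a b : C} (hd : 4 * a ^ 3 + 27 * b ^ 2 ≠ 0)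
    {x y : K} (h : y ^ 2 = x ^ 3 + algebraMap C K a * x + algebraMap C K b) :
    (WK a b K).Nonsingular x y := by
  have hK : CharZero K := charZero_of_injective_algebraMap (algebraMap C K).injective
  rw [WK_nonsingular]
  refine ⟨h, ?_⟩
  by_contra hcon
  push Not at hcon
  obtain ⟨h1, h2⟩ := hcon
  have hy : y = 0 := by
    have : (2 : K) * y = 0 := by linear_combination h2
    exact (mul_eq_zero.1 this).resolve_left two_ne_zero
  have h3 : algebraMap C K (4 * a ^ 3 + 27 * b ^ 2) = 0 := by
    rw [hy] at h
    simp only [map_add, map_mul, map_pow, map_ofNat]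
    set A := algebraMap C K a
    set B := algebraMap C K b
    have hA : A = -3 * x ^ 2 := by linear_combination h1
    have hB : B = 2 * x ^ 3 := by
      rw [hA] at h
      linear_combination -h
    rw [hA, hB]; ring
  exact hd ((map_eq_zero _).1 h3)

variable {x y : Fin n → A} {a b : Fin n → C}

theorem mem_Fc_x (i : Fin n) : x i ∈ (Fc x y i : IntermediateField C A) :=
  subset_adjoin C _ (Or.inl rfl)

theorem mem_Fc_y (i : Fin n) : y i ∈ (Fc x y i : IntermediateField C A) :=
  subset_adjoin C _ (Or.inr rfl)

/-- the point of the `i`-th factor -/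
noncomputable def EPr.pt (h : EPr x y a b) (i : Fin n) : (Ell (a i) (b i)).G A :=
  WeierstrassCurve.Affine.Point.some (x i) (y i) (ns_of_disc (h.disc i) (h.eq i))

theorem EPr.pt_coord (h : EPr x y a b) (i : Fin n) :
    (Ell (a i) (b i)).coord (h.pt i) = [x i, y i] := rfl

theorem EPr.isFF (h : EPr x y a b) (i : Fin n) : IsFF C (Fc x y i : IntermediateField C A) := by
  let F : IntermediateField C A := Fc x y i
  have heq : (⟨y i, mem_Fc_y i⟩ : F) ^ 2 = (⟨x i, mem_Fc_x i⟩ : F) ^ 3 +
      algebraMap C F (a i) * ⟨x i, mem_Fc_x i⟩ + algebraMap C F (b i) := Subtype.ext (h.eq i)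
  let Q : (Ell (a i) (b i)).G F := WeierstrassCurve.Affine.Point.some _ _
    (ns_of_disc (h.disc i) heq)
  have hx : Transcendental C (⟨x i, mem_Fc_x i⟩ : F) := by
    intro h1
    exact (h.ind.transcendental i) (h1.algHom F.val)
  refine (nice_Ell (a i) (b i)).ff Q ⟨_, List.mem_cons_self, hx⟩ ?_
  apply IntermediateField.map_injective F.val
  rw [IntermediateField.adjoin_map]
  have h2 : F.val '' {z | z ∈ (Ell (a i) (b i)).coord Q} = {x i, y i} := by
    ext z
    constructor
    · rintro ⟨w, hw, rfl⟩
      have hw' : w ∈ [(⟨x i, mem_Fc_x i⟩ : F), ⟨y i, mem_Fc_y i⟩] := hw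
      simp only [List.mem_cons, List.not_mem_nil, or_false] at hw'
      rcases hw' with rfl | rfl
      · exact Or.inl rfl
      · exact Or.inr rfl
    · rintro (rfl | hz)
      · exact ⟨⟨x i, mem_Fc_x i⟩, List.mem_cons_self, rfl⟩
      · rw [Set.mem_singleton_iff] at hz
        subst hz
        exact ⟨⟨y i, mem_Fc_y i⟩, List.mem_cons_of_mem _ (List.mem_singleton_self _), rfl⟩
  rw [h2]
  ext z
  constructor
  · intro hz
    exact ⟨⟨z, hz⟩, trivial, rfl⟩
  · rintro ⟨w, -, rfl⟩
    exact w.2

theorem EPr.sup (h : EPr x y a b) : (⨆ i, Fc x y i : IntermediateField C A) = ⊤ := by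
  rw [eq_top_iff, ← h.top, IntermediateField.adjoin_le_iff]
  rintro z (⟨i, rfl⟩ | ⟨i, rfl⟩)
  · exact le_iSup (fun i => (Fc x y i : IntermediateField C A)) i (mem_Fc_x i)
  · exact le_iSup (fun i => (Fc x y i : IntermediateField C A)) i (mem_Fc_y i)

theorem EPr.basis (h : EPr x y a b) : IsTranscendenceBasis C x := by
  have := h.isFF
  refine h.ind.isTranscendenceBasis_iff_isAlgebraic.2 ?_
  apply alg_adjoin
  intro z
  have hx : ∀ i, Transcendental C (⟨x i, mem_Fc_x i⟩ : (Fc x y i : IntermediateField C A)) := by
    intro i h1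
    exact (h.ind.transcendental i) (h1.algHom (Fc x y i : IntermediateField C A).val)
  exact alg_iSup (fun i => (Fc x y i : IntermediateField C A)) (fun i => ⟨x i, mem_Fc_x i⟩) hx
    (by rw [h.sup]; trivial)

theorem EPr.trdeg (h : EPr x y a b) : Algebra.trdeg C A = n := by
  rw [← h.basis.cardinalMk_eq_trdeg]
  simp

theorem EPr.cur (h : EPr x y a b) (i : Fin n) :
    Cur (MM (fun i => (Fc x y i : IntermediateField C A)) i) (Fc x y i) := by
  have := h.isFF
  exact cur_MM (fun i => (Fc x y i : IntermediateField C A)) h.sup h.trdeg i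

/-- the invariant vector fields of the factors -/
structure Inva (x y : Fin n → A) (δ : Fin n → Derivation C A A) : Prop where
  zero : ∀ i, ∀ z ∈ MM (fun i => (Fc x y i : IntermediateField C A)) i, δ i z = 0
  one : ∀ i, δ i (x i) = 2 * y i

theorem EPr.gen (h : EPr x y a b) (i : Fin n) :
    (Ell (a i) (b i)).Gen (MM (fun i => (Fc x y i : IntermediateField C A)) i) (h.pt i) := by
  refine ⟨x i, List.mem_cons_self, ?_⟩
  refine (h.cur i).tr ⟨x i, mem_Fc_x i⟩ ?_
  intro h1
  exact (h.ind.transcendental i) (h1.algHom (Fc x y i : IntermediateField C A).val)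

theorem EPr.exists_inva (h : EPr x y a b) : ∃ δ : Fin n → Derivation C A A, Inva x y δ := by
  have h1 := fun i => (nice_Ell (a i) (b i)).exd _ (h.pt i) (h.gen i)
  choose δ hδ using h1
  have hA := cz (C := C) A
  refine ⟨fun i => (δ i).restrictScalars C, fun i z hz => (δ i).map_algebraMap ⟨z, hz⟩,
    fun i => ?_⟩
  have h2 : δ i (x i) / (2 * y i) = 1 := hδ i
  have h3 : 2 * y i ≠ 0 := by
    intro h0
    rw [h0, div_zero] at h2
    exact zero_ne_one h2
  exact (div_eq_one_iff_eq h3).1 h2

variable {δ : Fin n → Derivation C A A}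

theorem EPr.y_ne (h : EPr x y a b) (i : Fin n) : y i ≠ 0 := by
  intro h0
  obtain ⟨x', y', hc, -, hy, -⟩ := gen_ell (h.gen i)
  rw [h.pt_coord, List.cons.injEq, List.cons.injEq] at hc
  exact hy (hc.2.1.symm.trans h0)

theorem Inva.off (h' : Inva x y δ) {i j : Fin n} (hij : j ≠ i) (z : A)
    (hz : z ∈ (Fc x y j : IntermediateField C A)) : δ i z = 0 :=
  h'.zero i z (le_MM (fun i => (Fc x y i : IntermediateField C A)) hij hz)

theorem Inva.lam (h : EPr x y a b) (h' : Inva x y δ) (i : Fin n) :
    (Ell (a i) (b i)).lam (δ i) (h.pt i) = 1 := by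
  have hA := cz (C := C) A
  change δ i (x i) / (2 * y i) = 1
  rw [h'.one, div_self (mul_ne_zero two_ne_zero (h.y_ne i))]

theorem Inva.self (h : EPr x y a b) (h' : Inva x y δ) (i : Fin n) :
    ∀ z ∈ (Fc x y i : IntermediateField C A), δ i z ∈ (Fc x y i : IntermediateField C A) := by
  have h1 := (nice_Ell (a i) (b i)).stab (Fc x y i) (δ i) (h.pt i) (by
    intro z hz
    rw [h.pt_coord] at hz
    simp only [List.mem_cons, List.not_mem_nil, or_false] at hz
    rcases hz with rfl | rfl
    · exact mem_Fc_x i
    · exact mem_Fc_y i) (by rw [h'.lam h]; exact one_mem _)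
  have h2 : (Fc x y i : IntermediateField C A) ≤ W619.TW.stab (δ i) (Fc x y i) := by
    conv_lhs => unfold Fc
    rw [IntermediateField.adjoin_le_iff]
    rintro z (rfl | hz)
    · exact ⟨mem_Fc_x i, h1 _ (by rw [h.pt_coord]; exact List.mem_cons_self)⟩
    · rw [Set.mem_singleton_iff] at hz
      subst hz
      exact ⟨mem_Fc_y i, h1 _ (by
        rw [h.pt_coord]; exact List.mem_cons_of_mem _ (List.mem_singleton_self _))⟩
  intro z hz
  exact (h2 hz).2

theorem Inva.stab (h : EPr x y a b) (h' : Inva x y δ) (i j : Fin n) :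
    ∀ z ∈ (Fc x y i : IntermediateField C A), δ j z ∈ (Fc x y i : IntermediateField C A) := by
  intro z hz
  by_cases hij : i = j
  · subst hij
    exact h'.self h i z hz
  · rw [h'.off hij z hz]
    exact zero_mem _

/-- the invariant vector fields are regular -/
theorem Inva.reg (h : EPr x y a b) (h' : Inva x y δ) (i j : Fin n)
    (w : Place (MM (fun i => (Fc x y i : IntermediateField C A)) i) A) : DerReg (rk w) (δ j) := by
  have hFF := h.isFF
  refine (h.cur i).pres w (δ j) ?_ ?_
  · intro z hz
    exact stable_iSup (δ j) (fun l : {l : Fin n // l ≠ i} => (Fc x y l.1 : IntermediateField C A))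
      (fun l => h'.stab h l.1 j) z hz
  · intro β hβ
    by_cases hij : i = j
    · subst hij
      rcases (h.cur i).trichotomy w with h1 | ⟨q, hq⟩
      · exact Or.inr (h1 ⟨_, h'.self h i β β.2⟩).ge
      · -- the invariant derivation of the elliptic curve
        let F : IntermediateField C A := Fc x y i
        let d : Derivation C F F := Derivation.mk'
          { toFun := fun z => ⟨δ i z, h'.self h i z z.2⟩
            map_add' := fun u v => Subtype.ext (map_add (δ i) _ _)
            map_smul' := fun c u => Subtype.ext ((δ i).map_smul c _) }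
          (fun u v => Subtype.ext ((δ i).leibniz _ _))
        have heq : (⟨y i, mem_Fc_y i⟩ : F) ^ 2 = (⟨x i, mem_Fc_x i⟩ : F) ^ 3 +
            algebraMap C F (a i) * ⟨x i, mem_Fc_x i⟩ + algebraMap C F (b i) :=
          Subtype.ext (h.eq i)
        have hx : Transcendental C (⟨x i, mem_Fc_x i⟩ : F) := by
          intro h1
          exact (h.ind.transcendental i) (h1.algHom F.val)
        have htop : IntermediateField.adjoin C {(⟨x i, mem_Fc_x i⟩ : F), ⟨y i, mem_Fc_y i⟩} = ⊤ := by
          apply IntermediateField.map_injective F.val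
          rw [IntermediateField.adjoin_map]
          have h2 : F.val '' {(⟨x i, mem_Fc_x i⟩ : F), ⟨y i, mem_Fc_y i⟩} = {x i, y i} := by
            rw [Set.image_pair]
            rfl
          rw [h2]
          ext z
          constructor
          · intro hz
            exact ⟨⟨z, hz⟩, trivial, rfl⟩
          · rintro ⟨w, -, rfl⟩
            exact w.2
        have hd : d ⟨x i, mem_Fc_x i⟩ = 2 * ⟨y i, mem_Fc_y i⟩ := Subtype.ext (h'.one i)
        have hvo := vo_Ell q (h.disc i) hx heq htop hd
        have hd0 : d ≠ 0 := by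
          intro h0
          rw [h0] at hd
          have hA := cz (C := C) A
          have h3 := congrArg Subtype.val hd
          exact (mul_ne_zero two_ne_zero (h.y_ne i)) h3.symm
        have hβ' : Ge q 0 β := by
          rcases hβ with h1 | h1
          · exact Or.inl (Subtype.ext h1)
          · right
            rw [← hq]
            exact h1
        obtain ⟨g, hg, hdg⟩ := der_mul q (ord_unif q) hd0 hβ'
        have h4 : Ge q 0 (d β) := by
          rw [hdg]
          have h5 : Ge q 0 (d (unif q)) := Or.inr (by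
            have : q.ord (d (unif q)) = vo q d := rfl
            rw [this, hvo])
          simpa using h5.mul hg
        have h6 : ((d β : F) : A) = δ i β := rfl
        rw [← h6]
        rcases h4 with h4 | h4
        · left; rw [h4]; rfl
        · right; rw [hq]; exact h4
    · rw [h'.off hij β β.2]
      exact w.reg_zero

/-- the places of the generic fibres of the projections are prime divisors -/
theorem EPr.divisorial (h : EPr x y a b) (i : Fin n)
    (w : Place (MM (fun i => (Fc x y i : IntermediateField C A)) i) A) :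
    Divisorial n (rk w) := by
  obtain ⟨m, rfl⟩ : ∃ m, n = m + 1 := ⟨n - 1, by have := i.pos; omega⟩
  refine ⟨fun j => x (i.succAbove j), fun G hG => ?_⟩
  have h1 : AlgebraicIndependent C (fun j => x (i.succAbove j)) :=
    h.ind.comp _ Fin.succAbove_right_injective
  have h2 : MvPolynomial.aeval (fun j => x (i.succAbove j)) G ≠ 0 := fun h0 =>
    hG (h1.eq_zero_of_aeval_eq_zero G h0)
  refine ⟨h2, ord_M w ?_⟩
  have h3 : ∀ j, x (i.succAbove j) ∈ MM (fun i => (Fc x y i : IntermediateField C A)) i :=
    fun j => le_MM (fun i => (Fc x y i : IntermediateField C A)) (Fin.succAbove_ne i j) (mem_Fc_x _)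
  have h4 := MvPolynomial.comp_aeval_apply
    (f := fun j => (⟨x (i.succAbove j), h3 j⟩ :
      MM (fun i => (Fc x y i : IntermediateField C A)) i))
    (MM (fun i => (Fc x y i : IntermediateField C A)) i).val G
  change (MM (fun i => (Fc x y i : IntermediateField C A)) i).val _ =
    MvPolynomial.aeval (fun j => x (i.succAbove j)) G at h4
  exact Eq.subst (motive := fun t => t ∈ MM (fun i => (Fc x y i : IntermediateField C A)) i) h4
    (Subtype.prop _)

theorem reg_alg {M : IntermediateField C A} [IsFF M A] {z : A}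
    (h : ∀ w : Place M A, w.Reg z) : IsAlgebraic M z := by
  by_contra hz
  have hM := cz (C := C) M
  obtain ⟨S, hS, hsum⟩ := poles (k := M) hz
  have h1 : S = ∅ := by
    rw [Finset.eq_empty_iff_forall_notMem]
    intro w hw
    have h2 := (hS w).1 hw
    rcases h w with h3 | h3
    · rw [h3, w.ord_zero] at h2; omega
    · omega
  rw [h1, Finset.sum_empty] at hsum
  have hfin := IsFF.finite hz
  have := Module.finrank_pos (R := M⟮z⟯) (M := A)
  omega

/-- functions which are regular at these places are constant -/
theorem EPr.const (h : EPr x y a b) {z : A}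
    (hz : ∀ i, ∀ w : Place (MM (fun i => (Fc x y i : IntermediateField C A)) i) A,
      (rk w).Reg z) : ∃ c : C, algebraMap C A c = z := by
  obtain ⟨δ, h'⟩ := h.exists_inva
  have hA := cz (C := C) A
  have h1 : ∀ i, δ i z = 0 := by
    intro i
    have hFF := (h.cur i).isFF
    have h2 : IsAlgebraic (MM (fun i => (Fc x y i : IntermediateField C A)) i) z :=
      reg_alg (fun w => hz i w)
    apply h'.zero
    refine (nice_Ell (a i) (b i)).alg _ (h.pt i) (h.gen i) z ?_ h2
    have h3 : (Ell (a i) (b i)).adj (MM (fun i => (Fc x y i : IntermediateField C A)) i)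
        (h.pt i) = ⊤ := by
      rw [eq_top_iff, ← (h.cur i).sup, sup_le_iff]
      refine ⟨AGp.le_adj _ _ _, ?_⟩
      conv_lhs => unfold Fc
      rw [IntermediateField.adjoin_le_iff]
      have h4 := (Ell (a i) (b i)).rat_adj
        (MM (fun i => (Fc x y i : IntermediateField C A)) i) (h.pt i)
      rintro w (rfl | hw)
      · exact h4 _ List.mem_cons_self
      · rw [Set.mem_singleton_iff] at hw
        subst hw
        exact h4 _ (List.mem_cons_of_mem _ (List.mem_singleton_self _))
    rw [h3]
    trivial
  by_contra hne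
  push Not at hne
  have hzt : Transcendental (⊥ : IntermediateField C A) z := by
    intro h2
    have hb : Algebra.IsAlgebraic C (⊥ : IntermediateField C A) := ⟨fun x => by
      obtain ⟨c, hc⟩ := IntermediateField.mem_bot.1 x.2
      have : x = algebraMap C (⊥ : IntermediateField C A) c := Subtype.ext hc.symm
      rw [this]
      exact isAlgebraic_algebraMap c⟩
    have h3 : IsAlgebraic C z := IsAlgebraic.restrictScalars C h2
    obtain ⟨c, hc⟩ := Pool.Agent.W602.GT.const_of_algebraic h3
    exact hne c hc.symm
  obtain ⟨D, hD⟩ := exists_der_one (⊥ : IntermediateField C A) hzt 1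
  let D' : Derivation C A A := D.restrictScalars C
  have h5 : D' = ∑ i, (D' (x i) / (2 * y i)) • δ i := by
    apply Pool.Agent.W602.GT.der_ext x h.basis
    intro j
    rw [Pool.Agent.TH143.GT.der_sum, Finset.sum_eq_single j]
    · rw [smul_eq_mul, h'.one, div_mul_cancel₀ _ (mul_ne_zero two_ne_zero (h.y_ne j))]
    · intro l _ hl
      rw [h'.off (Ne.symm hl) _ (mem_Fc_x j), smul_zero]
    · intro h0
      exact absurd (Finset.mem_univ j) h0
  have h6 : D' z = 1 := hD
  rw [h5, Pool.Agent.TH143.GT.der_sum, Finset.sum_eq_zero] at h6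
  · exact zero_ne_one h6
  · intro i _
    rw [h1, smul_zero]

end

end Pool.Agent.Helper6.EE
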