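import Pool.Agent.Helper6.EE.Kod
import Pool.Graph.R_seed8.TH143.GT.Kod

/-! Kodaira dimension of varieties dominated by products of elliptic curves. -/

set_option autoImplicit false
set_option linter.unusedSectionVars false

open FF IntermediateField Pool.Agent.W619.PQ Pool.Agent.W603.LV Pool.Agent.W619.TW
open Pool.Agent.W602.GT (Divisorial DerReg DerLog IsPluri RegAt GeneralType exists_der)
open Pool.Agent.TH143.GT

namespace Pool.Agent.Helper6.EE

section
variable {K A : Type} [Field K] [Field A] [Algebra ℂ K] [Algebra ℂ A] [Algebra K A]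
  [IsScalarTower ℂ K A] {n w : ℕ} {x y : Fin n → A} {a b : Fin n → ℂ}

/-- evaluation of derivations -/
noncomputable def evL (u : Fin w → K) : Derivation ℂ K K →ₗ[K] (Fin w → K) where
  toFun D := fun j => D (u j)
  map_add' D D' := rfl
  map_smul' c D := rfl

/-- the volume form of the coordinates -/
noncomputable def vol (u : Fin w → K) : MultilinearMap K (fun _ : Fin w => Derivation ℂ K K) K :=
  ((Matrix.detRowAlternating (n := Fin w) (R := K)).toMultilinearMap).compLinearMap
    (fun _ => evL u)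

theorem vol_apply (u : Fin w → K) (D : Fin w → Derivation ℂ K K) :
    vol u D = (Matrix.of fun i j => D i (u j)).det := rfl

theorem pluri_eval' {u : Fin w → K} {E : Fin w → Derivation ℂ K K} (h : Dual u E) {N : ℕ}
    {ω : (Fin w → Derivation ℂ K K) → K} (hω : IsPluri N ω) (D : Fin w → Derivation ℂ K K) :
    ω D = ω E * vol u D ^ N := by
  have h1 := hω (Matrix.of fun i j => D i (u j)) E
  have h2 : (fun i => ∑ j, (Matrix.of fun i j => D i (u j)) i j • E j) = D := by
    funext i
    exact (h.expand (D i)).symm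
  rw [h2] at h1
  rw [h1, vol_apply, mul_comm]

theorem exists_dual [Algebra.EssFiniteType ℂ K] (hw : Algebra.trdeg ℂ K = w) :
    ∃ (u : Fin w → K) (E : Fin w → Derivation ℂ K K), Dual u E := by
  obtain ⟨y0, hy0⟩ : ∃ y0 : Fin w → K, IsTranscendenceBasis ℂ y0 := by
    obtain ⟨B, hB⟩ := exists_isTranscendenceBasis ℂ K
    have hcard := hB.cardinalMk_eq_trdeg
    rw [hw] at hcard
    have hfin : Finite B := by
      rw [← Cardinal.lt_aleph0_iff_finite, hcard]
      exact Cardinal.natCast_lt_aleph0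
    obtain ⟨m', ⟨e⟩⟩ := Finite.exists_equiv_fin B
    obtain rfl : m' = w := by
      rw [Cardinal.mk_congr e, Cardinal.mk_fin] at hcard
      exact_mod_cast hcard
    exact ⟨fun i => (e.symm i : K), hB.comp_equiv e.symm⟩
  choose E hE using fun i => exists_der y0 hy0 (fun j => if i = j then (1 : K) else 0)
  exact ⟨y0, E, hy0, hE⟩

/-- **Forms on varieties dominated by a product of elliptic curves.** Two forms of the same
weight are proportional. -/
theorem EPr.forms (h : EPr x y a b) [Algebra.EssFiniteType ℂ K] (hw : Algebra.trdeg ℂ K = w)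
    {N : ℕ} (hN : 0 < N) {ω₁ ω₂ : (Fin w → Derivation ℂ K K) → K} (h1 : Pluricanonical w N ω₁)
    (h2 : Pluricanonical w N ω₂) : ∃ c₁ c₂ : ℂ, (c₁ ≠ 0 ∨ c₂ ≠ 0) ∧
      ∀ D, algebraMap ℂ K c₁ * ω₁ D + algebraMap ℂ K c₂ * ω₂ D = 0 := by
  obtain ⟨u, E, hE⟩ := exists_dual (K := K) hw
  obtain ⟨δ, hδ⟩ := h.exists_inva
  have hA := cz (C := ℂ) A
  have hvE : vol u E = 1 := by
    rw [vol_apply]
    have : (Matrix.of fun i j => E i (u j)) = (1 : Matrix (Fin w) (Fin w) K) := by
      ext i j
      rw [Matrix.of_apply, hE.2, Matrix.one_apply]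
    rw [this, Matrix.det_one]
  have hv0 : vol u ≠ 0 := by
    intro h0
    rw [h0] at hvE
    exact zero_ne_one hvE
  have hspan : ∀ D : Derivation ℂ A A, ∃ c : Fin n → A, D = ∑ l, c l • δ l := by
    intro D
    refine ⟨fun i => D (x i) / (2 * y i), ?_⟩
    apply Pool.Agent.W602.GT.der_ext x h.basis
    intro j
    rw [der_sum, Finset.sum_eq_single j]
    · rw [smul_eq_mul, hδ.one, div_mul_cancel₀ _ (mul_ne_zero two_ne_zero (h.y_ne j))]
    · intro l _ hl
      rw [hδ.off (Ne.symm hl) _ (mem_Fc_x j), smul_zero]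
    · intro h0
      exact absurd (Finset.mem_univ j) h0
  obtain ⟨Q, hQ⟩ := pull_ne (vol u) hv0 hE δ hspan
  set q := pull (vol u) u E (fun i => δ (Q i)) with hq
  have key : ∀ ω : (Fin w → Derivation ℂ K K) → K, Pluricanonical w N ω →
      ∃ c : ℂ, algebraMap ℂ A c = algebraMap K A (ω E) * q ^ N := by
    intro ω hω
    apply h.const
    intro i P
    refine (local_reg hw h.trdeg (vol u) hN (ω E) (Bd := fun _ => False) ?_ ?_ hE (rk P)
      (h.divisorial i P) (fun i => δ (Q i))).2 (fun l => hδ.reg h i (Q l) P) (fun _ _ _ h => h)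
    · intro v hv D hD
      rw [← pluri_eval' hE hω.1]
      exact hω.2 v hv D fun i => log_reg (hD i)
    · intro v hv _ D hD
      rw [← pluri_eval' hE hω.1]
      exact hω.2 v hv D hD
  obtain ⟨c₁, hc₁⟩ := key ω₁ h1
  obtain ⟨c₂, hc₂⟩ := key ω₂ h2
  by_cases h0 : c₁ = 0 ∧ c₂ = 0
  · refine ⟨1, 0, Or.inl one_ne_zero, fun D => ?_⟩
    rw [h0.1, map_zero] at hc₁
    have h3 : ω₁ E = 0 := by
      rcases mul_eq_zero.1 hc₁.symm with h3 | h3
      · exact (map_eq_zero _).1 h3
      · exact absurd h3 (pow_ne_zero _ hQ)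
    rw [pluri_eval' hE h1.1, h3]
    simp
  · refine ⟨c₂, -c₁, ?_, fun D => ?_⟩
    · by_contra hcon
      push Not at hcon
      exact h0 ⟨neg_eq_zero.1 hcon.2, hcon.1⟩
    · rw [pluri_eval' hE h1.1, pluri_eval' hE h2.1]
      have h3 : algebraMap ℂ K c₂ * ω₁ E + algebraMap ℂ K (-c₁) * ω₂ E = 0 := by
        apply (map_eq_zero (algebraMap K A)).1
        apply (mul_eq_zero.1 (?_ : _ * q ^ N = 0)).resolve_right (pow_ne_zero _ hQ)
        rw [map_add, map_mul, map_mul, ← IsScalarTower.algebraMap_apply,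
          ← IsScalarTower.algebraMap_apply, map_neg]
        linear_combination (-(algebraMap ℂ A c₂)) * hc₁ + (algebraMap ℂ A c₁) * hc₂
      linear_combination (vol u D ^ N) * h3

end

section

variable {K : Type} [Field K] [Algebra ℂ K]

/-- The Kodaira dimension of the varieties with the function field `K` is at most zero: two
pluricanonical forms of the same weight are proportional. -/
def KodairaLeZero (K : Type) [Field K] [Algebra ℂ K] (w : ℕ) : Prop :=
  ∀ N : ℕ, 0 < N → ∀ ω₁ ω₂ : (Fin w → Derivation ℂ K K) → K, Pluricanonical w N ω₁ →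
    Pluricanonical w N ω₂ → ∃ c₁ c₂ : ℂ, (c₁ ≠ 0 ∨ c₂ ≠ 0) ∧
      ∀ D, algebraMap ℂ K c₁ * ω₁ D + algebraMap ℂ K c₂ * ω₂ D = 0

theorem not_general {w : ℕ} (hw : 0 < w) (h : KodairaLeZero K w) : ¬ GeneralType ℂ K w := by
  rintro ⟨-, N, hN, ω, h1, h2, D, hD, hind⟩
  have h3 : ∀ j, Pluricanonical w N (ω j) := fun j => ⟨h1 j, fun P hP => h2 P hP j⟩
  let i0 : Fin w := ⟨0, hw⟩
  obtain ⟨c₁, c₂, hc, h4⟩ := h N hN (ω 0) (ω i0.succ) (h3 _) (h3 _)
  have h5 := h4 D
  have hc2 : c₂ ≠ 0 := by
    rintro rfl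
    rw [map_zero, zero_mul, add_zero] at h5
    rcases hc with hc | hc
    · rcases mul_eq_zero.1 h5 with h6 | h6
      · exact hc ((map_eq_zero _).1 h6)
      · exact hD h6
    · exact hc rfl
  apply hind.transcendental i0
  have hc2' : algebraMap ℂ K c₂ ≠ 0 := by simpa using hc2
  have h6 : ω i0.succ D / ω 0 D = algebraMap ℂ K (-c₁ / c₂) := by
    rw [map_div₀, map_neg]
    field_simp
    linear_combination h5
  rw [h6]
  exact isAlgebraic_algebraMap _

end

end Pool.Agent.Helper6.EE
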