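import Pool.Agent.Helper6.EE.Wei
import Pool.Graph.R_seed8.Helper487.ECM.Addition
import Pool.Graph.R_seed8.TH55.EL.Endo
import Pool.Graph.R_seed8.TH822.Ell.Cj

/-! The Weierstrass functions of a lattice as a homomorphism onto the points of the curve. -/

set_option autoImplicit false

open WeierstrassCurve Filter Topology
open scoped PeriodPair

namespace Pool.Agent.Helper6.EE

open H667R3 Pool.Agent.W245.EB Pool.Agent.TH813.Ell

/-- the coefficients of the curve of a lattice -/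
noncomputable def aL (Λ : PeriodPair) : ℂ := -Λ.g₂ / 4
/-- the coefficients of the curve of a lattice -/
noncomputable def bL (Λ : PeriodPair) : ℂ := -Λ.g₃ / 4

theorem disc_L (Λ : PeriodPair) : 4 * aL Λ ^ 3 + 27 * bL Λ ^ 2 ≠ 0 := by
  intro h
  -- a double root
  have key : ∃ y : ℂ, 4 * y ^ 3 - Λ.g₂ * y - Λ.g₃ = 0 ∧ 12 * y ^ 2 - Λ.g₂ = 0 := by
    have h' : Λ.g₂ ^ 3 = 27 * Λ.g₃ ^ 2 := by
      unfold aL bL at h
      linear_combination (-16 : ℂ) * h
    by_cases h2 : Λ.g₂ = 0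
    · refine ⟨0, ?_, ?_⟩
      · have h3 : Λ.g₃ = 0 := by
          rw [h2] at h'
          have : Λ.g₃ ^ 2 = 0 := by linear_combination (-1 / 27 : ℂ) * h'
          exact pow_eq_zero_iff (two_ne_zero) |>.1 this
        rw [h2, h3]; ring
      · rw [h2]; ring
    · refine ⟨-3 * Λ.g₃ / (2 * Λ.g₂), ?_, ?_⟩
      · field_simp
        linear_combination (4 * Λ.g₃) * h'
      · field_simp
        linear_combination (-4 : ℂ) * h'
  obtain ⟨y, h1, h2⟩ := key
  exact TH55.EL.simple_roots y h1 h2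

theorem wL_nonsing (Λ : PeriodPair) {K : Type} [Field K] [Algebra ℂ K] {x y : K}
    (h : y ^ 2 = x ^ 3 + algebraMap ℂ K (aL Λ) * x + algebraMap ℂ K (bL Λ)) :
    (WK (aL Λ) (bL Λ) K).Nonsingular x y := by
  have hK : CharZero K := charZero_of_injective_algebraMap (algebraMap ℂ K).injective
  rw [WK_nonsingular]
  refine ⟨h, ?_⟩
  by_contra hcon
  push Not at hcon
  obtain ⟨h1, h2⟩ := hcon
  have hy : y = 0 := by
    have : (2 : K) * y = 0 := by linear_combination h2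
    exact (mul_eq_zero.1 this).resolve_left two_ne_zero
  have h3 : algebraMap ℂ K (4 * aL Λ ^ 3 + 27 * bL Λ ^ 2) = 0 := by
    rw [hy] at h
    simp only [map_add, map_mul, map_pow, map_ofNat]
    set A := algebraMap ℂ K (aL Λ)
    set B := algebraMap ℂ K (bL Λ)
    have hA : A = -3 * x ^ 2 := by linear_combination h1
    have hB : B = 2 * x ^ 3 := by
      rw [hA] at h
      linear_combination -h
    rw [hA, hB]; ring
  exact disc_L Λ ((map_eq_zero _).1 h3)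

theorem eqL {Λ : PeriodPair} {u : ℂ} (hu : u ∉ Λ.lattice) :
    (℘'[Λ] u / 2) ^ 2 = ℘[Λ] u ^ 3 + aL Λ * ℘[Λ] u + bL Λ := by
  have := Λ.derivWeierstrassP_sq u hu
  unfold aL bL
  linear_combination (1 / 4 : ℂ) * this

theorem nsL {Λ : PeriodPair} {u : ℂ} (hu : u ∉ Λ.lattice) :
    (WK (aL Λ) (bL Λ) ℂ).Nonsingular (℘[Λ] u) (℘'[Λ] u / 2) :=
  wL_nonsing Λ (by rw [eqL hu]; rfl)

open Classical in
/-- the point with the given logarithm -/
noncomputable def PL (Λ : PeriodPair) (u : ℂ) : (WK (aL Λ) (bL Λ) ℂ).Point :=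
  if hu : u ∈ Λ.lattice then .zero else .some _ _ (nsL hu)

variable {Λ : PeriodPair}

theorem PL_of_mem {u : ℂ} (hu : u ∈ Λ.lattice) : PL Λ u = 0 := by
  unfold PL
  rw [dif_pos hu]
  rfl

theorem PL_of_not {u : ℂ} (hu : u ∉ Λ.lattice) : PL Λ u = .some _ _ (nsL hu) := by
  unfold PL
  rw [dif_neg hu]

theorem some_congr {a b : ℂ} {K : Type} [Field K] [Algebra ℂ K] {x y x' y' : K}
    {h : (WK a b K).Nonsingular x y} {h' : (WK a b K).Nonsingular x' y'} (hx : x = x')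
    (hy : y = y') : (Affine.Point.some x y h : (WK a b K).Point) = .some x' y' h' := by
  subst hx hy
  rfl

theorem PL_lat {u l : ℂ} (hl : l ∈ Λ.lattice) : PL Λ (u + l) = PL Λ u := by
  by_cases hu : u ∈ Λ.lattice
  · rw [PL_of_mem hu, PL_of_mem (add_mem hu hl)]
  · have h2 : u + l ∉ Λ.lattice := fun h => hu ((add_mem_lattice_iff Λ hl).1 h)
    rw [PL_of_not hu, PL_of_not h2]
    exact some_congr (wp_add_lattice Λ hl) (by rw [wp'_add_lattice Λ hl])

theorem chord {u v : ℂ} (hu : u ∉ Λ.lattice) (hv : v ∉ Λ.lattice) (h : ℘[Λ] u ≠ ℘[Λ] v) :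
    ∃ l : ℂ, l = (℘'[Λ] u / 2 - ℘'[Λ] v / 2) / (℘[Λ] u - ℘[Λ] v) ∧
      ℘[Λ] (u + v) = l ^ 2 - ℘[Λ] u - ℘[Λ] v ∧
      ℘'[Λ] (u + v) / 2 = l * (℘[Λ] u - (l ^ 2 - ℘[Λ] u - ℘[Λ] v)) - ℘'[Λ] u / 2 := by
  have hv' : -v ∉ Λ.lattice := fun h => hv (by simpa using neg_mem h)
  have hne : Helper487.ECM.wp Λ 0 u ≠ Helper487.ECM.wp Λ 0 (-v) := by
    rw [Helper487.ECM.wp_zero_eq, Λ.weierstrassP_neg]
    exact h
  have h1 := Helper487.ECM.wp_sub Λ (z := u) (w := -v) hu hv' (Helper487.ECM.sub_mem_Dom Λ hne) hne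
  have h2 := Helper487.ECM.wp_one_sub Λ (t := u) (w := -v) hu hv' hne
  simp only [Helper487.ECM.Q, Helper487.ECM.wp_zero_eq, Helper487.ECM.wp_one_eq, sub_neg_eq_add,
    Λ.weierstrassP_neg, Λ.derivWeierstrassP_neg] at h1 h2
  have hne' := sub_ne_zero.2 h
  refine ⟨_, rfl, ?_, ?_⟩
  · rw [h1]
    field_simp
    ring
  · rw [h2, h1]
    field_simp
    ring

theorem PL_add (u v : ℂ) : PL Λ (u + v) = PL Λ u + PL Λ v := by
  classical
  by_cases hu : u ∈ Λ.lattice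
  · rw [PL_of_mem hu, zero_add, add_comm, PL_lat hu]
  by_cases hv : v ∈ Λ.lattice
  · rw [PL_of_mem hv, add_zero, PL_lat hv]
  by_cases hs : u + v ∈ Λ.lattice
  · obtain ⟨h1, h2⟩ := (add_mem_iff_pt hu hv).1 hs
    rw [PL_of_mem hs, PL_of_not hu, PL_of_not hv]
    rw [Affine.Point.add_of_Y_eq h1 (by rw [WK_negY, h2]; ring)]
  by_cases hd : ℘[Λ] u = ℘[Λ] v
  · have hd' : u - v ∈ Λ.lattice := ((wp_eq_iff Λ hu hv).1 hd).resolve_left hs
    have e : u + v = 2 * v + (u - v) := by ring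
    have h2 : 2 * v ∉ Λ.lattice := fun h => hs (by rw [e]; exact add_mem h hd')
    have h3 : PL Λ u = PL Λ v := by
      have e2 : u = v + (u - v) := by ring
      conv_lhs => rw [e2]
      rw [PL_lat hd']
    rw [h3, e, PL_lat hd', PL_of_not h2, PL_of_not hv]
    have hy : ℘'[Λ] v ≠ 0 := wp'_ne_zero Λ h2
    have hYne : ℘'[Λ] v / 2 ≠ (WK (aL Λ) (bL Λ) ℂ).negY (℘[Λ] v) (℘'[Λ] v / 2) := by
      rw [WK_negY]
      intro h
      apply hy
      linear_combination h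
    rw [Affine.Point.add_self_of_Y_ne hYne]
    have hsl : (WK (aL Λ) (bL Λ) ℂ).slope (℘[Λ] v) (℘[Λ] v) (℘'[Λ] v / 2) (℘'[Λ] v / 2) =
        (3 * ℘[Λ] v ^ 2 + aL Λ) / ℘'[Λ] v := by
      rw [Affine.slope_of_Y_ne rfl hYne, WK_negY, WK_a₁, WK_a₂, WK_a₄]
      congr 1
      · simp
      · ring
    apply some_congr
    · rw [WK_addX, hsl, wp_two Λ h2]
      unfold aL
      field_simp
      ring
    · rw [WK_addY, hsl, wp'_two Λ h2]
      unfold aL
      field_simp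
      ring
  · obtain ⟨l, hl, h1, h2⟩ := chord hu hv hd
    rw [PL_of_not hs, PL_of_not hu, PL_of_not hv, Affine.Point.add_of_X_ne hd]
    have hsl : (WK (aL Λ) (bL Λ) ℂ).slope (℘[Λ] u) (℘[Λ] v) (℘'[Λ] u / 2) (℘'[Λ] v / 2) = l := by
      rw [Affine.slope_of_X_ne hd, hl]
    apply some_congr
    · rw [WK_addX, hsl, h1]
    · rw [WK_addY, hsl, h2]

theorem PL_smul (n : ℕ) (u : ℂ) : PL Λ (n * u) = n • PL Λ u := by
  classical
  induction n with
  | zero =>
    rw [Nat.cast_zero, zero_mul, PL_of_mem (zero_mem _)]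
    exact (zero_nsmul _).symm
  | succ n ih =>
    rw [Nat.cast_succ, add_mul, one_mul, PL_add, ih, succ_nsmul]

theorem PL_surj (P : (WK (aL Λ) (bL Λ) ℂ).Point) : ∃ u, PL Λ u = P := by
  rcases P with _ | ⟨x, y, h⟩
  · exact ⟨0, PL_of_mem (zero_mem _)⟩
  · obtain ⟨z, hz, hzx⟩ := exists_wp_eq Λ x
    have h1 := ((WK_nonsingular _ _ x y).1 h).1
    have h2 := eqL hz
    have h3 : (℘'[Λ] z / 2) ^ 2 = y ^ 2 := by
      rw [h2, h1, hzx]
      rfl
    rw [sq_eq_sq_iff_eq_or_eq_neg] at h3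
    rcases h3 with h3 | h3
    · exact ⟨z, by rw [PL_of_not hz]; exact some_congr hzx h3⟩
    · have hz' : -z ∉ Λ.lattice := fun h => hz (by simpa using neg_mem h)
      refine ⟨-z, ?_⟩
      rw [PL_of_not hz']
      refine some_congr ?_ ?_
      · rw [Λ.weierstrassP_neg, hzx]
      · rw [Λ.derivWeierstrassP_neg]
        linear_combination -h3

/-- the points over the complex numbers are divisible -/
theorem div_C (P : (WK (aL Λ) (bL Λ) ℂ).Point) {n : ℕ} (hn : 0 < n) :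
    ∃ P' : (WK (aL Λ) (bL Λ) ℂ).Point, n • P' = P := by
  classical
  obtain ⟨u, rfl⟩ := PL_surj P
  refine ⟨PL Λ (u / n), ?_⟩
  rw [← PL_smul]
  congr 1
  have : (n : ℂ) ≠ 0 := by exact_mod_cast hn.ne'
  field_simp

end Pool.Agent.Helper6.EE
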