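import Pool.Agent.Helper6.EE.Ch

/-! Logarithmic derivatives of points over chains. -/

set_option autoImplicit false

open Polynomial IntermediateField

namespace Pool.Agent.Helper6.EE

variable {C : Type} [Field C] [CharZero C] {L : Type} [Field L] [Algebra C L]

/-- the elliptic curves in the given class -/
def AE (E : C → C → Prop) (τ : AGp C) : Prop :=
  ∃ a b : C, E a b ∧ 4 * a ^ 3 + 27 * b ^ 2 ≠ 0 ∧ τ = Ell a b

/-- the multiplicative group or an elliptic curve in the given class -/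
def A1 (E : C → C → Prop) (τ : AGp C) : Prop := τ = Gm ∨ AE E τ

/-- the additive group or an elliptic curve in the given class -/
def A2 (E : C → C → Prop) (τ : AGp C) : Prop := τ = Ga ∨ AE E τ

variable {E : C → C → Prop}

theorem AE.a1 {τ : AGp C} (h : AE E τ) : A1 E τ := Or.inr h
theorem AE.a2 {τ : AGp C} (h : AE E τ) : A2 E τ := Or.inr h

theorem AE.nice {τ : AGp C} (h : AE E τ) : Nice τ := by
  obtain ⟨a, b, -, -, rfl⟩ := h
  exact nice_Ell a b

theorem AE.src {τ : AGp C} (h : AE E τ) : Src τ := by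
  obtain ⟨a, b, -, hab, rfl⟩ := h
  exact src_Ell hab

theorem AE.tgtE {τ : AGp C} (h : AE E τ) : TgtE τ := by
  obtain ⟨a, b, -, hab, rfl⟩ := h
  exact tgtE_Ell hab

theorem A1.nice {τ : AGp C} (h : A1 E τ) : Nice τ := by
  rcases h with rfl | h
  · exact nice_Gm
  · exact AE.nice h

theorem A1.src {τ : AGp C} (h : A1 E τ) : Src τ := by
  rcases h with rfl | h
  · exact src_Gm
  · exact AE.src h

theorem A1.tgt {τ : AGp C} (h : A1 E τ) : Tgt τ := by
  rcases h with rfl | h
  · exact tgt_Gm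
  · exact TgtE.tgt (AE.tgtE h)

theorem A2.nice {τ : AGp C} (h : A2 E τ) : Nice τ := by
  rcases h with rfl | h
  · exact nice_Ga
  · exact AE.nice h

section
variable {D : Derivation C L L} {M : IntermediateField C L} {τ₁ τ : AGp C} {P : τ₁.G L}
  {δ : Derivation C L L}

omit [CharZero C] in
/-- `D` and `δ` commute on `M(P)` -/
theorem br_zero (hM : Stab D M) (hl : τ₁.lam D P ∈ M) (hδM : ∀ x ∈ M, δ x = 0)
    (hδP : τ₁.lam δ P = 1) : ∀ x ∈ τ₁.adj M P, D (δ x) = δ (D x) := by
  have h : ∀ x ∈ τ₁.adj M P, ⁅D, δ⁆ x = 0 := by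
    apply der_adj_zero τ₁
    · intro x hx
      rw [Derivation.commutator_apply, hδM x hx, hδM _ (hM x hx), map_zero, sub_zero]
    · rw [τ₁.lam_br, hδP, hδM _ hl, Derivation.map_one_eq_zero, sub_zero]
  intro x hx
  have := h x hx
  rw [Derivation.commutator_apply] at this
  exact sub_eq_zero.1 this

theorem br_lam (hM : Stab D M) (hl : τ₁.lam D P ∈ M) (hδM : ∀ x ∈ M, δ x = 0)
    (hδP : τ₁.lam δ P = 1) {Q : τ.G L} (hQ : τ.Rat (τ₁.adj M P) Q) :
    D (τ.lam δ Q) = δ (τ.lam D Q) := by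
  have h1 := τ.lam_br D δ Q
  rw [τ.lam_of_const _ Q (fun x hx => by
    rw [Derivation.commutator_apply, br_zero hM hl hδM hδP x (hQ x hx), sub_self])] at h1
  exact (sub_eq_zero.1 h1.symm)

end

section lev
variable {A : AGp C → Prop} {D : Derivation C L L} {G : IntermediateField C L}
  {U : Submodule C L}

/-- the step used in all level arguments: subtract the twist by `-1` -/
theorem twist_neg (hyp : Hyp A D G U) {M : IntermediateField C L} (h : Ch A D G U M)
    {τ₁ τ : AGp C} (hA : A τ₁) {P : τ₁.G L} (hP : τ₁.Gen M P) (hl : τ₁.lam D P ∈ U)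
    {Q : τ.G L} (hQ : τ.Rat (τ₁.adj M P) Q) (ha : τ.lam D Q ∈ M) :
    ∃ (b : C) (R : τ.G L), τ.Rat M R ∧
      τ.lam D R = (-2 : L) * (τ.lam D Q - algebraMap C L b * τ₁.lam D P) := by
  obtain ⟨b, Q', -, -, h1, h2⟩ := twist (hyp.nice _ hA) hyp.con (h.stab hyp) hP
    (P' := -P) (m := -1) (by norm_num) (by simp) (h.le (hyp.le _ hl)) hQ ha
  refine ⟨b, _, h1, ?_⟩
  rw [h2]
  push_cast
  ring

/-- a chain over `G`, first phase -/
theorem lev_a (hyp : Hyp A D G U) (hA1 : ∀ τ, A τ → A1 E τ) {H : Submodule C L}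
    (hU : ∀ x, x ∈ U ↔ ∃ g ∈ G, g ∈ H ∧ x = D g) {M : IntermediateField C L}
    (h : Ch A D G U M) {τ : AGp C} (hτ : Tgt τ) {Q : τ.G L} (hQ : τ.Rat M Q) {g : L}
    (hg : g ∈ M) (hgH : g ∈ H) (hl : τ.lam D Q = D g) : τ.lam D Q ∈ U := by
  have hL := cz (C := C) L
  induction h generalizing Q g with
  | base => exact (hU _).2 ⟨g, hg, hgH, hl⟩
  | @step M τ₁ P h0 hA₁ hP hlP ih =>
    have hst := h0.stab hyp
    have hlM := h0.le (hyp.le _ hlP)
    obtain ⟨δ₀, hδP⟩ := (hyp.nice _ hA₁).exd M P hP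
    set δ : Derivation C L L := δ₀.restrictScalars C with hδ
    have hδM : ∀ x ∈ M, δ x = 0 := fun x hx => δ₀.map_algebraMap ⟨x, hx⟩
    have h1 : D (τ.lam δ Q - δ g) = 0 := by
      rw [map_sub, br_lam hst hlM hδM hδP hQ, br_zero hst hlM hδM hδP g hg, hl, sub_self]
    obtain ⟨c, hc⟩ := hyp.con _ h1
    have hgM : g ∈ M := trC (hyp.nice _ hA₁) hP hδM hδP (hA1 _ hA₁).src hτ hQ hg (by
      rw [← hc]; exact M.algebraMap_mem c)
    have ha : τ.lam D Q ∈ M := by rw [hl]; exact hst g hgM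
    obtain ⟨b, R, hR, hlR⟩ := twist_neg hyp h0 hA₁ hP hlP hQ ha
    obtain ⟨h', hh1, hh2, hh3⟩ := (hU _).1 hlP
    have h2 : τ.lam D R ∈ U := by
      have hH : (-2 : C) • (g - b • h') ∈ H :=
        H.smul_mem _ (H.sub_mem hgH (H.smul_mem b hh2))
      have hMm : (-2 : C) • (g - b • h') ∈ M :=
        IntermediateField.smul_mem _ (sub_mem hgM (IntermediateField.smul_mem _ (h0.le hh1)))
      apply ih hR hMm hH
      rw [hlR, hl, hh3, D.map_smul, map_sub, D.map_smul, Algebra.smul_def, Algebra.smul_def,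
        map_neg, map_ofNat]
    have h3 : τ.lam D Q - algebraMap C L b * τ₁.lam D P ∈ U := by
      apply div_mem_U (n := -2) (by norm_num)
      push_cast
      rw [← hlR]; exact h2
    have h4 : algebraMap C L b * τ₁.lam D P ∈ U := by
      rw [← Algebra.smul_def]
      exact U.smul_mem b hlP
    have := U.add_mem h3 h4
    rwa [sub_add_cancel] at this

/-- logarithmic derivatives of points on elliptic curves over chains -/
theorem lev_b (hyp : Hyp A D G U) (hA' : ∀ τ, A τ → Src τ ∨ SrcA τ) (V : Submodule C L)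
    (hUV : U ≤ V) {τ : AGp C} (hτ : TgtE τ)
    (hG : ∀ Q : τ.G L, τ.Rat G Q → τ.lam D Q ∈ V) {M : IntermediateField C L}
    (h : Ch A D G U M) {Q : τ.G L} (hQ : τ.Rat M Q) : τ.lam D Q ∈ V := by
  have hL := cz (C := C) L
  induction h generalizing Q with
  | base => exact hG Q hQ
  | @step M τ₁ P h0 hA₁ hP hlP ih =>
    have hst := h0.stab hyp
    have hlM := h0.le (hyp.le _ hlP)
    have hn := hyp.nice _ hA₁
    obtain ⟨δ₀, hδP⟩ := hn.exd M P hP
    set δ : Derivation C L L := δ₀.restrictScalars C with hδ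
    have hδM : ∀ x ∈ M, δ x = 0 := fun x hx => δ₀.map_algebraMap ⟨x, hx⟩
    rcases hA' _ hA₁ with hs | hs
    · have h1 : τ.lam δ Q ∈ M := trA hn hP hδM hδP (Or.inl hs) hτ hQ
      have h2 : δ (τ.lam D Q) ∈ M := by
        rw [← br_lam hst hlM hδM hδP hQ]
        exact hst _ h1
      have hst' : Stab D (τ₁.adj M P) := stab_adj hn hst (τ₁.le_adj M P hlM)
      have h3 : τ.lam D Q ∈ τ₁.adj M P := lam_mem hn hst' hQ
      have ha : τ.lam D Q ∈ M := trB hn hP hδM hδP hs h3 h2
      obtain ⟨b, R, hR, hlR⟩ := twist_neg hyp h0 hA₁ hP hlP hQ ha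
      have h4 := ih hR
      have h5 : τ.lam D Q - algebraMap C L b * τ₁.lam D P ∈ V := by
        apply div_mem_U (n := -2) (by norm_num)
        push_cast
        rw [← hlR]; exact h4
      have h6 : algebraMap C L b * τ₁.lam D P ∈ V := by
        rw [← Algebra.smul_def]
        exact V.smul_mem b (hUV hlP)
      have := V.add_mem h5 h6
      rwa [sub_add_cancel] at this
    · have h1 := trA' hn hP hδM hδP hs hτ hQ
      apply ih
      intro x hx
      exact ker_adj hn hP hδM (by rw [hδP]; exact one_ne_zero) (hQ x hx)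
        (τ.const_of_lam δ Q h1 x hx)

end lev

end Pool.Agent.Helper6.EE
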