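import Pool.Graph.R_seed8.W603.LV.Can
import Pool.Agent.Helper6.EE.ExtE

/-! Places of function fields generated by two elements. -/

set_option autoImplicit false

open Polynomial FF IntermediateField Pool.Agent.W603.LV

namespace Pool.Agent.Helper6.EE

variable {k K : Type} [Field k] [Field K] [Algebra k K]

theorem taylor1 (u₀ : k) (p : k[X]) : ∃ q : k[X], p = C (eval u₀ p) + (X - C u₀) * q := by
  obtain ⟨q, hq⟩ := X_sub_C_dvd_sub_C_eval (a := u₀) (p := p)
  exact ⟨q, by rw [← hq]; ring⟩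

theorem taylor2 (u₀ v₀ : k) (F : k[X][X]) : ∃ H₁ H₂ : k[X][X],
    F = C (C (aevalAeval u₀ v₀ F)) + C (X - C u₀) * H₁ + (X - C (C v₀)) * H₂ := by
  obtain ⟨H₂, h2⟩ := X_sub_C_dvd_sub_C_eval (a := (C v₀ : k[X])) (p := F)
  obtain ⟨q, hq⟩ := taylor1 u₀ (eval (C v₀) F)
  have h3 : aevalAeval u₀ v₀ F = eval u₀ (eval (C v₀) F) := by
    rw [coe_aevalAeval_eq_evalEval]
  refine ⟨C q, H₂, ?_⟩
  rw [h3]
  have h4 : F = C (eval (C v₀) F) + (X - C (C v₀)) * H₂ := by rw [← h2]; ring
  conv_lhs => rw [h4, hq]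
  simp only [C_add, C_mul]

theorem aa_C (u v : K) (c : k) : aevalAeval u v (C (C c) : k[X][X]) = algebraMap k K c := by
  rw [aevalAeval_C, aeval_C]

/-- elements of positive order generating the local ring -/
theorem ord_one_of (w : Place k K) {π : K} (hπ : 0 < w.ord π) (R : Set K)
    (hR : ∀ z ∈ R, Ge w 0 z) (hd : ∀ z ∈ R, ∃ c : k, ∃ z' ∈ R, z = algebraMap k K c + π * z')
    (hf : ∀ z : K, ∃ p ∈ R, ∃ q ∈ R, q ≠ 0 ∧ z = p / q) : w.ord π = 1 := by
  have hπ0 : π ≠ 0 := by
    rintro rfl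
    rw [w.ord_zero] at hπ; omega
  have key : ∀ n : ℕ, ∀ z ∈ R, z ≠ 0 → w.ord z < n → w.ord π ∣ w.ord z := by
    intro n
    induction n with
    | zero =>
      intro z hz hz0 hn
      have := (hR z hz).resolve_left hz0
      exfalso
      push_cast at hn
      omega
    | succ n ih =>
      intro z hz hz0 hn
      obtain ⟨c, z', hz', e⟩ := hd z hz
      by_cases hz'0 : z' = 0
      · rw [hz'0, mul_zero, add_zero] at e
        have hc : c ≠ 0 := by
          rintro rfl
          rw [map_zero] at e; exact hz0 e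
        rw [e, w.ord_const hc]
        exact dvd_zero _
      have h1 := (hR z' hz').resolve_left hz'0
      by_cases hc : c = 0
      · rw [hc, map_zero, zero_add] at e
        rw [e, w.ord_mul hπ0 hz'0]
        rw [e, w.ord_mul hπ0 hz'0] at hn
        push_cast at hn
        exact dvd_add (dvd_refl _) (ih z' hz' hz'0 (by omega))
      · have h2 : algebraMap k K c ≠ 0 := by simpa using hc
        have h3 := w.ord_add_eq (f := algebraMap k K c) (g := π * z') h2
          (mul_ne_zero hπ0 hz'0) (by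
            rw [w.ord_const hc, w.ord_mul hπ0 hz'0]; omega)
        rw [e, h3.2, w.ord_const hc]
        exact dvd_zero _
  have key2 : ∀ z ∈ R, z ≠ 0 → w.ord π ∣ w.ord z := by
    intro z hz hz0
    obtain ⟨n, hn⟩ : ∃ n : ℕ, w.ord z < n := ⟨(w.ord z).toNat + 1, by push_cast; omega⟩
    exact key n z hz hz0 hn
  obtain ⟨t, ht0, ht⟩ := w.surj
  obtain ⟨p, hp, q, hq, hq0, e⟩ := hf t
  have hp0 : p ≠ 0 := by
    rintro rfl
    rw [zero_div] at e; exact ht0 e
  rw [e, w.ord_div hp0 hq0] at ht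
  have h4 : w.ord π ∣ 1 := by
    rw [← ht]
    exact dvd_sub (key2 p hp hp0) (key2 q hq hq0)
  exact Int.eq_one_of_dvd_one hπ.le h4

theorem range_aa (u v : K) :
    Algebra.adjoin k {u, v} = (aevalAeval u v : k[X][X] →ₐ[k] K).range := by
  apply le_antisymm
  · rw [Algebra.adjoin_le_iff]
    intro z hz
    rcases hz with rfl | hz
    · exact ⟨C X, aevalAeval_X _ _⟩
    · rw [Set.mem_singleton_iff] at hz
      subst hz
      exact ⟨X, aevalAeval_Y _ _⟩
  · rintro _ ⟨r, rfl⟩
    change aevalAeval u v r ∈ _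
    induction r using Polynomial.induction_on with
    | C p =>
      rw [aevalAeval_C]
      exact Algebra.adjoin_mono (by simp) (by
        rw [Algebra.adjoin_singleton_eq_range_aeval]
        exact ⟨p, rfl⟩ : aeval u p ∈ Algebra.adjoin k {u})
    | add p q hp hq => rw [map_add]; exact add_mem hp hq
    | monomial n p hp =>
      rw [pow_succ, ← mul_assoc, map_mul, aevalAeval_Y]
      exact mul_mem hp (Algebra.subset_adjoin (by simp))

/-- a local criterion for `u - u₀` to be a uniformizer -/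
theorem unif_of (w : Place k K) {u v : K} {u₀ v₀ : k}
    (htop : IntermediateField.adjoin k {u, v} = ⊤) (hu : 0 < w.ord (u - algebraMap k K u₀))
    (hv : Ge w 1 (v - algebraMap k K v₀)) (α β : k[X][X]) (hα : aevalAeval u₀ v₀ α ≠ 0)
    (h : (v - algebraMap k K v₀) * aevalAeval u v α =
      (u - algebraMap k K u₀) * aevalAeval u v β) : w.ord (u - algebraMap k K u₀) = 1 := by
  have hu1 : Ge w 1 (u - algebraMap k K u₀) := Or.inr (by omega)
  have hu0 : Ge w 0 u := by
    have := (hu1.mono (by norm_num : (0 : ℤ) ≤ 1)).add (Ge.const (P := w) u₀)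
    simpa using this
  have hv0 : Ge w 0 v := by
    have := (hv.mono (by norm_num : (0 : ℤ) ≤ 1)).add (Ge.const (P := w) v₀)
    simpa using this
  have hreg : ∀ F : k[X][X], Ge w 0 (aevalAeval u v F) := by
    intro F
    induction F using Polynomial.induction_on with
    | C p => rw [aevalAeval_C]; exact ge_aeval w hu0 p
    | add p q hp hq => rw [map_add]; exact hp.add hq
    | monomial n p hp =>
      rw [pow_succ, ← mul_assoc, map_mul, aevalAeval_Y]
      simpa using hp.mul hv0
  have hval : ∀ F : k[X][X], Ge w 1 (aevalAeval u v F - algebraMap k K (aevalAeval u₀ v₀ F)) := by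
    intro F
    obtain ⟨H₁, H₂, e⟩ := taylor2 u₀ v₀ F
    have h1 := congrArg (aevalAeval u v) e
    simp only [map_add, map_sub, map_mul, aevalAeval_C, aevalAeval_Y, aeval_X, aeval_C] at h1
    rw [h1]
    have h2 := (hu1.mul (hreg H₁)).add (hv.mul (hreg H₂))
    have h3 : algebraMap k K (aevalAeval u₀ v₀ F) + (u - algebraMap k K u₀) * aevalAeval u v H₁ +
        (v - algebraMap k K v₀) * aevalAeval u v H₂ - algebraMap k K (aevalAeval u₀ v₀ F) =
        (u - algebraMap k K u₀) * aevalAeval u v H₁ +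
        (v - algebraMap k K v₀) * aevalAeval u v H₂ := by ring
    rw [h3]
    simpa using h2
  have hunit : ∀ F : k[X][X], aevalAeval u₀ v₀ F ≠ 0 →
      aevalAeval u v F ≠ 0 ∧ w.ord (aevalAeval u v F) = 0 := by
    intro F hF
    have h1 : algebraMap k K (aevalAeval u₀ v₀ F) ≠ 0 := by simpa using hF
    have h2 : aevalAeval u v F = algebraMap k K (aevalAeval u₀ v₀ F) +
        (aevalAeval u v F - algebraMap k K (aevalAeval u₀ v₀ F)) := by ring
    rcases hval F with h3 | h3
    · rw [h2, h3, add_zero]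
      exact ⟨h1, w.ord_const hF⟩
    · by_cases h4 : aevalAeval u v F - algebraMap k K (aevalAeval u₀ v₀ F) = 0
      · rw [h2, h4, add_zero]
        exact ⟨h1, w.ord_const hF⟩
      · have h5 := w.ord_add_eq h1 h4 (by rw [w.ord_const hF]; omega)
        rw [← h2] at h5
        exact ⟨h5.1, by rw [h5.2, w.ord_const hF]⟩
  let R : Set K := {z | ∃ F G : k[X][X], aevalAeval u₀ v₀ G ≠ 0 ∧
    z = aevalAeval u v F / aevalAeval u v G}
  apply ord_one_of w hu R
  · rintro z ⟨F, G, hG, rfl⟩
    obtain ⟨h1, h2⟩ := hunit G hG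
    rcases hreg F with h3 | h3
    · rw [h3, zero_div]; exact Or.inl rfl
    · by_cases h4 : aevalAeval u v F = 0
      · rw [h4, zero_div]; exact Or.inl rfl
      · right
        rw [w.ord_div h4 h1, h2]; omega
  · rintro z ⟨F, G, hG, rfl⟩
    obtain ⟨h1, h2⟩ := hunit G hG
    obtain ⟨h1α, h2α⟩ := hunit α hα
    set F₀ := aevalAeval u₀ v₀ F with hF₀
    set G₀ := aevalAeval u₀ v₀ G with hG₀
    have hG₀K : algebraMap k K G₀ ≠ 0 := by simpa using hG
    obtain ⟨H₁, H₂, e⟩ := taylor2 u₀ v₀ (C (C G₀) * F - C (C F₀) * G)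
    have h5 : aevalAeval u₀ v₀ (C (C G₀) * F - C (C F₀) * G) = 0 := by
      rw [map_sub, map_mul, map_mul, ← hF₀, ← hG₀, aa_C, aa_C]
      simp only [Algebra.algebraMap_self, RingHom.id_apply]
      ring
    rw [h5] at e
    have h6 := congrArg (aevalAeval u v) e
    simp only [map_add, map_sub, map_mul, aevalAeval_C, aevalAeval_Y, aeval_X, aeval_C, map_zero,
      zero_add] at h6
    refine ⟨F₀ / G₀, _, ⟨H₁ * α + H₂ * β, C (C G₀) * G * α, ?_, rfl⟩, ?_⟩
    · rw [map_mul, map_mul, aa_C]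
      exact mul_ne_zero (mul_ne_zero hG hG) hα
    · simp only [map_mul, map_add, aa_C, map_div₀]
      field_simp
      linear_combination (aevalAeval u v α) * h6 + (aevalAeval u v H₂) * h
  · intro z
    have hz : z ∈ IntermediateField.adjoin k {u, v} := by rw [htop]; trivial
    rw [IntermediateField.mem_adjoin_iff_div] at hz
    obtain ⟨r, hr, s, hs, e⟩ := hz
    rw [range_aa] at hr hs
    obtain ⟨F, rfl⟩ := hr
    obtain ⟨G, rfl⟩ := hs
    have one : aevalAeval u₀ v₀ (1 : k[X][X]) ≠ 0 := by rw [map_one]; exact one_ne_zero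
    by_cases hG : aevalAeval u v G = 0
    · refine ⟨0, ⟨0, 1, one, by simp⟩, 1, ⟨1, 1, one, by simp⟩, one_ne_zero, ?_⟩
      rw [e]
      change aevalAeval u v F / aevalAeval u v G = 0 / 1
      rw [hG]; simp
    · exact ⟨aevalAeval u v F, ⟨F, 1, one, by simp⟩, aevalAeval u v G, ⟨G, 1, one, by simp⟩, hG, e⟩

end Pool.Agent.Helper6.EE
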