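import Pool.Agent.Helper6.EE.Pl
import Pool.Agent.Helper6.EE.Gen

/-! Orders of the invariant derivations at the places of rational and elliptic function
fields. -/

set_option autoImplicit false

open Polynomial FF IntermediateField Pool.Agent.W603.LV

namespace Pool.Agent.Helper6.EE

variable {k K : Type} [Field k] [Field K] [Algebra k K]

section
variable [CharZero k] [IsFF k K] [IsAlgClosed k]

/-- functions without poles are constant -/
theorem const_of_reg {z : K} (h : ∀ w : Place k K, Ge w 0 z) : ∃ c : k, algebraMap k K c = z := by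
  by_cases hz : Transcendental k z
  · exfalso
    obtain ⟨S, hS, hsum⟩ := poles hz
    have h1 : S = ∅ := by
      rw [Finset.eq_empty_iff_forall_notMem]
      intro w hw
      have h2 := (hS w).1 hw
      rcases h w with h3 | h3
      · rw [h3, w.ord_zero] at h2; omega
      · omega
    rw [h1, Finset.sum_empty] at hsum
    have hfin := IsFF.finite hz
    have := Module.finrank_pos (R := k⟮z⟯) (M := K)
    omega
  · rw [Transcendental, not_not] at hz
    have := minpoly.mem_range_of_degree_eq_one k z
      (IsAlgClosed.degree_eq_one_of_irreducible k (minpoly.irreducible hz.isIntegral))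
    exact this

theorem exists_pole {z : K} (h : ∀ c : k, algebraMap k K c ≠ z) : ∃ w : Place k K, w.ord z < 0 := by
  by_contra hc
  push Not at hc
  obtain ⟨c, hcc⟩ := const_of_reg (z := z) (fun w => Or.inr (hc w))
  exact h c hcc

theorem ord_sub_const (w : Place k K) {T : K} (hT : Transcendental k T) (h : Ge w 0 T) :
    ∃ c : k, 0 < w.ord (T - algebraMap k K c) := by
  obtain ⟨c, hc⟩ := exists_const w h
  refine ⟨c, ?_⟩
  rcases hc with hc | hc
  · exfalso
    apply hT
    rw [sub_eq_zero.1 hc]
    exact isAlgebraic_algebraMap c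
  · omega

/-- rational function fields -/
theorem rat_unif (w : Place k K) {T : K}
    (htop : IntermediateField.adjoin k {T} = ⊤) {c : k}
    (h : 0 < w.ord (T - algebraMap k K c)) : w.ord (T - algebraMap k K c) = 1 := by
  refine unif_of w (u := T) (v := 0) (v₀ := 0) ?_ h ?_ 1 0 ?_ ?_
  · rw [eq_top_iff, ← htop]
    exact IntermediateField.adjoin.mono _ _ _ (by simp)
  · left; simp
  · rw [map_one]; exact one_ne_zero
  · simp

theorem der_sub_const (D : Derivation k K K) (T : K) (c : k) :
    D (T - algebraMap k K c) = D T := by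
  rw [map_sub, D.map_algebraMap, sub_zero]

theorem vo_Ga (w : Place k K) {T : K} (hT : Transcendental k T)
    (htop : IntermediateField.adjoin k {T} = ⊤) {D : Derivation k K K} (hD : D T = 1) :
    (Ge w 0 T → vo w D = 0) ∧ (w.ord T < 0 → vo w D = 2) := by
  have hD0 : D ≠ 0 := by
    rintro rfl
    exact zero_ne_one hD
  constructor
  · intro h
    obtain ⟨c, hc⟩ := ord_sub_const w hT h
    have h1 := rat_unif w htop hc
    have h2 := (ord_der w hD0 (f := T - algebraMap k K c) (by omega)).2
    rw [der_sub_const, hD, w.ord_one] at h2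
    omega
  · intro h
    have h3 : 0 < w.ord (T⁻¹ - algebraMap k K 0) := by
      rw [map_zero, sub_zero, w.ord_inv]; omega
    have h1 := rat_unif w (T := T⁻¹) (by rw [FF.adjoin_inv]; exact htop) h3
    rw [map_zero, sub_zero, w.ord_inv] at h1
    have h2 := (ord_der w hD0 (f := T) (by omega)).2
    rw [hD, w.ord_one] at h2
    omega

theorem vo_Gm (w : Place k K) {T : K} (hT : Transcendental k T)
    (htop : IntermediateField.adjoin k {T} = ⊤) {D : Derivation k K K} (hD : D T = T) :
    0 ≤ vo w D ∧ vo w D ≤ 1 := by
  have hT0 : T ≠ 0 := by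
    rintro rfl
    exact hT isAlgebraic_zero
  have hD0 : D ≠ 0 := by
    rintro rfl
    exact hT0 hD.symm
  by_cases h : w.ord T = 0
  · obtain ⟨c, hc⟩ := ord_sub_const w hT (Or.inr h.ge)
    have h1 := rat_unif w htop hc
    have h2 := (ord_der w hD0 (f := T - algebraMap k K c) (by omega)).2
    rw [der_sub_const, hD, h] at h2
    omega
  · have h2 := (ord_der w hD0 (f := T) h).2
    rw [hD] at h2
    omega

theorem ord_cases (w : Place k K) {f g : K} (hg : g ≠ 0) (h : f ^ 2 = g) :
    2 * w.ord f = w.ord g := by
  rw [← h, w.ord_pow]; push_cast; ring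

theorem ge_add_lt (w : Place k K) {f g : K} (hf : f ≠ 0) (h : Ge w (w.ord f + 1) g) :
    f + g ≠ 0 ∧ w.ord (f + g) = w.ord f := by
  by_cases hg : g = 0
  · rw [hg, add_zero]; exact ⟨hf, rfl⟩
  · exact w.ord_add_eq hf hg (by have := h.resolve_left hg; omega)

theorem ge_one_of_const (w : Place k K) {z : K} {c : k} (h : Ge w 1 (z - algebraMap k K c))
    (hc : c ≠ 0) : z ≠ 0 ∧ w.ord z = 0 := by
  have h1 : algebraMap k K c ≠ 0 := by simpa using hc
  have h2 := ge_add_lt w h1 (g := z - algebraMap k K c) (by
    rw [w.ord_const hc]; exact h)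
  rw [add_sub_cancel, w.ord_const hc] at h2
  exact h2

/-- order at a pole of `x` -/
theorem pole_xy (w : Place k K) {a b : k} {x y : K} (hx : w.ord x < 0)
    (hy : y ^ 2 = x ^ 3 + algebraMap k K a * x + algebraMap k K b) :
    y ≠ 0 ∧ 2 * w.ord y = 3 * w.ord x := by
  have hx0 : x ≠ 0 := by
    rintro rfl
    rw [w.ord_zero] at hx; omega
  have h1 : Ge w (w.ord (x ^ 3) + 1) (algebraMap k K a * x + algebraMap k K b) := by
    rw [w.ord_pow]
    refine Ge.add ?_ ?_
    · have h2 := (Ge.const (P := w) a).mul (Or.inr le_rfl : Ge w (w.ord x) x)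
      exact h2.mono (by push_cast; omega)
    · exact (Ge.const (P := w) b).mono (by push_cast; omega)
  have h2 := ge_add_lt w (pow_ne_zero 3 hx0) h1
  have h3 : x ^ 3 + (algebraMap k K a * x + algebraMap k K b) = y ^ 2 := by rw [hy]; ring
  rw [h3, w.ord_pow, w.ord_pow] at h2
  refine ⟨?_, by have := h2.2; push_cast at this; omega⟩
  rintro rfl
  exact h2.1 (by simp)

theorem vo_Ell (w : Place k K) {a b : k} (hab : 4 * a ^ 3 + 27 * b ^ 2 ≠ 0) {x y : K}
    (hx : Transcendental k x)
    (hy : y ^ 2 = x ^ 3 + algebraMap k K a * x + algebraMap k K b)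
    (htop : IntermediateField.adjoin k {x, y} = ⊤) {D : Derivation k K K} (hD : D x = 2 * y) :
    vo w D = 0 := by
  have hK : CharZero K := charZero_of_injective_algebraMap (algebraMap k K).injective
  have hy0 : y ≠ 0 := by
    rintro rfl
    have h1 : aeval x (cub a b) = 0 := by rw [aeval_cub, ← hy]; simp
    exact cub_ne_zero a b (transcendental_iff.1 hx _ h1)
  have hyt : Transcendental k y := by
    intro hya
    have h1 : aeval x (cub a b) = y ^ 2 := by rw [aeval_cub, hy]
    have h2 : Transcendental k (aeval x (cub a b)) := by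
      apply hx.aeval
      · rw [cub_natDegree]; norm_num
      · exact mem_nonZeroDivisors_of_ne_zero (leadingCoeff_ne_zero.2 (cub_ne_zero a b))
    rw [h1] at h2
    exact h2 (hya.pow 2)
  have hD0 : D ≠ 0 := by
    rintro rfl
    exact (mul_ne_zero two_ne_zero hy0) hD.symm
  have hDy : D y = 3 * x ^ 2 + algebraMap k K a := by
    have h1 := congrArg D hy
    simp only [map_add, D.leibniz_pow, D.leibniz, D.map_algebraMap, smul_eq_mul, nsmul_eq_mul,
      hD] at h1
    push_cast at h1
    have h2 : 2 * y * D y = 2 * y * (3 * x ^ 2 + algebraMap k K a) := by linear_combination h1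
    exact mul_left_cancel₀ (mul_ne_zero two_ne_zero hy0) h2
  have two : w.ord (2 : K) = 0 := by
    have := w.ord_const (c := (2 : k)) two_ne_zero
    rwa [map_ofNat] at this
  by_cases hreg : Ge w 0 x
  · have hyreg : Ge w 0 y := by
      right
      have h1 : Ge w 0 (y ^ 2) := by
        rw [hy]
        refine ((?_ : Ge w 0 (x ^ 3)).add ?_).add (Ge.const b)
        · simpa using hreg.pow 3
        · simpa using (Ge.const (P := w) a).mul hreg
      have h2 := h1.resolve_left (pow_ne_zero 2 hy0)
      rw [w.ord_pow] at h2
      push_cast at h2; omega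
    obtain ⟨x₀, hx₀⟩ := ord_sub_const w hx hreg
    obtain ⟨y₀, hy₀⟩ := ord_sub_const w hyt hyreg
    have hx1 : Ge w 1 (x - algebraMap k K x₀) := Or.inr (by omega)
    have hy1 : Ge w 1 (y - algebraMap k K y₀) := Or.inr (by omega)
    -- the point lies on the curve
    have heq : y₀ ^ 2 = x₀ ^ 3 + a * x₀ + b := by
      have h1 : Ge w 1 (algebraMap k K (y₀ ^ 2 - (x₀ ^ 3 + a * x₀ + b))) := by
        have h2 : algebraMap k K (y₀ ^ 2 - (x₀ ^ 3 + a * x₀ + b)) =
            (x - algebraMap k K x₀) * (x ^ 2 + x * algebraMap k K x₀ + algebraMap k K x₀ ^ 2 +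
              algebraMap k K a) - (y - algebraMap k K y₀) * (y + algebraMap k K y₀) := by
          simp only [map_sub, map_add, map_mul, map_pow]
          linear_combination hy
        rw [h2]
        refine Ge.sub ?_ ?_
        · refine (hx1.mul (M := 0) ?_).mono (by norm_num)
          refine (Ge.add (Ge.add ?_ ?_) ?_).add (Ge.const a)
          · simpa using hreg.pow 2
          · simpa using hreg.mul (Ge.const x₀)
          · rw [← map_pow]; exact Ge.const _
        · exact (hy1.mul (hyreg.add (Ge.const y₀))).mono (by norm_num)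
      by_contra hne
      have h3 : y₀ ^ 2 - (x₀ ^ 3 + a * x₀ + b) ≠ 0 := sub_ne_zero.2 hne
      rcases h1 with h1 | h1
      · exact h3 ((map_eq_zero _).1 h1)
      · rw [w.ord_const h3] at h1; omega
    by_cases hy00 : y₀ = 0
    · -- two-torsion
      subst hy00
      have hf' : 3 * x₀ ^ 2 + a ≠ 0 := by
        intro h0
        apply hab
        have h1 : x₀ ^ 3 + a * x₀ + b = 0 := by rw [← heq]; ring
        linear_combination (27 * b - 18 * a * x₀) * h1 +
          (6 * a * x₀ ^ 2 - 9 * b * x₀ + 4 * a ^ 2) * h0
      have hy2 : 0 < w.ord (y - algebraMap k K 0) := hy₀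
      have h1 : w.ord (y - algebraMap k K 0) = 1 := by
        refine unif_of w (u := y) (v := x) (u₀ := 0) (v₀ := x₀) ?_ hy2 hx1
          (X ^ 2 + C (C x₀) * X + C (C (x₀ ^ 2 + a))) (C X) ?_ ?_
        · rw [← htop, Set.pair_comm]
        · simp only [map_add, map_mul, map_pow, aevalAeval_Y, aevalAeval_C, aeval_C]
          simp only [Algebra.algebraMap_self, RingHom.id_apply]
          intro h0; apply hf'; linear_combination h0
        · simp only [map_add, map_mul, map_pow, aevalAeval_Y, aevalAeval_C, aeval_C, aeval_X,
            map_zero, sub_zero]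
          have heqK := congrArg (algebraMap k K) heq
          simp only [map_add, map_mul, map_pow, map_zero] at heqK
          linear_combination -hy + heqK
      rw [map_zero, sub_zero] at h1
      have h2 := (ord_der w hD0 (f := y) (by omega)).2
      have h3 := (ge_one_of_const w (z := 3 * x ^ 2 + algebraMap k K a)
        (c := 3 * x₀ ^ 2 + a) (by
          have h4 : 3 * x ^ 2 + algebraMap k K a - algebraMap k K (3 * x₀ ^ 2 + a) =
              (x - algebraMap k K x₀) * (algebraMap k K 3 * (x + algebraMap k K x₀)) := by
            simp only [map_add, map_mul, map_pow, map_ofNat]; ring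
          rw [h4]
          have := hx1.mul ((Ge.const (P := w) (3 : k)).mul (hreg.add (Ge.const x₀)))
          simpa using this) hf').2
      rw [hDy, h3] at h2
      omega
    · have h1 : w.ord (x - algebraMap k K x₀) = 1 := by
        apply unif_of w (u := x) (v := y) (u₀ := x₀) (v₀ := y₀)
          (α := X + C (C y₀)) (β := C (X ^ 2 + C x₀ * X + C (x₀ ^ 2 + a))) htop hx₀ hy1
        · simp only [map_add, aevalAeval_Y, aevalAeval_C, aeval_C]
          simp only [Algebra.algebraMap_self, RingHom.id_apply]
          intro h0
          apply hy00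
          have h5 : (2 : k) * y₀ = 0 := by linear_combination h0
          exact (mul_eq_zero.1 h5).resolve_left two_ne_zero
        · simp only [map_add, map_mul, map_pow, aevalAeval_Y, aevalAeval_C, aeval_C, aeval_X]
          have heqK := congrArg (algebraMap k K) heq
          simp only [map_add, map_mul, map_pow] at heqK
          linear_combination hy - heqK
      have h2 := (ord_der w hD0 (f := x - algebraMap k K x₀) (by omega)).2
      have h3 := (ge_one_of_const w (z := y) hy1 hy00).2
      rw [der_sub_const, hD, w.ord_mul two_ne_zero hy0, two, h3] at h2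
      omega
  · -- infinity
    have hneg : w.ord x < 0 := by
      by_contra h
      exact hreg (Or.inr (by omega))
    have hx0 : x ≠ 0 := by
      rintro rfl
      exact hreg (Or.inl rfl)
    obtain ⟨-, hxy⟩ := pole_xy w hneg hy
    set s := x / y with hs
    set t := y⁻¹ with ht
    have hs0 : s ≠ 0 := div_ne_zero hx0 hy0
    have hsord : w.ord s = w.ord x - w.ord y := w.ord_div hx0 hy0
    have htord : w.ord t = - w.ord y := w.ord_inv y
    have h1 : w.ord (s - algebraMap k K 0) = 1 := by
      refine unif_of w (u := s) (v := t) (u₀ := 0) (v₀ := 0) ?_ ?_ ?_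
        (1 - C (C a * X) * X - C (C b) * X ^ 2) (C (X ^ 2)) ?_ ?_
      · rw [eq_top_iff, ← htop]
        apply IntermediateField.adjoin_le_iff.2
        have hsm : s ∈ IntermediateField.adjoin k {s, t} := subset_adjoin _ _ (by simp)
        have htm : t ∈ IntermediateField.adjoin k {s, t} := subset_adjoin _ _ (by simp)
        have hym : y ∈ IntermediateField.adjoin k {s, t} := by
          have := inv_mem htm
          rwa [ht, inv_inv] at this
        intro z hz
        rcases hz with rfl | hz
        · have := mul_mem hsm hym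
          rwa [hs, div_mul_cancel₀ _ hy0] at this
        · rw [Set.mem_singleton_iff] at hz
          subst hz
          exact hym
      · rw [map_zero, sub_zero]; omega
      · right; rw [map_zero, sub_zero]; omega
      · simp only [map_sub, map_one, map_mul, map_pow, aevalAeval_Y, aevalAeval_C, aeval_C,
          aeval_X]
        simp
      · simp only [map_sub, map_one, map_mul, map_pow, aevalAeval_Y, aevalAeval_C, aeval_C,
          aeval_X, map_zero, sub_zero]
        rw [hs, ht]
        field_simp
        linear_combination hy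
    rw [map_zero, sub_zero] at h1
    have h2 := (ord_der w hD0 (f := s) (by omega)).2
    have h3 : D s = -((x ^ 3 - (algebraMap k K a * x + algebraMap k K (2 * b))) / y ^ 2) := by
      rw [hs, D.leibniz_div, hD, hDy]
      simp only [smul_eq_mul, map_mul, map_ofNat]
      field_simp
      linear_combination 2 * hy
    have h4 : Ge w (w.ord (x ^ 3) + 1) (-(algebraMap k K a * x + algebraMap k K (2 * b))) := by
      apply Ge.neg
      rw [w.ord_pow]
      refine Ge.add ?_ ?_
      · have h2 := (Ge.const (P := w) a).mul (Or.inr le_rfl : Ge w (w.ord x) x)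
        exact h2.mono (by push_cast; omega)
      · exact (Ge.const (P := w) (2 * b)).mono (by push_cast; omega)
    have h5 := ge_add_lt w (pow_ne_zero 3 hx0) h4
    rw [← sub_eq_add_neg] at h5
    rw [h3, w.ord_neg, w.ord_div h5.1 (pow_ne_zero 2 hy0), h5.2, w.ord_pow, w.ord_pow] at h2
    push_cast at h2
    omega

end

end Pool.Agent.Helper6.EE
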