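import Pool.Agent.Helper6.EE.Pl2

/-! The logarithmic derivative of a point at the places. -/

set_option autoImplicit false

open Polynomial FF IntermediateField Pool.Agent.W603.LV

namespace Pool.Agent.Helper6.EE

variable {C : Type} [Field C] [CharZero C]

/-- an upper bound for poles of logarithmic derivatives -/
def Tgt (τ : AGp C) : Prop := ∀ {k K : Type} [Field k] [Field K] [Algebra C k] [Algebra C K]
  [Algebra k K] [IsScalarTower C k K] [IsFF k K] [IsAlgClosed k] (D : Derivation k K K)
  (_ : D ≠ 0) (w : Place k K) (Q : τ.G K), Ge w (vo w D - 1) (τ.lam (D.restrictScalars C) Q)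

/-- regularity of logarithmic derivatives -/
def TgtE (τ : AGp C) : Prop := ∀ {k K : Type} [Field k] [Field K] [Algebra C k] [Algebra C K]
  [Algebra k K] [IsScalarTower C k K] [IsFF k K] [IsAlgClosed k] (D : Derivation k K K)
  (_ : D ≠ 0) (w : Place k K) (Q : τ.G K), Ge w (vo w D) (τ.lam (D.restrictScalars C) Q)

theorem TgtE.tgt {τ : AGp C} (h : TgtE τ) : Tgt τ := by
  intro k K _ _ _ _ _ _ _ _ D hD w Q
  exact (h D hD w Q).mono (by omega)

section
variable {k K : Type} [Field k] [Field K] [Algebra k K] [CharZero k] [IsFF k K] [IsAlgClosed k]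

theorem der_ge (w : Place k K) {D : Derivation k K K} (hD : D ≠ 0) {f : K} (hf : Ge w 0 f) :
    Ge w (vo w D) (D f) := by
  obtain ⟨g, hg, e⟩ := der_mul w (ord_unif w) hD hf
  rw [e]
  have h1 : Ge w (vo w D) (D (unif w)) := Or.inr le_rfl
  simpa using h1.mul hg

theorem Ge.div_unit {w : Place k K} {N : ℤ} {f g : K} (hf : Ge w N f) (hg : w.ord g = 0) :
    Ge w N (f / g) := by
  rw [div_eq_mul_inv]
  have : Ge w 0 g⁻¹ := by
    by_cases h : g = 0
    · left; simp [h]
    · right; rw [w.ord_inv, hg]; simp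
  simpa using hf.mul this

end

theorem tgt_Gm : Tgt (Gm : AGp C) := by
  intro k K _ _ _ _ _ _ _ _ D hD w Q
  have := cz (C := C) k
  set u := ((Additive.toMul Q : Kˣ) : K) with hu
  have hu0 : u ≠ 0 := (Additive.toMul Q : Kˣ).ne_zero
  change Ge w (vo w D - 1) (D u / u)
  by_cases h : w.ord u = 0
  · have h1 := der_ge w hD (f := u) (Or.inr h.ge)
    exact (Ge.div_unit h1 h).mono (by omega)
  · obtain ⟨h1, h2⟩ := ord_der w hD h
    right
    rw [w.ord_div h1 hu0, h2]
    omega

theorem tgtE_Ell {a b : C} (hab : 4 * a ^ 3 + 27 * b ^ 2 ≠ 0) : TgtE (Ell a b) := by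
  intro k K _ _ _ _ _ _ _ _ D hD w Q
  have hk := cz (C := C) k
  have hK := cz (C := C) K
  rcases Q with _ | ⟨x, y, hxy⟩
  · left; rfl
  obtain ⟨d1, d2⟩ := der_pt (D.restrictScalars C) hxy
  have E1 := ((WK_nonsingular a b x y).1 hxy).1
  rw [IsScalarTower.algebraMap_apply C k K, IsScalarTower.algebraMap_apply C k K] at E1
  set a' := algebraMap C k a with ha'
  set b' := algebraMap C k b with hb'
  have hab' : 4 * a' ^ 3 + 27 * b' ^ 2 ≠ 0 := by
    have h1 : algebraMap C k (4 * a ^ 3 + 27 * b ^ 2) ≠ 0 := by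
      rw [Ne, map_eq_zero]; exact hab
    simpa only [map_add, map_mul, map_pow, map_ofNat] using h1
  change Ge w (vo w D) (D x / (2 * y))
  change D x = 2 * y * (D x / (2 * y)) at d1
  change D y = (3 * x ^ 2 + algebraMap C K a) * (D x / (2 * y)) at d2
  rw [IsScalarTower.algebraMap_apply C k K, ← ha'] at d2
  set l := D x / (2 * y) with hl
  set A := algebraMap k K a' with hA
  set B := algebraMap k K b' with hB
  by_cases hreg : Ge w 0 x
  · have hyreg : Ge w 0 y := by
      by_cases hy0 : y = 0
      · exact Or.inl hy0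
      right
      have h1 : Ge w 0 (y ^ 2) := by
        rw [E1]
        refine ((?_ : Ge w 0 (x ^ 3)).add ?_).add (Ge.const b')
        · simpa using hreg.pow 3
        · simpa using (Ge.const (P := w) a').mul hreg
      have h2 := h1.resolve_left (pow_ne_zero 2 hy0)
      rw [w.ord_pow] at h2
      push_cast at h2; omega
    have hDx := der_ge w hD hreg
    have hDy := der_ge w hD hyreg
    -- Bezout
    have h3 : algebraMap k K (4 * a' ^ 3 + 27 * b' ^ 2) * l =
        (algebraMap k K (27 * b') - algebraMap k K (18 * a') * x) *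
          (algebraMap k K (2⁻¹) * y * D x) +
        (algebraMap k K (6 * a') * x ^ 2 - algebraMap k K (9 * b') * x +
          algebraMap k K (4 * a' ^ 2)) * D y := by
      simp only [map_add, map_mul, map_pow, map_ofNat, map_inv₀, ← hA, ← hB]
      rw [d2, d1]
      field_simp
      linear_combination (-(27 * B - 18 * A * x) * l) * E1
    have h4 : Ge w (vo w D) (algebraMap k K (4 * a' ^ 3 + 27 * b' ^ 2) * l) := by
      rw [h3]
      refine Ge.add ?_ ?_
      · have h5 : Ge w 0 (algebraMap k K (27 * b') - algebraMap k K (18 * a') * x) := by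
          refine (Ge.const _).sub ?_
          simpa using (Ge.const (P := w) (18 * a')).mul hreg
        have h6 : Ge w (vo w D) (algebraMap k K (2⁻¹) * y * D x) := by
          have := ((Ge.const (P := w) (2⁻¹ : k)).mul hyreg).mul hDx
          simpa using this
        simpa using h5.mul h6
      · have h5 : Ge w 0 (algebraMap k K (6 * a') * x ^ 2 - algebraMap k K (9 * b') * x +
            algebraMap k K (4 * a' ^ 2)) := by
          refine Ge.add (Ge.sub ?_ ?_) (Ge.const _)
          · have := (Ge.const (P := w) (6 * a')).mul (hreg.pow 2)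
            simpa using this
          · simpa using (Ge.const (P := w) (9 * b')).mul hreg
        simpa using h5.mul hDy
    have h7 : algebraMap k K (4 * a' ^ 3 + 27 * b' ^ 2) ≠ 0 := by
      rw [Ne, map_eq_zero]; exact hab'
    have h8 := Ge.of_mul h7 h4
    rw [w.ord_const hab', sub_zero] at h8
    exact h8
  · have hneg : w.ord x < 0 := by
      by_contra h
      exact hreg (Or.inr (by omega))
    have hx0 : x ≠ 0 := by
      rintro rfl
      exact hreg (Or.inl rfl)
    obtain ⟨hy0, hxy2⟩ := pole_xy w hneg E1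
    have hsreg : Ge w 0 (x / y) := by
      right; rw [w.ord_div hx0 hy0]; omega
    have hDs := der_ge w hD hsreg
    have h2 : Ge w (w.ord (x ^ 3) + 1) (A * x + B) := by
      rw [w.ord_pow]
      refine Ge.add ?_ ?_
      · have h2 := (Ge.const (P := w) a').mul (Or.inr le_rfl : Ge w (w.ord x) x)
        exact h2.mono (by push_cast; omega)
      · exact (Ge.const (P := w) b').mono (by push_cast; omega)
    have h3 : Ge w (w.ord (x ^ 3) + 1) (-(A * x + algebraMap k K (2 * b'))) := by
      apply Ge.neg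
      rw [w.ord_pow]
      refine Ge.add ?_ ?_
      · have h2 := (Ge.const (P := w) a').mul (Or.inr le_rfl : Ge w (w.ord x) x)
        exact h2.mono (by push_cast; omega)
      · exact (Ge.const (P := w) (2 * b')).mono (by push_cast; omega)
    obtain ⟨h5, h5'⟩ := ge_add_lt w (pow_ne_zero 3 hx0) h3
    rw [← sub_eq_add_neg] at h5 h5'
    have h6 : w.ord (-((x ^ 3 - (A * x + algebraMap k K (2 * b'))) / y ^ 2)) = 0 := by
      rw [w.ord_neg, w.ord_div h5 (pow_ne_zero 2 hy0), h5', w.ord_pow, w.ord_pow]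
      push_cast; omega
    have h7 : l = D (x / y) / (-((x ^ 3 - (A * x + algebraMap k K (2 * b'))) / y ^ 2)) := by
      have hne : -((x ^ 3 - (A * x + algebraMap k K (2 * b'))) / y ^ 2) ≠ 0 :=
        neg_ne_zero.2 (div_ne_zero h5 (pow_ne_zero 2 hy0))
      rw [eq_div_iff hne, D.leibniz_div, d2]
      clear_value l
      rw [d1]
      simp only [smul_eq_mul, map_mul, map_ofNat, ← hB]
      field_simp
      linear_combination (-2 * l) * E1
    rw [h7]
    exact Ge.div_unit hDs h6

/-- the source types of the first kind -/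
def Src (τ : AGp C) : Prop := ∀ {k K : Type} [Field k] [Field K] [Algebra C k] [Algebra C K]
  [Algebra k K] [IsScalarTower C k K] [IsFF k K] [IsAlgClosed k] (P : τ.G K),
  (∃ x ∈ τ.coord P, Transcendental k x) → IntermediateField.adjoin k {x | x ∈ τ.coord P} = ⊤ →
  ∀ D : Derivation k K K, τ.lam (D.restrictScalars C) P = 1 → ∀ w : Place k K,
    0 ≤ vo w D ∧ vo w D ≤ 1

/-- the source type of the second kind -/
def SrcA (τ : AGp C) : Prop := ∀ {k K : Type} [Field k] [Field K] [Algebra C k] [Algebra C K]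
  [Algebra k K] [IsScalarTower C k K] [IsFF k K] [IsAlgClosed k] (P : τ.G K),
  (∃ x ∈ τ.coord P, Transcendental k x) → IntermediateField.adjoin k {x | x ∈ τ.coord P} = ⊤ →
  ∀ D : Derivation k K K, τ.lam (D.restrictScalars C) P = 1 → (∀ w : Place k K, 0 ≤ vo w D) ∧
    ∃ w : Place k K, 0 < vo w D

theorem src_Gm : Src (Gm : AGp C) := by
  intro k K _ _ _ _ _ _ _ _ P hP htop D hD w
  have := cz (C := C) k
  set u := ((Additive.toMul P : Kˣ) : K) with hu
  have hu0 : u ≠ 0 := (Additive.toMul P : Kˣ).ne_zero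
  have hc : (Gm : AGp C).coord P = [u] := rfl
  have hset : {x | x ∈ (Gm : AGp C).coord P} = {u} := by
    ext x; rw [hc]; simp
  rw [hset] at htop
  have ht : Transcendental k u := by
    obtain ⟨x, hx, hxt⟩ := hP
    rw [hc, List.mem_singleton] at hx
    rwa [hx] at hxt
  change D u / u = 1 at hD
  exact vo_Gm w ht htop (by field_simp at hD; exact hD)

theorem src_Ell {a b : C} (hab : 4 * a ^ 3 + 27 * b ^ 2 ≠ 0) : Src (Ell a b) := by
  intro k K _ _ _ _ _ _ _ _ P hP htop D hD w
  have hk := cz (C := C) k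
  have hK := cz (C := C) K
  rcases P with _ | ⟨x, y, hxy⟩
  · obtain ⟨z, hz, -⟩ := hP
    exact absurd hz (by change z ∉ ([] : List K); simp)
  have E1 := ((WK_nonsingular a b x y).1 hxy).1
  rw [IsScalarTower.algebraMap_apply C k K, IsScalarTower.algebraMap_apply C k K] at E1
  have hx : Transcendental k x := by
    obtain ⟨z, hz, hzt⟩ := hP
    replace hz : z ∈ [x, y] := hz
    simp only [List.mem_cons, List.not_mem_nil, or_false] at hz
    rcases hz with rfl | rfl
    · exact hzt
    · intro hx
      apply hzt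
      have h4 : IsAlgebraic k (z ^ 2) := by
        rw [E1]
        exact ((hx.pow 3).add ((isAlgebraic_algebraMap _).mul hx)).add
          (isAlgebraic_algebraMap _)
      exact IsAlgebraic.of_pow two_pos h4
  have hset : {z | z ∈ (Ell a b).coord (WeierstrassCurve.Affine.Point.some x y hxy)} = {x, y} := by
    ext z
    change z ∈ [x, y] ↔ _
    simp
  rw [hset] at htop
  have hab' : 4 * (algebraMap C k a) ^ 3 + 27 * (algebraMap C k b) ^ 2 ≠ 0 := by
    have h1 : algebraMap C k (4 * a ^ 3 + 27 * b ^ 2) ≠ 0 := by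
      rw [Ne, map_eq_zero]; exact hab
    simpa only [map_add, map_mul, map_pow, map_ofNat] using h1
  obtain ⟨d1, -⟩ := der_pt (D.restrictScalars C) hxy
  change D x / (2 * y) = 1 at hD
  change D x = 2 * y * (D x / (2 * y)) at d1
  rw [hD, mul_one] at d1
  have h1 := vo_Ell w hab' hx E1 htop d1
  omega

theorem srcA_Ga : SrcA (Ga : AGp C) := by
  intro k K _ _ _ _ _ _ _ _ P hP htop D hD
  have := cz (C := C) k
  let u : K := P
  have hc : (Ga : AGp C).coord P = [u] := rfl
  have hset : {x | x ∈ (Ga : AGp C).coord P} = {u} := by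
    ext x; rw [hc]; simp
  rw [hset] at htop
  have ht : Transcendental k u := by
    obtain ⟨x, hx, hxt⟩ := hP
    rw [hc, List.mem_singleton] at hx
    rwa [hx] at hxt
  change D u = 1 at hD
  constructor
  · intro w
    by_cases h : Ge w 0 u
    · rw [(vo_Ga w ht htop hD).1 h]
    · have h1 : w.ord u < 0 := by
        by_contra hn
        exact h (Or.inr (by omega))
      rw [(vo_Ga w ht htop hD).2 h1]; norm_num
  · obtain ⟨w, hw⟩ := exists_pole (z := u) (fun c hc => ht (by
      rw [← hc]; exact isAlgebraic_algebraMap c))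
    exact ⟨w, by rw [(vo_Ga w ht htop hD).2 hw]; norm_num⟩

section facts
omit [CharZero C]
variable {k K : Type} [Field k] [Field K] [Algebra C k] [Algebra C K]
  [Algebra k K] [IsScalarTower C k K] [IsFF k K] [IsAlgClosed k] [CharZero k]

/-- (A) -/
theorem factA {τ : AGp C} (hτ : TgtE τ) {D : Derivation k K K} (hD : D ≠ 0)
    (hv : ∀ w : Place k K, 0 ≤ vo w D) (Q : τ.G K) :
    ∃ c : k, algebraMap k K c = τ.lam (D.restrictScalars C) Q := by
  exact const_of_reg fun w => (hτ D hD w Q).mono (hv w)

/-- (A') -/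
theorem factA' {τ : AGp C} (hτ : TgtE τ) {D : Derivation k K K} (hD : D ≠ 0)
    (hv : ∀ w : Place k K, 0 ≤ vo w D) (hv' : ∃ w : Place k K, 0 < vo w D) (Q : τ.G K) :
    τ.lam (D.restrictScalars C) Q = 0 := by
  obtain ⟨c, hc⟩ := factA hτ hD hv Q
  obtain ⟨w, hw⟩ := hv'
  have h1 := hτ D hD w Q
  rw [← hc] at h1 ⊢
  rcases h1 with h1 | h1
  · exact h1
  · by_cases h0 : c = 0
    · rw [h0, map_zero]
    · rw [w.ord_const h0] at h1; omega

/-- (B) -/
theorem factB {D : Derivation k K K} (hD : D ≠ 0) (hv : ∀ w : Place k K, vo w D ≤ 1) {z : K}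
    {c : k} (h : D z = algebraMap k K c) : ∃ c' : k, algebraMap k K c' = z := by
  by_contra hz
  push Not at hz
  obtain ⟨w, hw⟩ := exists_pole hz
  obtain ⟨h1, h2⟩ := ord_der w hD (f := z) (by omega)
  rw [h] at h1 h2
  have hc : c ≠ 0 := by
    rintro rfl
    rw [map_zero] at h1; exact h1 rfl
  rw [w.ord_const hc] at h2
  have := hv w
  omega

/-- (C) -/
theorem factC {τ : AGp C} (hτ : Tgt τ) {D : Derivation k K K} (hD : D ≠ 0)
    (hv : ∀ w : Place k K, vo w D ≤ 1) (Q : τ.G K) {g : K} {c : k}
    (h : τ.lam (D.restrictScalars C) Q = D g + algebraMap k K c) :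
    ∃ c' : k, algebraMap k K c' = g := by
  by_contra hz
  push Not at hz
  obtain ⟨w, hw⟩ := exists_pole hz
  obtain ⟨h1, h2⟩ := ord_der w hD (f := g) (by omega)
  have h3 : Ge w (vo w D - 1) (D g) := by
    have h4 : D g = τ.lam (D.restrictScalars C) Q - algebraMap k K c := by rw [h]; ring
    rw [h4]
    exact (hτ D hD w Q).sub ((Ge.const c).mono (by have := hv w; omega))
  have h5 := h3.resolve_left h1
  omega

/-- (D) -/
theorem factD {τ : AGp C} (hτ : Tgt τ) {D : Derivation k K K} (hD : D ≠ 0)
    (Q : τ.G K) {g : K} (h : τ.lam (D.restrictScalars C) Q = D g) :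
    ∃ c' : k, algebraMap k K c' = g := by
  by_contra hz
  push Not at hz
  obtain ⟨w, hw⟩ := exists_pole hz
  obtain ⟨h1, h2⟩ := ord_der w hD (f := g) (by omega)
  have h3 : Ge w (vo w D - 1) (D g) := by
    rw [← h]
    exact hτ D hD w Q
  have h5 := h3.resolve_left h1
  omega

end facts

end Pool.Agent.Helper6.EE
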