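import Pool.Agent.Helper6.EE.GermE

/-! The field of germs satisfies the hypotheses of the tower theorem. -/

set_option autoImplicit false

open WeierstrassCurve Filter Topology
open scoped PeriodPair

namespace Pool.Agent.Helper6.EE

open Pool.Agent.Y377.IL Pool.Agent.E8helper4.EL
open Pool.Agent.Y564.IL (t_TAY)

section
variable {C : Type} [Field C] [CharZero C] {L : Type} [Field L] [Algebra C L]

theorem div_const {D : Derivation C L L} (hcon : ∀ x, D x = 0 → ∃ c : C, algebraMap C L c = x)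
    {τ : AGp C} {N : ℤ} (hdiv : ∀ Q : τ.G C, ∃ Q' : τ.G C, N • Q' = Q) {T : τ.G L}
    (hT : τ.lam D T = 0) : ∃ T' : τ.G L, N • T' = T := by
  have h1 : τ.Rat (⊥ : IntermediateField C L) T := rat_const hcon hT ⊥
  obtain ⟨Q, hQ⟩ := τ.descend ⊥ T h1
  obtain ⟨Q', hQ'⟩ := hdiv (τ.map (IntermediateField.botEquiv C L : _ →ₐ[C] C) Q)
  refine ⟨τ.map (Algebra.ofId C L) Q', ?_⟩
  rw [← map_zsmul, hQ', τ.map_map, ← hQ]
  apply τ.map_congr
  intro x _
  obtain ⟨c, hc⟩ := IntermediateField.mem_bot.1 x.2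
  have h3 : x = algebraMap C (⊥ : IntermediateField C L) c := Subtype.ext hc.symm
  rw [h3]
  simp

end

/-- points with the logarithmic derivative of an analytic germ are divisible -/
theorem div_of {D : Derivation ℂ LK LK} (hcon : ∀ x, D x = 0 → ∃ c : ℂ, algebraMap ℂ LK c = x)
    {τ : AGp ℂ} {N : ℕ} (hN : 0 < N)
    (hdiv : ∀ Q : τ.G ℂ, ∃ Q' : τ.G ℂ, (N : ℤ) • Q' = Q) {z0 : ℂ}
    (hpt : ∀ f : ℂ → ℂ, AnalyticAt ℂ f z0 → ∃ R : τ.G LK, τ.lam D R = D (ty z0 f))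
    (P : τ.G LK) (hP : ∃ g ∈ germH z0, τ.lam D P = D g) : ∃ P' : τ.G LK, (N : ℤ) • P' = P := by
  obtain ⟨_, ⟨f, hf, rfl⟩, hl⟩ := hP
  have hf' : AnalyticAt ℂ (fun z => (1 / N : ℂ) * f z) z0 := analyticAt_const.mul hf
  obtain ⟨R, hR⟩ := hpt _ hf'
  have hN' : (N : ℂ) ≠ 0 := by exact_mod_cast hN.ne'
  have hT : τ.lam D ((N : ℤ) • R - P) = 0 := by
    rw [map_sub, lam_nat_smul, hR, hl, ty_mul t_TAY analyticAt_const hf, ty_const t_TAY,
      D.leibniz, D.map_algebraMap, smul_zero, add_zero, smul_eq_mul, ← mul_assoc]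
    have h1 : ((N : ℤ) : LK) = algebraMap ℂ LK (N : ℂ) := by
      rw [map_natCast]; push_cast; rfl
    rw [h1, ← map_mul, mul_one_div_cancel hN', map_one, one_mul, sub_self]
  obtain ⟨T', hT'⟩ := div_const hcon hdiv hT
  refine ⟨R - T', ?_⟩
  rw [smul_sub, hT', sub_sub_cancel]

theorem divGm {N : ℕ} (hN : 0 < N) (Q : (Gm : AGp ℂ).G ℂ) :
    ∃ Q' : (Gm : AGp ℂ).G ℂ, (N : ℤ) • Q' = Q := by
  let q : ℂˣ := Additive.toMul Q
  obtain ⟨d, hd⟩ := IsAlgClosed.exists_pow_nat_eq (q : ℂ) hN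
  have hd0 : d ≠ 0 := by
    rintro rfl
    rw [zero_pow hN.ne'] at hd
    exact q.ne_zero hd.symm
  refine ⟨Additive.ofMul (Units.mk0 d hd0), ?_⟩
  apply Additive.toMul.injective
  apply Units.ext
  change ((Units.mk0 d hd0 ^ (N : ℤ) : ℂˣ) : ℂ) = _
  rw [zpow_natCast, Units.val_pow_eq_pow_val, Units.val_mk0, hd]
  rfl

theorem divEll (Λ : PeriodPair) {N : ℕ} (hN : 0 < N) (Q : (Ell (aL Λ) (bL Λ)).G ℂ) :
    ∃ Q' : (Ell (aL Λ) (bL Λ)).G ℂ, (N : ℤ) • Q' = Q := by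
  obtain ⟨Q', hQ'⟩ := div_C (Λ := Λ) Q hN
  refine ⟨Q', ?_⟩
  rw [natCast_zsmul]
  rw [← hQ']
  congr!

theorem ptEll {D : Derivation ℂ LK LK} (h : GD D) (Λ : PeriodPair) {z0 : ℂ} {f : ℂ → ℂ}
    (hf : AnalyticAt ℂ f z0) : ∃ R : (Ell (aL Λ) (bL Λ)).G LK,
      (Ell (aL Λ) (bL Λ)).lam D R = D (ty z0 f) := by
  obtain ⟨c, hc⟩ : ∃ c : ℂ, f z0 + c ∉ Λ.lattice := by
    by_contra hcon
    push Not at hcon
    apply Λ.ω₁_div_two_notMem_lattice
    have := hcon (Λ.ω₁ / 2 - f z0)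
    rwa [add_sub_cancel] at this
  have hfc : AnalyticAt ℂ (fun z => f z + c) z0 := hf.add analyticAt_const
  obtain ⟨R, -, hR⟩ := exists_pt h Λ hfc hc
  refine ⟨R, ?_⟩
  rw [hR, ty_add t_TAY hf analyticAt_const, ty_const t_TAY, map_add, D.map_algebraMap, add_zero]

theorem setup {D : Derivation ℂ LK LK} (h : GD D) (z0 : ℂ) :
    Setup EL D (germH z0) (ty z0 fun z => z) where
  con := h.con
  dz := h.dz z0
  div := by
    have hE : ∀ τ, AE EL τ → ∀ (P : τ.G LK), (∃ g ∈ germH z0, τ.lam D P = D g) →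
        ∀ N : ℕ, 0 < N → ∃ P' : τ.G LK, (N : ℤ) • P' = P := by
      rintro _ ⟨_, _, ⟨Λ, rfl, rfl⟩, -, rfl⟩ P hP N hN
      exact div_of h.con hN (divEll Λ hN) (fun f hf => ptEll h Λ hf) P hP
    rintro τ ((rfl | hτ) | (rfl | hτ)) P hP N hN
    · exact div_of h.con hN (divGm hN) (fun f hf => by
        obtain ⟨R, -, hR⟩ := exists_unit h hf
        exact ⟨R, hR⟩) P hP
    · exact hE τ hτ P hP N hN
    · have hL := cz (C := ℂ) LK
      let p : LK := P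
      have hN0 : (N : LK) ≠ 0 := by exact_mod_cast hN.ne'
      refine ⟨(p / N : LK), ?_⟩
      change (N : ℤ) • (p / N : LK) = p
      rw [zsmul_eq_mul]
      push_cast
      field_simp
    · exact hE τ hτ P hP N hN

theorem ExpEll.an {A : (ℂ → ℂ) → Prop} {z0 : ℂ} (hA : ∀ f, A f → AnalyticAt ℂ f z0)
    {f : ℂ → ℂ} (h : ExpEll A z0 f) : AnalyticAt ℂ f z0 := by
  induction h with
  | base h => exact hA _ h
  | add _ _ h1 h2 => exact h1.add h2
  | mul _ _ h1 h2 => exact h1.mul h2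
  | div _ _ h0 h1 h2 => exact h1.div h2 h0
  | exp _ h1 => exact h1.cexp
  | wp Λ _ h0 h1 => exact wp_an h1 h0
  | wp' Λ _ h0 h1 => exact wp'_an h1 h0

theorem IntEll.an {A : (ℂ → ℂ) → Prop} {z0 : ℂ} (hA : ∀ f, A f → AnalyticAt ℂ f z0)
    {f : ℂ → ℂ} (h : IntEll A z0 f) : AnalyticAt ℂ f z0 := by
  induction h with
  | base h => exact hA _ h
  | add _ _ h1 h2 => exact h1.add h2
  | mul _ _ h1 h2 => exact h1.mul h2
  | div _ _ h0 h1 h2 => exact h1.div h2 h0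
  | int _ h2 _ =>
    apply Complex.analyticAt_iff_eventually_differentiableAt.2
    filter_upwards [h2] with z hz
    exact hz.differentiableAt
  | wp Λ _ h0 h1 => exact wp_an h1 h0
  | wp' Λ _ h0 h1 => exact wp'_an h1 h0

section mem

variable {D : Derivation ℂ LK LK} {z0 : ℂ}

theorem mem_G1_succ {n : ℕ} {τ : AGp ℂ} (hτ : A1 EL τ) {P : τ.G LK} {f : ℂ → ℂ}
    (hf : AnalyticAt ℂ f z0) (hG : ty z0 f ∈ G1 EL D (germH z0) (ty z0 fun z => z) n)
    (hl : τ.lam D P = D (ty z0 f)) : ∀ x ∈ τ.coord P,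
      x ∈ G1inf EL D (germH z0) (ty z0 fun z => z) := by
  intro x hx
  have hU : τ.lam D P ∈ U1 D (germH z0) (G1 EL D (germH z0) (ty z0 fun z => z) n) :=
    ⟨ty z0 f, hG, ⟨f, hf, rfl⟩, hl⟩
  exact ⟨n + 1, sat_nxt hτ hU x hx⟩

theorem ty_two {z0 : ℂ} {f : ℂ → ℂ} (hf : AnalyticAt ℂ f z0)
    {F : IntermediateField ℂ LK} (h : ty z0 (fun z => f z / 2) ∈ F) : ty z0 f ∈ F := by
  have h1 : AnalyticAt ℂ (fun z => f z / 2) z0 := hf.div analyticAt_const two_ne_zero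
  have h2 : ty z0 f = ty z0 (fun _ => (2 : ℂ)) * ty z0 (fun z => f z / 2) := by
    rw [← ty_mul t_TAY analyticAt_const h1]
    congr 1
    funext z
    ring
  rw [h2, ty_const t_TAY]
  exact mul_mem (F.algebraMap_mem _) h

theorem ExpEll.mem (h : GD D) {f : ℂ → ℂ} (hf : ExpEll Basic z0 f) :
    ty z0 f ∈ G1inf EL D (germH z0) (ty z0 fun z => z) := by
  have hA : ∀ f, Basic f → AnalyticAt ℂ f z0 := fun f hf => hf.an z0
  have hEL : ∀ Λ : PeriodPair, AE EL (Ell (aL Λ) (bL Λ)) := fun Λ =>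
    ⟨_, _, ⟨Λ, rfl, rfl⟩, disc_L Λ, rfl⟩
  induction hf with
  | base hb =>
    rcases hb with ⟨c, hc⟩ | hz
    · rw [funext hc, ty_const t_TAY]
      exact IntermediateField.algebraMap_mem _ c
    · rw [funext hz]
      exact ⟨0, (Ga : AGp ℂ).rat_adj ⊥ _ _ (List.mem_singleton_self _)⟩
  | add h1 h2 i1 i2 =>
    rw [ty_add t_TAY (h1.an hA) (h2.an hA)]
    exact add_mem i1 i2
  | mul h1 h2 i1 i2 =>
    rw [ty_mul t_TAY (h1.an hA) (h2.an hA)]
    exact mul_mem i1 i2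
  | div h1 h2 h0 i1 i2 =>
    rw [(ty_div t_TAY (h1.an hA) (h2.an hA) h0).2]
    exact div_mem i1 i2
  | exp h1 i1 =>
    obtain ⟨n, hn⟩ := i1
    obtain ⟨R, hc, hl⟩ := exists_unit h (h1.an hA)
    apply mem_G1_succ (Or.inl rfl) (h1.an hA) hn hl
    rw [hc]
    exact List.mem_singleton_self _
  | wp Λ h1 h0 i1 =>
    obtain ⟨n, hn⟩ := i1
    obtain ⟨R, hc, hl⟩ := exists_pt h Λ (h1.an hA) h0
    apply mem_G1_succ (Or.inr (hEL Λ)) (h1.an hA) hn hl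
    rw [hc]
    exact List.mem_cons_self
  | wp' Λ h1 h0 i1 =>
    obtain ⟨n, hn⟩ := i1
    obtain ⟨R, hc, hl⟩ := exists_pt h Λ (h1.an hA) h0
    apply ty_two (wp'_an (h1.an hA) h0)
    apply mem_G1_succ (Or.inr (hEL Λ)) (h1.an hA) hn hl
    rw [hc]
    exact List.mem_cons_of_mem _ (List.mem_singleton_self _)

theorem mem_G2_succ (h : GD D) {n : ℕ} {τ : AGp ℂ} (hτ : A2 EL τ) {P : τ.G LK} {f : ℂ → ℂ}
    (hf : AnalyticAt ℂ f z0) (hG : D (ty z0 f) ∈ G2 EL D (germH z0) (ty z0 fun z => z) n)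
    (hl : τ.lam D P = D (ty z0 f)) : ∀ x ∈ τ.coord P,
      x ∈ G2inf EL D (germH z0) (ty z0 fun z => z) := by
  intro x hx
  have hU : τ.lam D P ∈ U2 D (germH z0) (G2 EL D (germH z0) (ty z0 fun z => z) n) :=
    ⟨by rw [hl]; exact hG, ty z0 f, ⟨f, hf, rfl⟩, hl⟩
  exact ⟨n + 1, sat_nxt hτ hU x hx⟩

theorem IntEll.mem (h : GD D) {f : ℂ → ℂ} (hf : IntEll (ExpEll Basic z0) z0 f) :
    ty z0 f ∈ G2inf EL D (germH z0) (ty z0 fun z => z) := by
  have hA' : ∀ f, Basic f → AnalyticAt ℂ f z0 := fun f hf => hf.an z0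
  have hA : ∀ f, ExpEll Basic z0 f → AnalyticAt ℂ f z0 := fun f hf => hf.an hA'
  have hEL : ∀ Λ : PeriodPair, AE EL (Ell (aL Λ) (bL Λ)) := fun Λ =>
    ⟨_, _, ⟨Λ, rfl, rfl⟩, disc_L Λ, rfl⟩
  have st := setup h z0
  induction hf with
  | base hb => exact ⟨0, hb.mem h⟩
  | add h1 h2 i1 i2 =>
    rw [ty_add t_TAY (h1.an hA) (h2.an hA)]
    exact add_mem i1 i2
  | mul h1 h2 i1 i2 =>
    rw [ty_mul t_TAY (h1.an hA) (h2.an hA)]
    exact mul_mem i1 i2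
  | div h1 h2 h0 i1 i2 =>
    rw [(ty_div t_TAY (h1.an hA) (h2.an hA) h0).2]
    exact div_mem i1 i2
  | int h1 h2 i1 =>
    obtain ⟨n, hn⟩ := i1
    have hg := (IntEll.int h1 h2).an hA
    have h3 : D (ty z0 _) = ty z0 _ :=
      (ty_deriv t_TAY h.hD hg).trans (ty_congr t_TAY (h2.mono fun z hz => hz.deriv))
    refine mem_G2_succ h (n := n) (τ := Ga) (P := ty z0 _) (Or.inl rfl) hg ?_ rfl _
      (List.mem_singleton_self _)
    rw [h3]
    exact hn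
  | wp Λ h1 h0 i1 =>
    obtain ⟨n, hn⟩ := i1
    obtain ⟨R, hc, hl⟩ := exists_pt h Λ (h1.an hA) h0
    apply mem_G2_succ h (Or.inr (hEL Λ)) (h1.an hA) ((inv_G2 st n).stab _ hn) hl
    rw [hc]
    exact List.mem_cons_self
  | wp' Λ h1 h0 i1 =>
    obtain ⟨n, hn⟩ := i1
    obtain ⟨R, hc, hl⟩ := exists_pt h Λ (h1.an hA) h0
    apply ty_two (wp'_an (h1.an hA) h0)
    apply mem_G2_succ h (Or.inr (hEL Λ)) (h1.an hA) ((inv_G2 st n).stab _ hn) hl
    rw [hc]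
    exact List.mem_cons_of_mem _ (List.mem_singleton_self _)

/-- **Germs of nested exponential and elliptic functions.** Finitely many of them lie in a field
generated by successive generic points of the additive group, the multiplicative group and
elliptic curves. -/
theorem good_germs {z0 : ℂ} {ι : Type} [Finite ι] {f : ι → ℂ → ℂ}
    (hf : ∀ j, IntEll (ExpEll Basic z0) z0 (f j)) :
    ∃ F : IntermediateField ℂ LK, Good EL F ∧ ∀ j, ty z0 (f j) ∈ F := by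
  classical
  have := Fintype.ofFinite ι
  obtain ⟨D, hD⟩ := exists_GD
  obtain ⟨F, h1, -, h2⟩ := good_G2inf (setup hD z0) (Finset.univ.image fun j => ty z0 (f j)) (by
    intro s hs
    obtain ⟨j, -, rfl⟩ := Finset.mem_image.1 hs
    exact (hf j).mem hD)
  exact ⟨F, h1, fun j => h2 _ (Finset.mem_image_of_mem _ (Finset.mem_univ j))⟩

end mem

end Pool.Agent.Helper6.EE
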