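import Pool.Agent.Helper6.EE.Desc
import Pool.Agent.Helper6.EE.Pl3

/-! Transfer of the facts about places to extensions `M(P)` inside a big field. -/

set_option autoImplicit false

open Polynomial IntermediateField

namespace Pool.Agent.Helper6.EE

variable {C : Type} [Field C] [CharZero C] {L : Type} [Field L] [Algebra C L]

/-- restriction of a derivation to an intermediate field -/
noncomputable def rs' {k : Type} [Field k] [Algebra C k] [Algebra k L]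
    (D : Derivation k L L) (N : IntermediateField C L) [Algebra k N] [IsScalarTower k N L]
    (h : ∀ x ∈ N, D x ∈ N) : Derivation k N N :=
  Derivation.mk'
    { toFun := fun x => ⟨D x, h x x.2⟩
      map_add' := fun x y => Subtype.ext (map_add D (x : L) (y : L))
      map_smul' := fun c x => Subtype.ext (by
        change D ((c • x : N) : L) = ((c • (⟨D x, h x x.2⟩ : N) : N) : L)
        rw [Algebra.smul_def, Algebra.smul_def]
        change D (algebraMap N L (algebraMap k N c) * (x : L)) =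
          algebraMap N L (algebraMap k N c) * D x
        rw [← IsScalarTower.algebraMap_apply k N L, D.leibniz, D.map_algebraMap, smul_zero,
          add_zero, smul_eq_mul]) }
    (fun x y => Subtype.ext (by
      change D ((x : L) * y) = (x : L) * D y + (y : L) * D x
      rw [D.leibniz]; rfl))

theorem transfer {τ₁ : AGp C} (hτ₁ : Nice τ₁) {M : IntermediateField C L} {P : τ₁.G L}
    (hP : τ₁.Gen M P) {δ : Derivation C L L} (hδM : ∀ x ∈ M, δ x = 0) (hδP : τ₁.lam δ P = 1)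
    (hst : Stab δ (τ₁.adj M P)) :
    ∃ (k K : Type) (_ : Field k) (_ : Field K) (_ : Algebra C k) (_ : Algebra C K)
      (_ : Algebra k K) (_ : IsScalarTower C k K) (_ : FF.IsFF k K) (_ : IsAlgClosed k)
      (j : τ₁.adj M P →ₐ[C] K) (D : Derivation k K K) (P₁ : τ₁.G K),
      (∃ x ∈ τ₁.coord P₁, Transcendental k x) ∧
      IntermediateField.adjoin k {x | x ∈ τ₁.coord P₁} = ⊤ ∧
      τ₁.lam (D.restrictScalars C) P₁ = 1 ∧ (∀ z, D (j z) = j (rs δ _ hst z)) ∧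
      (∀ z, (∃ c : k, algebraMap k K c = j z) → (z : L) ∈ M) ∧
      (∀ x (hx : x ∈ M), ∃ c : k, algebraMap k K c = j ⟨x, τ₁.le_adj M P hx⟩) := by
  let Ω := AlgebraicClosure L
  let k₀ : IntermediateField M Ω := algebraicClosure M Ω
  let k : IntermediateField C Ω := k₀.restrictScalars C
  have hk : IsAlgClosed k := by
    have : IsAlgClosed k₀ := IsAlgClosure.isAlgClosed M
    exact this
  have hmem : ∀ x : Ω, x ∈ k ↔ IsAlgebraic M x := fun x => mem_algebraicClosure_iff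
  let i : L →ₐ[C] Ω := IsScalarTower.toAlgHom C L Ω
  have hi : ∀ x, i x = algebraMap L Ω x := fun x => rfl
  set P' := τ₁.map i P with hP'
  have hiM : ∀ x, IsAlgebraic M (i x) ↔ IsAlgebraic M x := fun x => by
    rw [hi]
    exact isAlgebraic_algebraMap_iff (algebraMap L Ω).injective
  have hgen : τ₁.Gen k P' := by
    obtain ⟨x, hx, hxt⟩ := hP
    refine ⟨i x, ?_, ?_⟩
    · rw [hP', τ₁.coord_map, List.mem_map]
      exact ⟨x, hx, rfl⟩
    · intro h
      have h1 : IsAlgebraic k₀ (i x) := h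
      have h2 : IsAlgebraic M (i x) := IsAlgebraic.restrictScalars M h1
      exact hxt ((hiM x).1 h2)
  let K := τ₁.adj k P'
  let _ : Algebra k K := (IntermediateField.inclusion (τ₁.le_adj k P')).toRingHom.toAlgebra
  have _ : IsScalarTower C k K := IsScalarTower.of_algebraMap_eq fun x => rfl
  have _ : IsScalarTower k K Ω := IsScalarTower.of_algebraMap_eq fun x => rfl
  obtain ⟨P₁, hP₁⟩ := (τ₁.rat_iff _ _).1 (τ₁.rat_adj k P')
  have htop := adj_htop τ₁ P₁ hP₁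
  have hgen₁ : ∃ x ∈ τ₁.coord P₁, Transcendental k x := by
    obtain ⟨x, hx, hxt⟩ := hgen
    rw [← hP₁, τ₁.coord_map, List.mem_map] at hx
    obtain ⟨y, hy, rfl⟩ := hx
    refine ⟨y, hy, ?_⟩
    intro h
    apply hxt
    exact (isAlgebraic_algebraMap_iff (A := Ω) (algebraMap K Ω).injective).2 h
  have hff : FF.IsFF k K := hτ₁.ff (k := k) (K := K) P₁ hgen₁ htop
  obtain ⟨ε, hε⟩ := hτ₁.exd k P' hgen
  set ε' : Derivation C Ω Ω := ε.restrictScalars C with hε'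
  have hεk : ∀ x ∈ k, ε' x = 0 := fun x hx => ε.map_algebraMap ⟨x, hx⟩
  have hstε : Stab ε' K := stab_adj hτ₁ (fun x hx => by
    rw [hεk x hx]; exact zero_mem _) (by rw [hε]; exact one_mem _)
  let D : Derivation k K K := rs' ε K hstε
  have hDc : ∀ x : K, ((D x : K) : Ω) = ε' x := fun x => rfl
  -- the embedding
  let φ : τ₁.adj M P →ₐ[C] Ω := i.comp (τ₁.adj M P).val
  have hφ2 : ∀ Q : τ₁.G (τ₁.adj M P), τ₁.map (τ₁.adj M P).val Q = P → τ₁.map φ Q = P' :=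
    fun Q hQ => (τ₁.map_map i _ Q).symm.trans (congrArg (τ₁.map i) hQ)
  have hφK : ∀ z, φ z ∈ K := by
    intro z
    have := adj_top τ₁ (P := P) (K.comap φ) (by
      intro y hy
      change φ (⟨y, _⟩ : τ₁.adj M P) ∈ K
      apply τ₁.le_adj k P'
      rw [hmem]
      change IsAlgebraic M (i y)
      rw [hiM]
      exact isAlgebraic_algebraMap (⟨y, hy⟩ : M)) (by
      intro R hR y hy
      change φ y ∈ K
      apply τ₁.rat_adj k P'
      rw [← congrArg τ₁.coord (hφ2 R hR), τ₁.coord_map, List.mem_map]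
      exact ⟨y, hy, rfl⟩) z
    exact this
  let j : τ₁.adj M P →ₐ[C] K := AlgHom.codRestrict φ K.toSubalgebra hφK
  have hj : ∀ z, ((j z : K) : Ω) = i z := fun z => rfl
  refine ⟨k, K, inferInstance, inferInstance, inferInstance, inferInstance, inferInstance,
    inferInstance, hff, hk, j, D, P₁, hgen₁, htop, ?_, ?_, ?_, ?_⟩
  · have h1 := τ₁.lam_nat K.val (D.restrictScalars C) ε' P₁ (fun x _ => rfl)
    rw [hP₁, hε] at h1
    exact Subtype.ext h1.symm
  · intro z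
    apply Subtype.ext
    rw [hDc, hj]
    change ε' (φ z) = φ (rs δ _ hst z)
    refine inter_adj τ₁ φ hφ2 hst ?_ (c := 1) ?_ ?_ z
    · intro x hx h' h
      have h2 : (⟨δ x, h⟩ : τ₁.adj M P) = 0 := Subtype.ext (hδM x hx)
      rw [h2, map_zero]
      apply hεk
      rw [hmem]
      change IsAlgebraic M (i x)
      rw [hiM]
      exact isAlgebraic_algebraMap (⟨x, hx⟩ : M)
    · rw [hδP]; rfl
    · rw [hε, map_one]
  · rintro z ⟨c, hc⟩
    apply hτ₁.alg M P hP z z.2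
    rw [← hiM]
    have h1 : (c : Ω) = i z := by
      rw [← hj, ← hc]; rfl
    rw [← h1]
    exact (hmem c).1 c.2
  · intro x hx
    have h1 : i x ∈ k := by
      rw [hmem, hiM]
      exact isAlgebraic_algebraMap (⟨x, hx⟩ : M)
    exact ⟨⟨i x, h1⟩, rfl⟩

section facts
variable {τ₁ τ : AGp C} {M : IntermediateField C L} {P : τ₁.G L} {δ : Derivation C L L}

theorem lam_tr {K : Type} [Field K] [Algebra C K] (hst : Stab δ (τ₁.adj M P))
    (j : τ₁.adj M P →ₐ[C] K) (D : Derivation C K K) (h : ∀ z, D (j z) = j (rs δ _ hst z))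
    {Q : τ.G L} (hQ : τ.Rat (τ₁.adj M P) Q) (hl : τ.lam δ Q ∈ τ₁.adj M P) :
    ∃ Q' : τ.G K, τ.lam D Q' = j ⟨τ.lam δ Q, hl⟩ := by
  obtain ⟨Q₀, hQ₀⟩ := (τ.rat_iff _ _).1 hQ
  refine ⟨τ.map j Q₀, ?_⟩
  exact lam_inter τ j hst h Q₀ (by rw [hQ₀])

theorem lam_mem (hτ₁ : Nice τ₁) (hst : Stab δ (τ₁.adj M P)) {Q : τ.G L}
    (hQ : τ.Rat (τ₁.adj M P) Q) : τ.lam δ Q ∈ τ₁.adj M P := by
  obtain ⟨Q₀, hQ₀⟩ := (τ.rat_iff _ _).1 hQ
  rw [← hQ₀, lam_rs τ δ _ hst]
  exact Subtype.prop _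

theorem stab_δ (hτ₁ : Nice τ₁) (hδM : ∀ x ∈ M, δ x = 0) (hδP : τ₁.lam δ P = 1) :
    Stab δ (τ₁.adj M P) :=
  stab_adj hτ₁ (fun x hx => by rw [hδM x hx]; exact zero_mem _) (by rw [hδP]; exact one_mem _)

variable (hτ₁ : Nice τ₁) (hP : τ₁.Gen M P) (hδM : ∀ x ∈ M, δ x = 0) (hδP : τ₁.lam δ P = 1)
include hτ₁ hP hδM hδP

theorem trA (hs : Src τ₁ ∨ SrcA τ₁) (hτ : TgtE τ) {Q : τ.G L} (hQ : τ.Rat (τ₁.adj M P) Q) :
    τ.lam δ Q ∈ M := by
  have hst := stab_δ hτ₁ hδM hδP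
  have hl := lam_mem hτ₁ hst hQ
  obtain ⟨k, K, _, _, _, _, _, _, _, _, j, D, P₁, h1, h2, h3, h4, h5, h6⟩ :=
    transfer hτ₁ hP hδM hδP hst
  have hD : D ≠ 0 := by
    rintro rfl
    have : (0 : Derivation k K K).restrictScalars C = 0 := rfl
    rw [this, τ₁.lam_zero_der] at h3
    exact zero_ne_one h3
  obtain ⟨Q', hQ'⟩ := lam_tr hst j (D.restrictScalars C) h4 hQ hl
  have hv : ∀ w : FF.Place k K, 0 ≤ Pool.Agent.W603.LV.vo w D := by
    rcases hs with hs | hs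
    · exact fun w => (hs P₁ h1 h2 D h3 w).1
    · exact (hs P₁ h1 h2 D h3).1
  have := cz (C := C) k
  obtain ⟨c, hc⟩ := factA hτ hD hv Q'
  exact h5 ⟨_, hl⟩ ⟨c, by rw [hc, hQ']⟩

theorem trA' (hs : SrcA τ₁) (hτ : TgtE τ) {Q : τ.G L} (hQ : τ.Rat (τ₁.adj M P) Q) :
    τ.lam δ Q = 0 := by
  have hst := stab_δ hτ₁ hδM hδP
  have hl := lam_mem hτ₁ hst hQ
  obtain ⟨k, K, _, _, _, _, _, _, _, _, j, D, P₁, h1, h2, h3, h4, h5, h6⟩ :=
    transfer hτ₁ hP hδM hδP hst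
  have hD : D ≠ 0 := by
    rintro rfl
    have : (0 : Derivation k K K).restrictScalars C = 0 := rfl
    rw [this, τ₁.lam_zero_der] at h3
    exact zero_ne_one h3
  obtain ⟨Q', hQ'⟩ := lam_tr hst j (D.restrictScalars C) h4 hQ hl
  obtain ⟨hv, hv'⟩ := hs P₁ h1 h2 D h3
  have := cz (C := C) k
  have h7 := factA' hτ hD hv hv' Q'
  rw [hQ'] at h7
  have h8 := (map_eq_zero j).1 h7
  exact congrArg Subtype.val h8

theorem trB (hs : Src τ₁) {z : L} (hz : z ∈ τ₁.adj M P) (h : δ z ∈ M) : z ∈ M := by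
  have hst := stab_δ hτ₁ hδM hδP
  obtain ⟨k, K, _, _, _, _, _, _, _, _, j, D, P₁, h1, h2, h3, h4, h5, h6⟩ :=
    transfer hτ₁ hP hδM hδP hst
  have hD : D ≠ 0 := by
    rintro rfl
    have : (0 : Derivation k K K).restrictScalars C = 0 := rfl
    rw [this, τ₁.lam_zero_der] at h3
    exact zero_ne_one h3
  have hv : ∀ w : FF.Place k K, Pool.Agent.W603.LV.vo w D ≤ 1 :=
    fun w => (hs P₁ h1 h2 D h3 w).2
  obtain ⟨c, hc⟩ := h6 _ h
  have := cz (C := C) k
  obtain ⟨c', hc'⟩ := factB hD hv (z := j ⟨z, hz⟩) (c := c) (by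
    rw [h4, hc]; rfl)
  exact h5 ⟨z, hz⟩ ⟨c', hc'⟩

theorem trC (hs : Src τ₁) (hτ : Tgt τ) {Q : τ.G L} (hQ : τ.Rat (τ₁.adj M P) Q) {g : L}
    (hg : g ∈ τ₁.adj M P) (h : τ.lam δ Q - δ g ∈ M) : g ∈ M := by
  have hst := stab_δ hτ₁ hδM hδP
  have hl := lam_mem hτ₁ hst hQ
  obtain ⟨k, K, _, _, _, _, _, _, _, _, j, D, P₁, h1, h2, h3, h4, h5, h6⟩ :=
    transfer hτ₁ hP hδM hδP hst
  have hD : D ≠ 0 := by
    rintro rfl
    have : (0 : Derivation k K K).restrictScalars C = 0 := rfl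
    rw [this, τ₁.lam_zero_der] at h3
    exact zero_ne_one h3
  have hv : ∀ w : FF.Place k K, Pool.Agent.W603.LV.vo w D ≤ 1 :=
    fun w => (hs P₁ h1 h2 D h3 w).2
  obtain ⟨c, hc⟩ := h6 _ h
  obtain ⟨Q', hQ'⟩ := lam_tr hst j (D.restrictScalars C) h4 hQ hl
  have := cz (C := C) k
  obtain ⟨c', hc'⟩ := factC hτ hD hv Q' (g := j ⟨g, hg⟩) (c := c) (by
    rw [h4, hc, hQ', ← map_add]
    congr 1
    apply Subtype.ext
    change τ.lam δ Q = δ g + (τ.lam δ Q - δ g)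
    ring)
  exact h5 ⟨g, hg⟩ ⟨c', hc'⟩

theorem trD (hτ : Tgt τ) {Q : τ.G L} (hQ : τ.Rat (τ₁.adj M P) Q) {g : L}
    (hg : g ∈ τ₁.adj M P) (h : τ.lam δ Q = δ g) : g ∈ M := by
  have hst := stab_δ hτ₁ hδM hδP
  have hl := lam_mem hτ₁ hst hQ
  obtain ⟨k, K, _, _, _, _, _, _, _, _, j, D, P₁, h1, h2, h3, h4, h5, h6⟩ :=
    transfer hτ₁ hP hδM hδP hst
  have hD : D ≠ 0 := by
    rintro rfl
    have : (0 : Derivation k K K).restrictScalars C = 0 := rfl
    rw [this, τ₁.lam_zero_der] at h3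
    exact zero_ne_one h3
  obtain ⟨Q', hQ'⟩ := lam_tr hst j (D.restrictScalars C) h4 hQ hl
  have := cz (C := C) k
  obtain ⟨c', hc'⟩ := factD hτ hD Q' (g := j ⟨g, hg⟩) (by
    rw [h4, hQ']
    congr 1
    apply Subtype.ext
    exact h)
  exact h5 ⟨g, hg⟩ ⟨c', hc'⟩

end facts

end Pool.Agent.Helper6.EE
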