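import Pool.Agent.Helper6.EE.Gen

/-! The twist: comparison of a point over `M(P)` with its image under `P ↦ P / m`. -/

set_option autoImplicit false

open Polynomial IntermediateField

namespace Pool.Agent.Helper6.EE

open Pool.Agent.W602.GT (consts mem_consts)

variable {C : Type} [Field C]

section rs
variable {L : Type} [Field L] [Algebra C L]

/-- stability under a derivation -/
def Stab (D : Derivation C L L) (M : IntermediateField C L) : Prop := ∀ x ∈ M, D x ∈ M

/-- restriction of a derivation -/
noncomputable def rs (D : Derivation C L L) (M : IntermediateField C L) (h : Stab D M) :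
    Derivation C M M :=
  Derivation.mk'
    { toFun := fun x => ⟨D x, h x x.2⟩
      map_add' := fun x y => Subtype.ext (map_add D (x : L) (y : L))
      map_smul' := fun c x => Subtype.ext (D.map_smul c (x : L)) }
    (fun x y => Subtype.ext (by
      change D ((x : L) * y) = (x : L) * D y + (y : L) * D x
      rw [D.leibniz]; rfl))

theorem coe_rs (D : Derivation C L L) (M : IntermediateField C L) (h : Stab D M) (x : M) :
    ((rs D M h x : M) : L) = D x := rfl

theorem lam_rs (τ : AGp C) (D : Derivation C L L) (M : IntermediateField C L) (h : Stab D M)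
    (Q : τ.G M) : τ.lam D (τ.map M.val Q) = (τ.lam (rs D M h) Q : L) :=
  τ.lam_nat M.val (rs D M h) D Q (fun _ _ => rfl)

/-- a subfield of `adj M P` containing `M` and `P` is everything -/
theorem adj_top (τ : AGp C) {M : IntermediateField C L} {P : τ.G L}
    (S : IntermediateField C (τ.adj M P)) (h1 : ∀ x (hx : x ∈ M), ⟨x, τ.le_adj M P hx⟩ ∈ S)
    (h2 : ∀ Q : τ.G (τ.adj M P), τ.map (τ.adj M P).val Q = P → ∀ x ∈ τ.coord Q, x ∈ S)
    (x : τ.adj M P) : x ∈ S := by
  obtain ⟨Q, hQ⟩ := (τ.rat_iff _ _).1 (τ.rat_adj M P)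
  have h3 : τ.adj M P ≤ S.map (τ.adj M P).val := by
    apply τ.adj_le
    · intro y hy
      exact ⟨_, h1 y hy, rfl⟩
    · intro y hy
      rw [← hQ, τ.coord_map, List.mem_map] at hy
      obtain ⟨z, hz, rfl⟩ := hy
      exact ⟨z, h2 Q hQ z hz, rfl⟩
  obtain ⟨y, hy, hyx⟩ := h3 x.2
  have : y = x := Subtype.ext hyx
  rwa [← this]

theorem stab_adj {τ : AGp C} (hτ : Nice τ) {D : Derivation C L L} {M : IntermediateField C L}
    (hM : Stab D M) {P : τ.G L} (h : τ.lam D P ∈ τ.adj M P) : Stab D (τ.adj M P) := by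
  have hle := τ.le_adj M P
  let F : IntermediateField C L :=
    { carrier := {x | x ∈ τ.adj M P ∧ D x ∈ τ.adj M P}
      mul_mem' := by
        rintro a b ⟨h1, h2⟩ ⟨h3, h4⟩
        refine ⟨mul_mem h1 h3, ?_⟩
        rw [D.leibniz]
        exact add_mem (mul_mem h1 h4) (mul_mem h3 h2)
      add_mem' := by
        rintro a b ⟨h1, h2⟩ ⟨h3, h4⟩
        refine ⟨add_mem h1 h3, ?_⟩
        rw [map_add]
        exact add_mem h2 h4
      algebraMap_mem' := fun c => ⟨IntermediateField.algebraMap_mem _ c, by
        rw [D.map_algebraMap]; exact zero_mem _⟩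
      inv_mem' := by
        rintro a ⟨h1, h2⟩
        refine ⟨inv_mem h1, ?_⟩
        rw [D.leibniz_inv]
        exact mul_mem (neg_mem (pow_mem (inv_mem h1) 2)) h2 }
  have h1 : τ.adj M P ≤ F := by
    apply τ.adj_le
    · exact fun x hx => ⟨hle hx, hle (hM x hx)⟩
    · exact fun x hx => ⟨τ.rat_adj M P x hx, hτ.stab _ D P (τ.rat_adj M P) h x hx⟩
  exact fun x hx => (h1 hx).2

/-- a derivation killing `M` and `P` kills `M(P)` -/
theorem der_adj_zero (τ : AGp C) {D : Derivation C L L} {M : IntermediateField C L} {P : τ.G L}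
    (hM : ∀ x ∈ M, D x = 0) (hP : τ.lam D P = 0) : ∀ x ∈ τ.adj M P, D x = 0 := by
  have h1 : τ.adj M P ≤ consts D :=
    τ.adj_le (fun x hx => hM x hx) (fun x hx => τ.const_of_lam D P hP x hx)
  exact fun x hx => h1 hx

/-- two derivations related by an embedding -/
noncomputable def interField {L' : Type} [Field L'] [Algebra C L'] {N : IntermediateField C L}
    (φ : N →ₐ[C] L') (D1 : Derivation C N N)
    (D2 : Derivation C L' L') : IntermediateField C N where
  carrier := {x | D2 (φ x) = φ (D1 x)}
  mul_mem' := by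
    intro a b ha hb
    simp only [Set.mem_ofPred_eq] at ha hb ⊢
    rw [map_mul, D2.leibniz, D1.leibniz, ha, hb]
    simp only [smul_eq_mul, map_add, map_mul]
  add_mem' := by
    intro a b ha hb
    simp only [Set.mem_ofPred_eq] at ha hb ⊢
    simp only [map_add, ha, hb]
  algebraMap_mem' := fun c => by
    simp
  inv_mem' := by
    intro a ha
    simp only [Set.mem_ofPred_eq] at ha ⊢
    rw [map_inv₀, D2.leibniz_inv, D1.leibniz_inv, ha]
    simp only [smul_eq_mul, map_mul, map_neg, map_pow, map_inv₀]

theorem inter_adj (τ : AGp C) {L' : Type} [Field L'] [Algebra C L']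
    {M : IntermediateField C L} {P : τ.G L} {P' : τ.G L'}
    (φ : τ.adj M P →ₐ[C] L')
    (hφ2 : ∀ Q : τ.G (τ.adj M P), τ.map (τ.adj M P).val Q = P → τ.map φ Q = P')
    {D1 : Derivation C L L} {D2 : Derivation C L' L'} (h1 : Stab D1 (τ.adj M P))
    (hM : ∀ x ∈ M, ∀ (h' : x ∈ τ.adj M P) (h : D1 x ∈ τ.adj M P),
      D2 (φ ⟨x, h'⟩) = φ ⟨D1 x, h⟩) {c : τ.adj M P}
    (hP : τ.lam D1 P = c) (hP' : τ.lam D2 P' = φ c) (x : τ.adj M P) :
    D2 (φ x) = φ (rs D1 _ h1 x) := by
  refine adj_top τ (interField φ (rs D1 _ h1) D2) ?_ ?_ x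
  · intro y hy
    change D2 (φ _) = φ _
    exact hM y hy _ _
  · intro Q hQ
    refine τ.der_nat φ (rs D1 _ h1) D2 Q ?_
    rw [hφ2 Q hQ, hP']
    congr 1
    have := lam_rs τ D1 _ h1 Q
    rw [hQ, hP] at this
    exact Subtype.ext this

theorem lam_inter (τ : AGp C) {L' : Type} [Field L'] [Algebra C L']
    {N : IntermediateField C L} (φ : N →ₐ[C] L')
    {D1 : Derivation C L L} {D2 : Derivation C L' L'} (h1 : Stab D1 N)
    (h : ∀ x, D2 (φ x) = φ (rs D1 _ h1 x))
    (Q : τ.G N) {c : N} (hQ : τ.lam D1 (τ.map N.val Q) = c) : τ.lam D2 (τ.map φ Q) = φ c := by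
  rw [τ.lam_nat φ (rs D1 _ h1) D2 Q (fun x _ => h x)]
  congr 1
  have := lam_rs τ D1 _ h1 Q
  rw [hQ] at this
  exact Subtype.ext this.symm

end rs

section ker
variable [CharZero C] {L : Type} [Field L] [Algebra C L]

/-- constants of a nonzero derivation over `M` of `M(P)` -/
theorem ker_adj {τ : AGp C} (hτ : Nice τ) {M : IntermediateField C L} {P : τ.G L}
    (hP : τ.Gen M P) {D : Derivation C L L} (hM : ∀ x ∈ M, D x = 0) (hD : τ.lam D P ≠ 0)
    {z : L} (hz : z ∈ τ.adj M P) (h0 : D z = 0) : z ∈ M := by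
  apply hτ.alg M P hP z hz
  by_contra hzt
  have hcz := cz (C := C) M
  let K := τ.adj M P
  let _ : Algebra M K := (IntermediateField.inclusion (τ.le_adj M P)).toRingHom.toAlgebra
  have _ : IsScalarTower C M K := IsScalarTower.of_algebraMap_eq fun x => rfl
  have _ : IsScalarTower M K L := IsScalarTower.of_algebraMap_eq fun x => rfl
  obtain ⟨Q, hQ⟩ := (τ.rat_iff _ _).1 (τ.rat_adj M P)
  have hgenQ : ∃ x : K, x ∈ τ.coord Q ∧ Transcendental M x := by
    obtain ⟨x, hx, hxt⟩ := hP
    rw [← hQ, τ.coord_map, List.mem_map] at hx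
    obtain ⟨y, hy, rfl⟩ := hx
    refine ⟨y, hy, ?_⟩
    intro h
    apply hxt
    exact (isAlgebraic_algebraMap_iff (A := L) (algebraMap K L).injective).2 h
  have htop : IntermediateField.adjoin M {x : K | x ∈ τ.coord Q} = ⊤ := by
    rw [eq_top_iff]
    intro x _
    refine adj_top τ (P := P)
      ((IntermediateField.adjoin M {x : K | x ∈ τ.coord Q}).restrictScalars C) ?_ ?_ x
    · intro y hy
      rw [IntermediateField.mem_restrictScalars]
      exact (IntermediateField.adjoin M {x : K | x ∈ τ.coord Q}).algebraMap_mem ⟨y, hy⟩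
    · intro Q' hQ' y hy
      rw [IntermediateField.mem_restrictScalars]
      obtain rfl : Q' = Q := τ.map_inj _ (hQ'.trans hQ.symm)
      have hy' : y ∈ {x : K | x ∈ τ.coord Q'} := hy
      exact IntermediateField.subset_adjoin M _ hy'
  have hff : FF.IsFF M K := hτ.ff (k := M) (K := K) Q hgenQ htop
  have hzK : Transcendental M (⟨z, hz⟩ : K) := by
    intro h
    apply hzt
    exact (isAlgebraic_algebraMap_iff (A := L) (algebraMap K L).injective).2 h
  have halg := FF.IsFF.isAlgebraic hzK
  apply hD
  apply τ.lam_of_const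
  intro x hx
  have hxK : x ∈ K := τ.rat_adj M P x hx
  -- `D` vanishes on elements algebraic over its constants
  have h5 : IsAlgebraic (consts D) x := by
    have h6 : IsAlgebraic (IntermediateField.adjoin M {(⟨z, hz⟩ : K)}) (⟨x, hxK⟩ : K) :=
      halg.isAlgebraic _
    obtain ⟨p, hp0, hp⟩ := h6
    have hle : ∀ w ∈ IntermediateField.adjoin M {(⟨z, hz⟩ : K)}, (w : L) ∈ consts D := by
      intro w hw
      have h7 : IntermediateField.adjoin M {(⟨z, hz⟩ : K)} ≤
          { carrier := {w : K | (w : L) ∈ consts D}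
            mul_mem' := fun ha hb => (consts D).mul_mem ha hb
            add_mem' := fun ha hb => (consts D).add_mem ha hb
            algebraMap_mem' := fun c => hM c c.2
            inv_mem' := fun a ha => (consts D).inv_mem ha } := by
        rw [IntermediateField.adjoin_le_iff]
        intro w hw
        rw [Set.mem_singleton_iff] at hw
        subst hw
        exact h0
      exact h7 hw
    let f : IntermediateField.adjoin M {(⟨z, hz⟩ : K)} →+* consts D :=
      { toFun := fun w => ⟨((w : K) : L), hle w w.2⟩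
        map_one' := rfl
        map_mul' := fun _ _ => rfl
        map_zero' := rfl
        map_add' := fun _ _ => rfl }
    refine ⟨p.map f, ?_, ?_⟩
    · exact (Polynomial.map_ne_zero_iff f.injective).2 hp0
    · rw [aeval_def, eval₂_map]
      have h8 := congrArg (algebraMap K L) hp
      rw [aeval_def, hom_eval₂, map_zero] at h8
      exact h8
  have h9 : IsIntegral (consts D) x := h5.isIntegral
  -- separable algebraic elements are constants
  let D' := Pool.Agent.W602.GT.overConsts D
  have h10 : D' x = 0 := by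
    have hcc := cz (C := C) (consts D)
    set q := minpoly (consts D) x with hq
    have h11 : aeval x q = 0 := minpoly.aeval _ _
    have h12 := congrArg D' h11
    rw [Derivation.map_aeval, map_zero, smul_eq_mul] at h12
    have h13 : aeval x (derivative q) ≠ 0 := by
      have hsep : q.Separable := (minpoly.irreducible h9).separable
      exact hsep.aeval_derivative_ne_zero h11
    exact (mul_eq_zero.1 h12).resolve_left h13
  exact h10

end ker

end Pool.Agent.Helper6.EE
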