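import Pool.Agent.Helper6.EE.Tw

/-! The twist theorem. -/

set_option autoImplicit false

open Polynomial IntermediateField

namespace Pool.Agent.Helper6.EE

open Pool.Agent.W602.GT (consts mem_consts)

variable {C : Type} [Field C] {L : Type} [Field L] [Algebra C L]

theorem not_gen_rat {τ : AGp C} {M : IntermediateField C L} {P : τ.G L} (h : ¬ τ.Gen M P) :
    τ.Rat ((algebraicClosure M L).restrictScalars C) P := by
  intro x hx
  rw [IntermediateField.mem_restrictScalars, mem_algebraicClosure_iff]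
  by_contra hc
  exact h ⟨x, hx, hc⟩

theorem rat_not_gen {τ : AGp C} {M : IntermediateField C L} {P : τ.G L}
    (h : τ.Rat ((algebraicClosure M L).restrictScalars C) P) : ¬ τ.Gen M P := by
  rintro ⟨x, hx, hxt⟩
  apply hxt
  have := h x hx
  rwa [IntermediateField.mem_restrictScalars, mem_algebraicClosure_iff] at this

theorem gen_of_zsmul {τ : AGp C} {M : IntermediateField C L} {P P' : τ.G L} {m : ℤ}
    (hP : τ.Gen M P) (h : m • P' = P) : τ.Gen M P' := by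
  by_contra hc
  have h1 := (not_gen_rat hc).zsmul m
  rw [h] at h1
  exact rat_not_gen h1 hP

theorem twist [CharZero C] {τ₁ τ : AGp C} (hτ₁ : Nice τ₁) {D : Derivation C L L}
    (hD : ∀ x, D x = 0 → ∃ c : C, algebraMap C L c = x) {M : IntermediateField C L}
    (hM : Stab D M) {P P' : τ₁.G L} (hP : τ₁.Gen M P) {m : ℤ} (hm : m ≠ 0) (hP' : m • P' = P)
    (ha₁ : τ₁.lam D P ∈ M) {Q : τ.G L} (hQ : τ.Rat (τ₁.adj M P) Q) (ha : τ.lam D Q ∈ M) :
    ∃ (b : C) (Q' : τ.G L), (∀ δ : Derivation C L L, (∀ x ∈ M, δ x = 0) → τ₁.lam δ P = 1 →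
      τ.lam δ Q = algebraMap C L b) ∧ τ.Rat (τ₁.adj M P') Q' ∧ τ.Rat M (m • Q' - Q) ∧
      τ.lam D (m • Q' - Q) =
        ((m : L) - 1) * (τ.lam D Q - algebraMap C L b * τ₁.lam D P) := by
  have hL := cz (C := C) L
  have hmL : (m : L) ≠ 0 := by exact_mod_cast hm
  have hgen' : τ₁.Gen M P' := gen_of_zsmul hP hP'
  have hle : τ₁.adj M P ≤ τ₁.adj M P' := by
    apply τ₁.adj_le (τ₁.le_adj M P')
    rw [← hP']
    exact (τ₁.rat_adj M P').zsmul m
  obtain ⟨δ₀, hδ₀⟩ := hτ₁.exd M P hP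
  set δ : Derivation C L L := δ₀.restrictScalars C with hδdef
  have hδM : ∀ x ∈ M, δ x = 0 := fun x hx => δ₀.map_algebraMap ⟨x, hx⟩
  -- the derivative along `δ` is a constant
  have hbr : ∀ x ∈ τ₁.adj M P, ⁅D, δ⁆ x = 0 := by
    apply der_adj_zero τ₁
    · intro x hx
      rw [Derivation.commutator_apply, hδM x hx, hδM _ (hM x hx), map_zero, sub_zero]
    · rw [τ₁.lam_br, hδ₀, hδM _ ha₁, Derivation.map_one_eq_zero, sub_zero]
  have hDb : D (τ.lam δ Q) = 0 := by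
    have h1 := τ.lam_br D δ Q
    rw [τ.lam_of_const _ Q (fun x hx => hbr x (hQ x hx)), hδM _ ha, sub_zero] at h1
    exact h1.symm
  obtain ⟨b, hb⟩ := hD _ hDb
  -- the embedding
  obtain ⟨φ, hφ1, hφ2⟩ := hτ₁.lift M P P' hP hgen'
  obtain ⟨Q₀, hQ₀⟩ := (τ.rat_iff _ _).1 hQ
  obtain ⟨P₀, hP₀⟩ := (τ₁.rat_iff _ _).1 (τ₁.rat_adj M P)
  have hφP := hφ2 P₀ hP₀
  set Q' := τ.map φ Q₀ with hQ'
  have hφr : ∀ x : τ₁.adj M P, φ x ∈ τ₁.adj M P' := by
    intro x
    have := adj_top τ₁ (P := P) ((τ₁.adj M P').comap φ) (by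
      intro y hy
      change φ (⟨y, _⟩ : τ₁.adj M P) ∈ τ₁.adj M P'
      rw [hφ1 y hy]
      exact τ₁.le_adj M P' hy) (by
      intro R hR y hy
      change φ y ∈ τ₁.adj M P'
      apply τ₁.rat_adj M P'
      rw [← hφ2 R hR, τ₁.coord_map, List.mem_map]
      exact ⟨y, hy, rfl⟩) x
    exact this
  have hQ'r : τ.Rat (τ₁.adj M P') Q' := by
    intro x hx
    rw [hQ', τ.coord_map, List.mem_map] at hx
    obtain ⟨y, -, rfl⟩ := hx
    exact hφr y
  -- the second derivation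
  obtain ⟨ε₀, hε₀⟩ := hτ₁.exd M P' hgen'
  set ε : Derivation C L L := ε₀.restrictScalars C with hεdef
  have hεM : ∀ x ∈ M, ε x = 0 := fun x hx => ε₀.map_algebraMap ⟨x, hx⟩
  have hεP : τ₁.lam ε P = m := by
    rw [← hP', map_zsmul, hε₀]; simp
  -- ε = m δ on `M(P)`
  have hεδ : ∀ x ∈ τ₁.adj M P, ε x = m * δ x := by
    intro x hx
    have h1 := der_adj_zero τ₁ (D := ε - (m : L) • δ) (M := M) (P := P) (by
      intro y hy
      simp [hεM y hy, hδM y hy]) (by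
      rw [sub_eq_add_neg, ← neg_smul, τ₁.lam_add, τ₁.lam_smul, hεP, hδ₀]; simp) x hx
    simp only [Derivation.coe_sub, Pi.sub_apply, Derivation.coe_smul, Pi.smul_apply,
      smul_eq_mul] at h1
    exact sub_eq_zero.1 h1
  have hεQ : τ.lam ε Q = m * algebraMap C L b := by
    have h1 := τ.lam_congr ε ((m : L) • δ) Q (fun x hx => by
      rw [hεδ x (hQ x hx)]; rfl)
    rw [h1, τ.lam_smul, hb]
  -- δ on the source corresponds to ε on the target
  have hstδ : Stab δ (τ₁.adj M P) := stab_adj hτ₁ (fun x hx => by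
    rw [hδM x hx]; exact zero_mem _) (by rw [hδ₀]; exact one_mem _)
  have hin1 : ∀ x : τ₁.adj M P, ε (φ x) = φ (rs δ _ hstδ x) := by
    refine inter_adj τ₁ φ hφ2 hstδ ?_ (c := 1) ?_ ?_
    · intro x hx h' h
      rw [hφ1 x hx, hεM x hx]
      have : (⟨δ x, h⟩ : τ₁.adj M P) = 0 := Subtype.ext (hδM x hx)
      rw [this, map_zero]
    · rw [hδ₀]; rfl
    · rw [hε₀, map_one]
  have hεQ' : τ.lam ε Q' = algebraMap C L b := by
    have := lam_inter τ φ hstδ hin1 Q₀ (c := algebraMap C _ b) (by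
      rw [hQ₀, ← hb]; rfl)
    rw [this, φ.commutes]
  -- D
  set a := τ.lam D Q with ha'
  set a₁ := τ₁.lam D P with ha₁'
  have hDP' : (m : L) * τ₁.lam D P' = a₁ := by
    rw [ha₁', ← hP', map_zsmul]; simp
  have hDP'2 : τ₁.lam D P' = a₁ / m := by
    field_simp; rw [mul_comm]; exact hDP'
  have hle1 := τ₁.le_adj M P
  have hstD : Stab (D - a₁ • δ) (τ₁.adj M P) := by
    have h1 : Stab D (τ₁.adj M P) := stab_adj hτ₁ hM (hle1 ha₁)
    intro x hx
    simp only [Derivation.coe_sub, Pi.sub_apply, Derivation.coe_smul, Pi.smul_apply, smul_eq_mul]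
    exact sub_mem (h1 x hx) (mul_mem (hle1 ha₁) (hstδ x hx))
  have hin2 : ∀ x : τ₁.adj M P, (D - (a₁ / m) • ε) (φ x) = φ (rs (D - a₁ • δ) _ hstD x) := by
    refine inter_adj τ₁ φ hφ2 hstD ?_ (c := 0) ?_ ?_
    · intro x hx h' h
      rw [hφ1 x hx]
      have h2 : (D - a₁ • δ) x = D x := by simp [hδM x hx]
      have h3 : (⟨(D - a₁ • δ) x, h⟩ : τ₁.adj M P) = ⟨D x, hle1 (hM x hx)⟩ := Subtype.ext h2
      rw [h3, hφ1 _ (hM x hx)]
      simp [hεM x hx]
    · rw [sub_eq_add_neg, ← neg_smul, τ₁.lam_add, τ₁.lam_smul, hδ₀]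
      simp [ha₁']
    · rw [sub_eq_add_neg, ← neg_smul, τ₁.lam_add, τ₁.lam_smul, hε₀, hDP'2]
      simp
  have hDQ' : τ.lam D Q' = a - a₁ * algebraMap C L b + a₁ / m * algebraMap C L b := by
    have h1 : a - a₁ * algebraMap C L b ∈ M :=
      sub_mem ha (mul_mem ha₁ (IntermediateField.algebraMap_mem _ b))
    have h2 := lam_inter τ φ hstD hin2 Q₀ (c := ⟨a - a₁ * algebraMap C L b, hle1 h1⟩) (by
      rw [hQ₀, sub_eq_add_neg, ← neg_smul, τ.lam_add, τ.lam_smul, ← hb]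
      change a + -a₁ * algebraMap C L b = a - a₁ * algebraMap C L b
      ring)
    rw [hφ1 _ h1, sub_eq_add_neg, ← neg_smul, τ.lam_add, τ.lam_smul, hεQ'] at h2
    linear_combination h2
  refine ⟨b, Q', ?_, hQ'r, ?_, ?_⟩
  · intro δ' h1 h2
    rw [hb]
    apply τ.lam_congr
    intro x hx
    have h3 := der_adj_zero τ₁ (D := δ' - δ) (M := M) (P := P) (by
      intro y hy
      simp [h1 y hy, hδM y hy]) (by
      have h4 : (δ' - δ) = δ' + (-1 : L) • δ := by simp [sub_eq_add_neg]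
      rw [h4, τ₁.lam_add, τ₁.lam_smul, h2, hδ₀]; simp) x (hQ x hx)
    simp only [Derivation.coe_sub, Pi.sub_apply] at h3
    exact sub_eq_zero.1 h3
  · -- rationality
    intro x hx
    have hr : τ.Rat (τ₁.adj M P') (m • Q' - Q) := (hQ'r.zsmul m).sub (hQ.mono hle)
    refine ker_adj hτ₁ hgen' (D := ε) hεM (by rw [hε₀]; exact one_ne_zero) (hr x hx) ?_
    apply τ.const_of_lam ε (m • Q' - Q) ?_ x hx
    rw [map_sub, map_zsmul, hεQ', hεQ]
    simp
  · rw [map_sub, map_zsmul, hDQ', ← ha']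
    simp only [zsmul_eq_mul]
    field_simp
    ring

end Pool.Agent.Helper6.EE
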