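import Mathlib

/-! The invariant differential of a short Weierstrass curve along a derivation of the field:
`P = (x, y) ↦ D x / (2 y)` is additive. -/

set_option autoImplicit false

open WeierstrassCurve

namespace Pool.Agent.Helper6.EE

variable {C : Type} [Field C]

/-- the curve `y² = x³ + a x + b` -/
def sW (a b : C) : Affine C := ⟨0, 0, 0, a, b⟩

/-- the same curve over an extension -/
noncomputable abbrev WK (a b : C) (K : Type) [Field K] [Algebra C K] : Affine K :=
  Affine.baseChange (sW a b) K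

variable {K : Type} [Field K] [Algebra C K]

theorem WK_a₁ (a b : C) : (WK a b K).a₁ = 0 := by simp [sW]
theorem WK_a₂ (a b : C) : (WK a b K).a₂ = 0 := by simp [sW]
theorem WK_a₃ (a b : C) : (WK a b K).a₃ = 0 := by simp [sW]
theorem WK_a₄ (a b : C) : (WK a b K).a₄ = algebraMap C K a := by simp [sW]
theorem WK_a₆ (a b : C) : (WK a b K).a₆ = algebraMap C K b := by simp [sW]

theorem WK_equation (a b : C) (x y : K) : (WK a b K).Equation x y ↔
    y ^ 2 = x ^ 3 + algebraMap C K a * x + algebraMap C K b := by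
  rw [Affine.equation_iff]
  simp [sW]

theorem WK_nonsingular (a b : C) (x y : K) : (WK a b K).Nonsingular x y ↔
    y ^ 2 = x ^ 3 + algebraMap C K a * x + algebraMap C K b ∧
      (3 * x ^ 2 + algebraMap C K a ≠ 0 ∨ y ≠ -y) := by
  rw [Affine.nonsingular_iff, WK_equation]
  simp only [WK_a₁, WK_a₂, WK_a₃, WK_a₄]
  constructor
  · rintro ⟨h1, h2⟩
    refine ⟨h1, ?_⟩
    rcases h2 with h2 | h2
    · left; intro h; apply h2; linear_combination -h
    · right; intro h; apply h2; linear_combination h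
  · rintro ⟨h1, h2⟩
    refine ⟨h1, ?_⟩
    rcases h2 with h2 | h2
    · left; intro h; apply h2; linear_combination -h
    · right; intro h; apply h2; linear_combination h

theorem WK_negY (a b : C) (x y : K) : (WK a b K).negY x y = -y := by
  simp [Affine.negY, sW]

theorem WK_addX (a b : C) (x y l : K) : (WK a b K).addX x y l = l ^ 2 - x - y := by
  simp [Affine.addX, sW]

theorem WK_addY (a b : C) (x₁ x₂ y l : K) : (WK a b K).addY x₁ x₂ y l =
    l * (x₁ - (l ^ 2 - x₁ - x₂)) - y := by
  simp only [Affine.addY, Affine.negAddY, WK_negY, WK_addX]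
  ring

theorem ns_zero {a b : C} {x y : K} (h : (WK a b K).Nonsingular x y) (hy : y = 0) :
    3 * x ^ 2 + algebraMap C K a ≠ 0 := by
  obtain ⟨h1, h2⟩ := (WK_nonsingular a b x y).1 h
  rcases h2 with h2 | h2
  · exact h2
  · exfalso; apply h2; rw [hy]; simp

section
variable [CharZero K]

/-- the logarithmic derivative at a point -/
theorem der_pt {a b : C} (D : Derivation C K K) {x y : K} (h : (WK a b K).Nonsingular x y) :
    D x = 2 * y * (D x / (2 * y)) ∧ D y = (3 * x ^ 2 + algebraMap C K a) * (D x / (2 * y)) := by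
  have h1 := ((WK_nonsingular a b x y).1 h).1
  have h3 := congrArg D h1
  simp only [map_add, D.leibniz_pow, D.leibniz, D.map_algebraMap, smul_eq_mul, nsmul_eq_mul] at h3
  have h3' : 2 * y * D y = (3 * x ^ 2 + algebraMap C K a) * D x := by
    push_cast at h3
    linear_combination h3
  by_cases hy : y = 0
  · have hf := ns_zero h hy
    have hx : D x = 0 := by
      rw [hy] at h3'
      have : (3 * x ^ 2 + algebraMap C K a) * D x = 0 := by rw [← h3']; ring
      exact (mul_eq_zero.1 this).resolve_left hf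
    rw [hx, hy]
    simp
  · have h2 : (2 : K) ≠ 0 := two_ne_zero
    constructor
    · field_simp
    · field_simp
      linear_combination h3'

theorem der_pt_unique {a b : C} (D : Derivation C K K) {x y s : K}
    (h : (WK a b K).Nonsingular x y) (hx : D x = 2 * y * s)
    (hy : D y = (3 * x ^ 2 + algebraMap C K a) * s) : D x / (2 * y) = s := by
  obtain ⟨h3, h4⟩ := der_pt D h
  by_cases hy0 : y = 0
  · have hf := ns_zero h hy0
    exact (mul_left_cancel₀ hf (hy.symm.trans h4)).symm
  · have h2 : (2 : K) ≠ 0 := two_ne_zero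
    rw [hx]; field_simp

end

/-- the logarithmic derivative of a point along a derivation -/
noncomputable def wlam {a b : C} (D : Derivation C K K) : (WK a b K).Point → K
  | .zero => 0
  | .some x y _ => D x / (2 * y)

theorem wlam_zero {a b : C} (D : Derivation C K K) : wlam D (0 : (WK a b K).Point) = 0 := rfl

theorem wlam_some {a b : C} (D : Derivation C K K) {x y : K} (h : (WK a b K).Nonsingular x y) :
    wlam D (.some x y h) = D x / (2 * y) := rfl

/-- the addition formula, in abstract form -/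
theorem add_key {a : K} (D : Derivation C K K) {x₁ y₁ x₂ y₂ x₃ y₃ l s₁ s₂ : K}
    (hx₁ : D x₁ = 2 * y₁ * s₁) (hy₁ : D y₁ = (3 * x₁ ^ 2 + a) * s₁)
    (hx₂ : D x₂ = 2 * y₂ * s₂)
    (hl : D l = (x₁ - x₃) * s₁ + (x₂ - x₃) * s₂)
    (f1 : 3 * x₁ ^ 2 + a = 2 * l * y₁ + (x₁ - x₂) * (x₁ - x₃))
    (f3 : 3 * x₃ ^ 2 + a = -2 * l * y₃ + (x₃ - x₁) * (x₃ - x₂))
    (e1 : y₂ = y₁ + l * (x₂ - x₁)) (e2 : y₃ = l * (x₁ - x₃) - y₁) (e3 : x₃ = l ^ 2 - x₁ - x₂) :
    D x₃ = 2 * y₃ * (s₁ + s₂) ∧ D y₃ = (3 * x₃ ^ 2 + a) * (s₁ + s₂) := by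
  have hx3 : D x₃ = 2 * y₃ * (s₁ + s₂) := by
    have h := congrArg D e3
    simp only [map_sub, D.leibniz_pow, smul_eq_mul, nsmul_eq_mul] at h
    push_cast at h
    rw [h, hl, hx₁, hx₂, e1, e2]
    ring
  refine ⟨hx3, ?_⟩
  have h := congrArg D e2
  simp only [map_sub, D.leibniz, smul_eq_mul] at h
  rw [h, hl, hx₁, hx3, hy₁, f1, f3]
  have e4 : y₁ = l * (x₁ - x₃) - y₃ := by rw [e2]; ring
  rw [e4]; ring

variable [CharZero K]

theorem wlam_add [DecidableEq K] {a b : C} (D : Derivation C K K) (P Q : (WK a b K).Point) :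
    wlam D (P + Q) = wlam D P + wlam D Q := by
  rcases P with _ | ⟨x₁, y₁, h₁⟩
  · change wlam D (0 + Q) = wlam D (0 : (WK a b K).Point) + wlam D Q
    rw [zero_add, wlam_zero, zero_add]
  rcases Q with _ | ⟨x₂, y₂, h₂⟩
  · change wlam D (Affine.Point.some x₁ y₁ h₁ + 0) = _ + wlam D (0 : (WK a b K).Point)
    rw [add_zero, wlam_zero, add_zero]
  obtain ⟨hx₁, hy₁⟩ := der_pt D h₁
  obtain ⟨hx₂, hy₂⟩ := der_pt D h₂
  have E1 := ((WK_nonsingular a b x₁ y₁).1 h₁).1
  have E2 := ((WK_nonsingular a b x₂ y₂).1 h₂).1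
  have two : (2 : K) ≠ 0 := two_ne_zero
  by_cases hxy : x₁ = x₂ ∧ y₁ = (WK a b K).negY x₂ y₂
  · rw [Affine.Point.add_of_Y_eq hxy.1 hxy.2, wlam_zero, wlam_some, wlam_some]
    obtain ⟨rfl, hy⟩ := hxy
    rw [WK_negY] at hy
    rw [hy]
    by_cases h0 : y₂ = 0
    · rw [h0]; simp
    · field_simp
      ring
  · rw [Affine.Point.add_some hxy, wlam_some, wlam_some, wlam_some]
    have h3 := Affine.nonsingular_add h₁ h₂ hxy
    set l := (WK a b K).slope x₁ x₂ y₁ y₂ with hl
    set x₃ := (WK a b K).addX x₁ x₂ l with hx3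
    set y₃ := (WK a b K).addY x₁ x₂ y₁ l with hy3
    rw [WK_addX] at hx3
    have hy3' : y₃ = l * (x₁ - x₃) - y₁ := by rw [hy3, WK_addY, hx3]
    set s₁ := D x₁ / (2 * y₁) with hs1
    set s₂ := D x₂ / (2 * y₂) with hs2
    by_cases hx : x₁ = x₂
    · -- tangent case
      have hy : y₁ ≠ (WK a b K).negY x₂ y₂ := fun h => hxy ⟨hx, h⟩
      have hl2 := Affine.slope_of_Y_ne hx hy
      rw [← hl] at hl2
      simp only [WK_a₁, WK_a₂, WK_a₄, WK_negY] at hl2
      rw [WK_negY] at hy
      subst hx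
      have h12 : y₁ = y₂ := by
        have : (y₁ - y₂) * (y₁ + y₂) = 0 := by linear_combination E1 - E2
        rcases mul_eq_zero.1 this with h | h
        · exact sub_eq_zero.1 h
        · exact absurd (eq_neg_of_add_eq_zero_left h) hy
      subst h12
      have hy0 : y₁ ≠ 0 := by
        rintro h; apply hy; rw [h]; simp
      have hl3 : 2 * y₁ * l = 3 * x₁ ^ 2 + algebraMap C K a := by
        rw [hl2]
        have : y₁ - -y₁ ≠ 0 := by
          intro h; apply hy; linear_combination h
        field_simp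
        ring
      have hDl : D l = (x₁ - x₃) * s₁ + (x₁ - x₃) * s₂ := by
        have h := congrArg D hl3
        simp only [map_add, D.leibniz, D.leibniz_pow, smul_eq_mul, nsmul_eq_mul,
          D.map_algebraMap] at h
        have h2' : D (2 : K) = 0 := by
          have := D.map_natCast 2
          exact_mod_cast this
        have h3' : D (3 : K) = 0 := by
          have := D.map_natCast 3
          exact_mod_cast this
        rw [h2', h3'] at h
        push_cast at h
        have h5 : 2 * y₁ * D l = 2 * y₁ * ((x₁ - x₃) * s₁ + (x₁ - x₃) * s₂) := by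
          rw [hx3]
          have e : s₂ = s₁ := rfl
          rw [e]
          linear_combination h - 2 * l * hy₁ + 6 * x₁ * hx₁ + 2 * l * s₁ * hl3
        exact mul_left_cancel₀ (mul_ne_zero two hy0) h5
      obtain ⟨r1, r2⟩ := add_key (a := algebraMap C K a) D hx₁ hy₁ hx₂ hDl
        (by linear_combination -hl3)
        (by rw [hy3', hx3]; linear_combination -hl3)
        (by ring) hy3' hx3
      exact der_pt_unique D h3 r1 r2
    · have hd : x₁ - x₂ ≠ 0 := sub_ne_zero.2 hx
      have hl2 := Affine.slope_of_X_ne (W := WK a b K) (y₁ := y₁) (y₂ := y₂) hx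
      rw [← hl] at hl2
      have hl3 : l * (x₁ - x₂) = y₁ - y₂ := by rw [hl2]; field_simp
      have f1 : 3 * x₁ ^ 2 + algebraMap C K a = 2 * l * y₁ + (x₁ - x₂) * (x₁ - x₃) := by
        apply mul_left_cancel₀ hd
        rw [hx3]
        linear_combination -E1 + E2 + (l * (x₁ - x₂) + (y₁ - y₂) - 2 * y₁) * hl3
      have f2 : 3 * x₂ ^ 2 + algebraMap C K a = 2 * l * y₂ + (x₂ - x₁) * (x₂ - x₃) := by
        linear_combination f1 - 2 * l * hl3 - 2 * (x₁ - x₂) * hx3
      have hDl : D l = (x₁ - x₃) * s₁ + (x₂ - x₃) * s₂ := by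
        have h := congrArg D hl3
        simp only [map_sub, D.leibniz, smul_eq_mul] at h
        apply mul_left_cancel₀ hd
        linear_combination h - l * hx₁ + l * hx₂ + hy₁ - hy₂ + s₁ * f1 - s₂ * f2
      obtain ⟨r1, r2⟩ := add_key (a := algebraMap C K a) D hx₁ hy₁ hx₂ hDl f1
        (by rw [hy3']; linear_combination f1 - 2 * (x₁ - x₃) * hx3)
        (by linear_combination hl3) hy3' hx3
      exact der_pt_unique D h3 r1 r2

end Pool.Agent.Helper6.EE
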